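import Mathlib

/-! Polynomials in characteristic `p`: antiderivatives, divisibility by `W^p`, coefficients at `jp-1`. -/

namespace Pool.Agent.Lib.MP_748296_nt.H2

open Polynomial

variable {k : Type} [CommRing k] (p : ℕ) [Fact p.Prime] [CharP k p]

theorem unit_of_not_dvd {n : ℕ} (h : ¬ p ∣ n) : IsUnit (n : k) := by
  have hp : p.Prime := Fact.out
  have h1 : IsUnit (n : ZMod p) := by
    rw [ZMod.isUnit_iff_coprime]; exact Nat.Coprime.symm ((Nat.Prime.coprime_iff_not_dvd hp).2 h)
  have h2 := h1.map (ZMod.castHom (dvd_refl p) k)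
  simpa using h2

/-- antiderivative without terms of degree divisible by `p` -/
theorem exists_antideriv (P : k[X]) (hP : ∀ n, p ∣ n + 1 → P.coeff n = 0) :
    ∃ K : k[X], derivative K = P ∧ (∀ n, p ∣ n → K.coeff n = 0) ∧ K.natDegree ≤ P.natDegree + 1 := by
  have hp : p.Prime := Fact.out
  have hinv : ∀ n : ℕ, ∃ t : k, ¬ p ∣ n → (n : k) * t = 1 := by
    intro n
    by_cases h : p ∣ n
    · exact ⟨0, fun h' => absurd h h'⟩
    · obtain ⟨t, ht⟩ := (unit_of_not_dvd (k := k) p h).exists_right_inv
      exact ⟨t, fun _ => ht⟩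
  choose t ht using hinv
  refine ⟨∑ i ∈ Finset.range (P.natDegree + 1), monomial (i + 1) (if p ∣ i + 1 then 0 else t (i + 1) * P.coeff i), ?_, ?_, ?_⟩
  · rw [derivative_sum]
    conv_rhs => rw [P.as_sum_range]
    apply Finset.sum_congr rfl
    intro i _
    rw [derivative_monomial]
    simp only [Nat.add_sub_cancel]
    congr 1
    split_ifs with h
    · rw [zero_mul, hP i h]
    · rw [mul_right_comm, mul_comm (t (i+1)), ht _ h, one_mul]
  · intro n hn
    rw [finsetSum_coeff]
    apply Finset.sum_eq_zero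
    intro i _
    rw [coeff_monomial]
    split_ifs with h1 h2
    · rfl
    · subst h1; exact absurd hn h2
    · rfl
  · apply natDegree_sum_le_of_forall_le
    intro i hi
    have := Finset.mem_range.1 hi
    exact (natDegree_monomial_le _).trans (by omega)

/-- if `G' = 0` then `G` only has terms of degree divisible by `p` -/
theorem coeff_of_deriv_zero (G : k[X]) (h : derivative G = 0) (n : ℕ) (hn : ¬ p ∣ n) : G.coeff n = 0 := by
  rcases Nat.eq_zero_or_pos n with rfl | h0
  · exact absurd (dvd_zero p) hn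
  obtain ⟨m, rfl⟩ : ∃ m, n = m + 1 := ⟨n - 1, by omega⟩
  have h1 := congrArg (fun q => coeff q m) h
  simp only [coeff_derivative, coeff_zero] at h1
  have h2 : IsUnit ((m + 1 : ℕ) : k) := unit_of_not_dvd p hn
  push_cast at h2
  exact (h2.mul_left_eq_zero).1 h1

theorem coeff_deriv_dvd (G : k[X]) (n : ℕ) (hn : p ∣ n + 1) : (derivative G).coeff n = 0 := by
  rw [coeff_derivative]
  have : ((n + 1 : ℕ) : k) = 0 := (CharP.cast_eq_zero_iff k p _).2 hn
  push_cast at this
  rw [this, mul_zero]

/-- `W ∣ G`, `G' = 0`, `W, W'` coprime imply `W^p ∣ G`. -/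
theorem pow_dvd_of_dvd (W G : k[X]) (hreg : ∀ Q : k[X], W * Q = 0 → Q = 0) (hcop : IsCoprime W (derivative W))
    (hG : derivative G = 0) (hW : W ∣ G) : W ^ p ∣ G := by
  have hp : p.Prime := Fact.out
  have key : ∀ m, 1 ≤ m → m ≤ p → W ^ m ∣ G := by
    intro m hm
    induction m, hm using Nat.le_induction with
    | base => intro _; simpa using hW
    | succ m hm ih =>
      intro hmp
      obtain ⟨Q, hQ⟩ := ih (by omega)
      -- 0 = G' = m W^(m-1) W' Q + W^m Q'
      have h1 : derivative G = W ^ (m - 1) * ((m : k[X]) * derivative W * Q + W * derivative Q) := by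
        rw [hQ, derivative_mul, derivative_pow]
        obtain ⟨j, rfl⟩ : ∃ j, m = j + 1 := ⟨m - 1, by omega⟩
        simp only [Nat.add_sub_cancel, pow_succ, map_natCast]
        push_cast
        ring
      have hregm : ∀ (j : ℕ) (Q : k[X]), W ^ j * Q = 0 → Q = 0 := by
        intro j
        induction j with
        | zero => intro Q h; simpa using h
        | succ j ihj => intro Q h; rw [pow_succ, mul_assoc] at h; exact hreg Q (ihj _ h)
      have h2 := hregm (m - 1) _ (by rw [← h1, hG])
      have h3 : IsUnit ((m : ℕ) : k) := unit_of_not_dvd p (fun h => by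
        have := Nat.le_of_dvd (by omega) h; omega)
      obtain ⟨t, ht⟩ := h3.exists_right_inv
      have ht' : (m : k[X]) * C t = 1 := by
        have : (m : k[X]) = C (m : k) := by simp
        rw [this, ← C_mul, ht, C_1]
      have h4 : W ∣ derivative W * Q := by
        refine ⟨-(C t * derivative Q), ?_⟩
        linear_combination (C t) * h2 - (derivative W * Q) * ht'
      have h5 : W ∣ Q := hcop.dvd_of_dvd_mul_left h4
      obtain ⟨R, hR⟩ := h5
      exact ⟨R, by rw [hQ, hR, pow_succ]; ring⟩
  exact key p hp.one_lt.le le_rfl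

/-- coefficients of `f^N H` at `jp - 1`. -/
theorem coeff_fNH (hp2 : p ≠ 2) (F K : k[X]) (u ui g : k) (hu : u * ui = 1)
    (hK : derivative K = C ui * F - X ^ (p - 1)) (hK0 : ∀ n, p ∣ n → K.coeff n = 0) (j : ℕ) (hj : 1 ≤ j) :
    (F * (K + C g * X ^ p)).coeff (j * p - 1) = if j = 2 then u * g else 0 := by
  have hp : p.Prime := Fact.out
  have hp1 := hp.one_lt
  have hF : F = C u * (derivative K + X ^ (p - 1)) := by
    rw [hK]; have : C u * C ui = (1 : k[X]) := by rw [← C_mul, hu, C_1]
    linear_combination -F * this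
  have h2 : IsUnit ((2 : ℕ) : k) := unit_of_not_dvd p (fun h => by
    rcases (Nat.dvd_prime Nat.prime_two).1 h with h | h
    · omega
    · exact hp2 h)
  have hjp : 1 ≤ j * p := Nat.mul_pos (by omega) hp.pos
  have e1 : (derivative K * K).coeff (j * p - 1) = 0 := by
    have h3 : (derivative (K * K)).coeff (j * p - 1) = 0 :=
      coeff_deriv_dvd p _ _ (by rw [Nat.sub_add_cancel hjp]; exact dvd_mul_left p j)
    rw [derivative_mul, mul_comm K, ← two_mul] at h3
    have h4 : (2 : k[X]) = C (2 : k) := (map_ofNat C 2).symm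
    rw [h4, coeff_C_mul] at h3
    exact (IsUnit.mul_right_eq_zero (by simpa using h2)).1 h3
  have e2 : (derivative K * X ^ p).coeff (j * p - 1) = 0 := by
    rw [coeff_mul_X_pow']
    split_ifs with h
    · apply coeff_deriv_dvd p
      have : j * p - 1 - p + 1 = (j - 1) * p := by rw [Nat.sub_mul]; omega
      rw [this]; exact dvd_mul_left p _
    · rfl
  have e3 : (X ^ (p - 1) * (K + C g * X ^ p)).coeff (j * p - 1) = if j = 2 then g else 0 := by
    rw [mul_comm, coeff_mul_X_pow']
    have h5 : p - 1 ≤ j * p - 1 := by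
      have : p ≤ j * p := Nat.le_mul_of_pos_left p (by omega)
      omega
    rw [if_pos h5]
    have h6 : j * p - 1 - (p - 1) = (j - 1) * p := by rw [Nat.sub_mul]; omega
    rw [h6, coeff_add, hK0 _ (dvd_mul_left p _), zero_add, coeff_C_mul, coeff_X_pow]
    by_cases hj2 : j = 2
    · subst hj2; simp
    · rw [if_neg hj2, if_neg, mul_zero]
      intro h7
      have : j - 1 = 1 := Nat.eq_of_mul_eq_mul_right hp.pos (by rw [h7, one_mul])
      omega
  have e4 : F * (K + C g * X ^ p) = C u * (derivative K * K + C g * (derivative K * X ^ p)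
      + X ^ (p - 1) * (K + C g * X ^ p)) := by rw [hF]; ring
  rw [e4, coeff_C_mul, coeff_add, coeff_add, e1, coeff_C_mul, e2, e3]
  split_ifs <;> simp

end Pool.Agent.Lib.MP_748296_nt.H2
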