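import Mathlib

/-! Residue invariance under a change of the local parameter (power series form). -/

namespace Pool.Agent.Lib.MP_748296_nt.H2

open PowerSeries

variable {A : Type} [CommRing A]

/-- `i ρ' Ei^(i+1) = i Ei^i - X (Ei^i)'` for `ρ = X E`, `E Ei = 1`. -/
theorem deriv_id (E Ei : A⟦X⟧) (h : E * Ei = 1) (i : ℕ) :
    (i : A⟦X⟧) * (d⁄dX A (X * E)) * Ei ^ (i + 1) = (i : A⟦X⟧) * Ei ^ i - X * d⁄dX A (Ei ^ i) := by
  have h1 : d⁄dX A (X * E) = E + X * d⁄dX A E := by
    rw [Derivation.leibniz, derivative_X]; simp; ring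
  have h2 : d⁄dX A E * Ei + E * d⁄dX A Ei = 0 := by
    have := congrArg (d⁄dX A) h
    rw [Derivation.leibniz, derivative_one] at this
    simp only [smul_eq_mul] at this
    linear_combination this
  have h3 : d⁄dX A Ei = - Ei ^ 2 * d⁄dX A E := by
    have : Ei * (d⁄dX A E * Ei + E * d⁄dX A Ei) = 0 := by rw [h2, mul_zero]
    have h4 : d⁄dX A Ei * (E * Ei) = - Ei ^ 2 * d⁄dX A E := by linear_combination this
    rw [h, mul_one] at h4; exact h4
  rcases Nat.eq_zero_or_pos i with rfl | hi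
  · simp
  obtain ⟨j, rfl⟩ : ∃ j, i = j + 1 := ⟨i - 1, by omega⟩
  rw [derivative_pow, h1, h3]
  have : Ei ^ (j + 1 + 1) * E = Ei ^ (j + 1) := by
    rw [pow_succ]; linear_combination Ei ^ (j + 1) * h
  push_cast
  linear_combination ((j : A⟦X⟧) + 1) * this

theorem coeff_X_deriv (G : A⟦X⟧) (m : ℕ) : coeff m (X * d⁄dX A G) = m * coeff m G := by
  cases m with
  | zero => simp
  | succ m =>
    rw [coeff_succ_X_mul, coeff_derivative]; push_cast; ring

theorem coeff_nat_mul (G : A⟦X⟧) (i m : ℕ) : coeff m ((i : A⟦X⟧) * G) = i * coeff m G := by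
  have : (i : A⟦X⟧) = C (i : A) := by simp
  rw [this, coeff_C_mul]

theorem res_pow [IsAddTorsionFree A] (E Ei : A⟦X⟧) (h : E * Ei = 1) (k : ℕ) :
    coeff k ((d⁄dX A (X * E)) * Ei ^ (k + 1)) = if k = 0 then 1 else 0 := by
  rcases Nat.eq_zero_or_pos k with rfl | hk
  · have h1 : d⁄dX A (X * E) = E + X * d⁄dX A E := by
      rw [Derivation.leibniz, derivative_X]; simp; ring
    rw [h1]
    have : (E + X * d⁄dX A E) * Ei ^ (0 + 1) = 1 + X * (d⁄dX A E * Ei) := by
      linear_combination h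
    rw [this]; simp
  · have h2 := congrArg (coeff k) (deriv_id E Ei h k)
    rw [mul_assoc, coeff_nat_mul, map_sub, coeff_nat_mul, coeff_X_deriv, sub_self] at h2
    have h3 : (k : ℕ) • coeff k ((d⁄dX A (X * E)) * Ei ^ (k + 1)) = 0 := by
      rw [nsmul_eq_mul]; exact h2
    rw [if_neg (by omega)]
    exact (nsmul_eq_zero_iff_right (by omega)).1 h3

/-- residue invariance -/
theorem res_subst [IsAddTorsionFree A] (E Ei : A⟦X⟧) (h : E * Ei = 1) (g : A⟦X⟧) (m : ℕ) :
    coeff m ((d⁄dX A (X * E)) * g.subst (X * E) * Ei ^ (m + 1)) = coeff m g := by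
  have hs : HasSubst (X * E : A⟦X⟧) := HasSubst.of_constantCoeff_zero' (by simp)
  conv_lhs => rw [g.eq_X_pow_mul_shift_add_trunc (m + 1)]
  rw [subst_add hs, subst_mul hs, subst_pow hs, subst_X hs, subst_coe hs]
  set D := d⁄dX A (X * E)
  have e1 : D * ((X * E) ^ (m + 1) * subst (X * E) (mk fun i => coeff (i + (m + 1)) g) +
      Polynomial.aeval (X * E) (trunc (m + 1) g)) * Ei ^ (m + 1)
      = X ^ (m + 1) * (D * E ^ (m + 1) * subst (X * E) (mk fun i => coeff (i + (m + 1)) g) * Ei ^ (m + 1))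
        + D * Polynomial.aeval (X * E) (trunc (m + 1) g) * Ei ^ (m + 1) := by ring
  rw [e1, map_add, coeff_X_pow_mul', if_neg (by omega), zero_add]
  rw [Polynomial.aeval_eq_sum_range' (natDegree_trunc_lt g m)]
  rw [Finset.mul_sum, Finset.sum_mul, map_sum]
  have e2 : ∀ i ∈ Finset.range (m + 1),
      coeff m (D * (Polynomial.coeff (trunc (m + 1) g) i • (X * E) ^ i) * Ei ^ (m + 1))
        = if i = m then coeff m g else 0 := by
    intro i hi
    have hi' : i < m + 1 := Finset.mem_range.1 hi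
    have e3 : D * (Polynomial.coeff (trunc (m + 1) g) i • (X * E) ^ i) * Ei ^ (m + 1)
        = C (Polynomial.coeff (trunc (m + 1) g) i) * (X ^ i * (D * Ei ^ (m - i + 1))) := by
      have e4 : Ei ^ (m + 1) = Ei ^ (m - i + 1) * Ei ^ i := by
        rw [← pow_add]; congr 1; omega
      have e5 : E ^ i * Ei ^ i = 1 := by rw [← mul_pow, h, one_pow]
      rw [PowerSeries.smul_eq_C_mul, e4, mul_pow]
      linear_combination (C (Polynomial.coeff (trunc (m + 1) g) i) * D * X ^ i * Ei ^ (m - i + 1)) * e5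
    rw [e3, coeff_C_mul, coeff_X_pow_mul', if_pos (by omega), res_pow E Ei h (m - i)]
    by_cases him : i = m
    · subst him; simp [coeff_trunc]
    · rw [if_neg (by omega), if_neg him, mul_zero]
  rw [Finset.sum_congr rfl e2]
  simp

end Pool.Agent.Lib.MP_748296_nt.H2
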