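import Pool.Agent.Lib.MP_748296_nt.H2.Lift
import Pool.Agent.Lib.MP_748296_nt.H2.CharPoly
import Pool.Agent.Lib.MP_748296_nt.H2.Residue

/-! The chain of congruences modulo `p^2`. -/

namespace Pool.Agent.Lib.MP_748296_nt.H2

open PowerSeries

theorem pow_add_expand {R : Type} [CommRing R] (a b : R) (i : ℕ) :
    ∃ Z, (a + b) ^ (i + 1) = a ^ (i + 1) + (i + 1) * a ^ i * b + b ^ 2 * Z := by
  induction i with
  | zero => exact ⟨0, by simp⟩
  | succ i ih =>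
    obtain ⟨Z, hZ⟩ := ih
    refine ⟨(i + 1) * a ^ i + (a + b) * Z, ?_⟩
    rw [pow_succ, hZ]; push_cast; ring

variable {A k : Type} [CommRing A] [CommRing k] {p : ℕ} [Fact p.Prime] [CharP k p]
  {π : A →+* k} {φ : A →+* A}

theorem coeff_key (hp2 : p ≠ 2) (F K : Polynomial k) (u ui g : k) (hu : u * ui = 1)
    (hK : Polynomial.derivative K = Polynomial.C ui * F - Polynomial.X ^ (p - 1))
    (hK0 : ∀ n, p ∣ n → K.coeff n = 0) (s : k⟦X⟧) (i : ℕ) (hi : 1 ≤ i) :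
    coeff ((i + 1) * p - 1) (((F * (K + Polynomial.C g * Polynomial.X ^ p) : Polynomial k) : k⟦X⟧) * s ^ p)
      = (coeff (i - 1) s) ^ p * (u * g) := by
  have hp : p.Prime := Fact.out
  rw [coeff_mul_expand p hp.pos _ (s ^ p) (fun n hn => by rw [coeff_pow_char p, if_neg hn]) (i + 1) (by omega)]
  rw [Finset.sum_eq_single (i - 1)]
  · rw [Polynomial.coeff_coe, coeff_fNH p hp2 F K u ui g hu hK hK0 _ (by omega), if_pos (by omega),
      coeff_pow_char p, if_pos (dvd_mul_right p _), Nat.mul_div_cancel_left _ hp.pos]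
  · intro b hb hb2
    have := Finset.mem_range.1 hb
    rw [Polynomial.coeff_coe, coeff_fNH p hp2 F K u ui g hu hK hK0 _ (by omega), if_neg (by omega), mul_zero]
  · intro h; exact absurd (Finset.mem_range.2 (by omega)) h

/-- `Fr(Ei)^i` modulo `p^2`. -/
theorem Fr_Ei (hp0 : p ≠ 0) (E Ei θ1 : A⟦X⟧) (h : E * Ei = 1)
    (hθ : E ^ p = Fr p hp0 φ E + (p : A⟦X⟧) * θ1) (i : ℕ) :
    ∃ Z : A⟦X⟧, Fr p hp0 φ (Ei ^ (i + 1)) = Ei ^ ((i + 1) * p) +
      ((i + 1 : ℕ) : A⟦X⟧) * (p : A⟦X⟧) * θ1 * Ei ^ ((i + 1 + 1) * p) + (p : A⟦X⟧) ^ 2 * Z := by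
  have h1 : Fr p hp0 φ E * Fr p hp0 φ Ei = 1 := by rw [← map_mul, h, map_one]
  have h2 : E ^ p * Ei ^ p = 1 := by rw [← mul_pow, h, one_pow]
  set x := Fr p hp0 φ Ei
  set a := Ei ^ p with ha
  have h3 : x = a + (p : A⟦X⟧) * (θ1 * x * a) := by
    rw [hθ] at h2
    linear_combination (-x) * h2 + a * h1
  have h4 : x = a + (p : A⟦X⟧) * (θ1 * a ^ 2 + (p : A⟦X⟧) * (θ1 ^ 2 * x * a ^ 2)) := by
    linear_combination (1 + (p : A⟦X⟧) * θ1 * a) * h3
  obtain ⟨Z, hZ⟩ := pow_add_expand a ((p : A⟦X⟧) * (θ1 * a ^ 2 + (p : A⟦X⟧) * (θ1 ^ 2 * x * a ^ 2))) i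
  rw [← h4] at hZ
  have e1 : Ei ^ ((i + 1) * p) = a ^ (i + 1) := by rw [ha, ← pow_mul]; congr 1; ring
  have e2 : Ei ^ ((i + 1 + 1) * p) = a ^ i * a ^ 2 := by rw [ha, ← pow_mul, ← pow_mul, ← pow_add]; congr 1; ring
  rw [map_pow, hZ, e1, e2]
  refine ⟨(i + 1) * a ^ i * (θ1 ^ 2 * x * a ^ 2) + (θ1 * a ^ 2 + (p : A⟦X⟧) * (θ1 ^ 2 * x * a ^ 2)) ^ 2 * Z, ?_⟩
  push_cast
  ring

/-- one step of the chain -/
theorem chain_step [IsAddTorsionFree A] (L : LiftData p π φ) (hp0 : p ≠ 0)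
    (E Ei θ1 h h0 : A⟦X⟧) (H0 : A⟦X⟧) (B : A⟦X⟧) (c1 u0 γ0 γ : A)
    (hE : E * Ei = 1) (hθ : E ^ p = Fr p hp0 φ E + (p : A⟦X⟧) * θ1)
    (hch : C c1 * h = (d⁄dX A (X * E)) * h0.subst (X * E))
    (hB : B = X ^ p * θ1 + H0.subst (X * E))
    (i : ℕ) (hi : 1 ≤ i)
    (hBk : π (coeff ((i + 1) * p - 1) (h * B * Ei ^ ((i + 1) * p)))
      = π (φ (coeff (i - 1) (h * d⁄dX A (X * E) * Ei ^ (i + 1))) * (u0 * γ)))
    (hH0 : π (coeff ((i + 1) * p - 1) (h0 * H0)) = π (φ (coeff (i - 1) h0) * (u0 * γ0)))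
    (hS : ∃ z, coeff (i * p - 1) h0 = (i : A) * p * (φ (coeff (i - 1) h0) * (u0 * γ0)) + u0 * φ (coeff (i - 1) h0) + p ^ 2 * z) :
    ∃ z, c1 * coeff (i * p - 1) (h * Fr p hp0 φ (Ei ^ i)) =
      u0 * φ (coeff (i - 1) h0) +
        (i : A) * p * (c1 * (φ (coeff (i - 1) (h * d⁄dX A (X * E) * Ei ^ (i + 1))) * (u0 * γ))) + p ^ 2 * z := by
  have hp : p.Prime := Fact.out
  have hs : HasSubst (X * E : A⟦X⟧) := HasSubst.of_constantCoeff_zero' (by simp)
  obtain ⟨j, rfl⟩ : ∃ j, i = j + 1 := ⟨i - 1, by omega⟩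
  obtain ⟨Z, hZ⟩ := Fr_Ei (φ := φ) hp0 E Ei θ1 hE hθ j
  set D := d⁄dX A (X * E) with hD
  have cast1 : ∀ (x y : A⟦X⟧) (q : ℕ) (n : ℕ), coeff n (x * (q : A⟦X⟧) * y) = q * coeff n (x * y) := by
    intro x y q n
    have : x * (q : A⟦X⟧) * y = (q : A⟦X⟧) * (x * y) := by ring
    rw [this, coeff_nat_mul]
  -- main expansion
  have e1 : c1 * coeff ((j + 1) * p - 1) (h * Fr p hp0 φ (Ei ^ (j + 1))) =
      coeff ((j + 1) * p - 1) (D * h0.subst (X * E) * Ei ^ ((j + 1) * p)) +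
      ((j + 1 : ℕ) : A) * (p * coeff ((j + 1) * p - 1) (D * h0.subst (X * E) * θ1 * Ei ^ ((j + 1 + 1) * p))) +
      p ^ 2 * coeff ((j + 1) * p - 1) (D * h0.subst (X * E) * Z) := by
    rw [← coeff_C_mul, ← mul_assoc, hch, hZ]
    have e2 : D * h0.subst (X * E) * (Ei ^ ((j + 1) * p) +
        ((j + 1 : ℕ) : A⟦X⟧) * (p : A⟦X⟧) * θ1 * Ei ^ ((j + 1 + 1) * p) + (p : A⟦X⟧) ^ 2 * Z)
        = D * h0.subst (X * E) * Ei ^ ((j + 1) * p)
          + ((j + 1 : ℕ) : A⟦X⟧) * ((p : A⟦X⟧) * (D * h0.subst (X * E) * θ1 * Ei ^ ((j + 1 + 1) * p)))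
          + (p : A⟦X⟧) * ((p : A⟦X⟧) * (D * h0.subst (X * E) * Z)) := by ring
    rw [e2, map_add, map_add, coeff_nat_mul, coeff_nat_mul, coeff_nat_mul, coeff_nat_mul]
    ring
  have hjp : 1 ≤ (j + 1) * p := Nat.mul_pos (by omega) hp.pos
  have e3 : coeff ((j + 1) * p - 1) (D * h0.subst (X * E) * Ei ^ ((j + 1) * p)) = coeff ((j + 1) * p - 1) h0 := by
    have := res_subst E Ei hE h0 ((j + 1) * p - 1)
    rw [Nat.sub_add_cancel hjp] at this
    exact this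
  have e4 : coeff ((j + 1) * p - 1) (D * h0.subst (X * E) * θ1 * Ei ^ ((j + 1 + 1) * p))
      = c1 * coeff ((j + 1 + 1) * p - 1) (h * B * Ei ^ ((j + 1 + 1) * p)) - coeff ((j + 1 + 1) * p - 1) (h0 * H0) := by
    have e5 : coeff ((j + 1) * p - 1) (D * h0.subst (X * E) * θ1 * Ei ^ ((j + 1 + 1) * p))
        = coeff ((j + 1 + 1) * p - 1) (X ^ p * (D * h0.subst (X * E) * θ1 * Ei ^ ((j + 1 + 1) * p))) := by
      have : (j + 1 + 1) * p - 1 = ((j + 1) * p - 1) + p := by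
        have : (j + 1 + 1) * p = (j + 1) * p + p := by ring
        omega
      rw [this, coeff_X_pow_mul]
    have e6 : X ^ p * (D * h0.subst (X * E) * θ1 * Ei ^ ((j + 1 + 1) * p))
        = C c1 * (h * B * Ei ^ ((j + 1 + 1) * p)) - D * (h0 * H0).subst (X * E) * Ei ^ ((j + 1 + 1) * p) := by
      rw [subst_mul hs, hB]
      linear_combination (-(X ^ p * θ1 + H0.subst (X * E)) * Ei ^ ((j + 1 + 1) * p)) * hch
    have e7 : coeff ((j + 1 + 1) * p - 1) (D * (h0 * H0).subst (X * E) * Ei ^ ((j + 1 + 1) * p))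
        = coeff ((j + 1 + 1) * p - 1) (h0 * H0) := by
      have := res_subst E Ei hE (h0 * H0) ((j + 1 + 1) * p - 1)
      have h2 : 1 ≤ (j + 1 + 1) * p := Nat.mul_pos (by omega) hp.pos
      rw [Nat.sub_add_cancel h2] at this
      exact this
    rw [e5, e6, map_sub, coeff_C_mul, e7]
  obtain ⟨z1, hz1⟩ := L.ker _ (by rw [map_sub, hBk, sub_self] :
    π (coeff ((j + 1 + 1) * p - 1) (h * B * Ei ^ ((j + 1 + 1) * p)) -
      φ (coeff (j + 1 - 1) (h * D * Ei ^ (j + 1 + 1))) * (u0 * γ)) = 0)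
  obtain ⟨z2, hz2⟩ := L.ker _ (by rw [map_sub, hH0, sub_self] :
    π (coeff ((j + 1 + 1) * p - 1) (h0 * H0) - φ (coeff (j + 1 - 1) h0) * (u0 * γ0)) = 0)
  obtain ⟨z3, hz3⟩ := hS
  rw [e1, e3, e4, hz3]
  refine ⟨z3 + ((j + 1 : ℕ) : A) * (c1 * z1 - z2) + coeff ((j + 1) * p - 1) (D * h0.subst (X * E) * Z), ?_⟩
  linear_combination ((j + 1 : ℕ) : A) * p * c1 * hz1 - ((j + 1 : ℕ) : A) * p * hz2

/-- conclusion of the chain -/
theorem chain_all [IsAddTorsionFree A] (L : LiftData p π φ) (hp0 : p ≠ 0)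
    (E Ei h h0 : A⟦X⟧) (c1 u0 γ : A) (M : ℕ)
    (hE : E * Ei = 1) (hc1 : φ c1 = c1) (hc1u : IsUnit c1)
    (hch : C c1 * h = (d⁄dX A (X * E)) * h0.subst (X * E))
    (hstep : ∀ i, 1 ≤ i → i ≤ M → ∃ z, c1 * coeff (i * p - 1) (h * Fr p hp0 φ (Ei ^ i)) =
      u0 * φ (coeff (i - 1) h0) +
        (i : A) * p * (c1 * (φ (coeff (i - 1) (h * d⁄dX A (X * E) * Ei ^ (i + 1))) * (u0 * γ))) + p ^ 2 * z) :
    ∀ j, 1 ≤ j → j ≤ M → ∃ z, coeff (j * p - 1) h = u0 * (1 + j * p * γ) * φ (coeff (j - 1) h) + p ^ 2 * z := by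
  intro j
  induction j using Nat.strong_induction_on with
  | _ i ih =>
    intro hi hiM
    obtain ⟨z, hz⟩ := hstep i hi hiM
    -- coefficients
    set ν := fun l => coeff l (Ei ^ i) with hν
    have h1 : coeff (i * p - 1) (h * Fr p hp0 φ (Ei ^ i)) =
        ∑ l ∈ Finset.range i, φ (ν l) * coeff ((i - l) * p - 1) h := coeff_mul_Fr p hp0 φ h (Ei ^ i) i (by omega)
    have hconv : ∀ G : A⟦X⟧, coeff (i - 1) (h * G) = ∑ l ∈ Finset.range i, coeff l G * coeff (i - l - 1) h := by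
      intro G
      rw [mul_comm, coeff_mul, Finset.Nat.sum_antidiagonal_eq_sum_range_succ_mk]
      have : (i - 1).succ = i := by omega
      rw [this]
      apply Finset.sum_congr rfl
      intro l hl
      have := Finset.mem_range.1 hl
      simp only
      congr 3; omega
    have h2 : (i : A) * coeff (i - 1) (h * d⁄dX A (X * E) * Ei ^ (i + 1)) =
        ∑ l ∈ Finset.range i, (((i - l : ℕ) : A) * ν l) * coeff (i - l - 1) h := by
      have e1 : (i : A) * coeff (i - 1) (h * d⁄dX A (X * E) * Ei ^ (i + 1)) =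
          coeff (i - 1) (h * ((i : A⟦X⟧) * Ei ^ i - X * d⁄dX A (Ei ^ i))) := by
        rw [← coeff_nat_mul, ← deriv_id E Ei hE i]; congr 1; ring
      rw [e1, hconv]
      apply Finset.sum_congr rfl
      intro l hl
      have hl' := Finset.mem_range.1 hl
      rw [map_sub, coeff_nat_mul, coeff_X_deriv, ← sub_mul, Nat.cast_sub (by omega)]
    have h3 : coeff (i - 1) h0 = c1 * ∑ l ∈ Finset.range i, ν l * coeff (i - l - 1) h := by
      have e1 := res_subst E Ei hE h0 (i - 1)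
      rw [← hch, mul_assoc, coeff_C_mul, Nat.sub_add_cancel hi, hconv] at e1
      exact e1.symm
    -- sum of D
    have h4 : c1 * ∑ l ∈ Finset.range i, φ (ν l) * (coeff ((i - l) * p - 1) h -
        u0 * (1 + ((i - l : ℕ) : A) * p * γ) * φ (coeff (i - l - 1) h)) = p ^ 2 * z := by
      have e1 : c1 * ∑ l ∈ Finset.range i, φ (ν l) * (coeff ((i - l) * p - 1) h -
        u0 * (1 + ((i - l : ℕ) : A) * p * γ) * φ (coeff (i - l - 1) h))
        = c1 * ∑ l ∈ Finset.range i, φ (ν l) * coeff ((i - l) * p - 1) h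
          - u0 * (c1 * ∑ l ∈ Finset.range i, φ (ν l) * φ (coeff (i - l - 1) h))
          - p * (c1 * (∑ l ∈ Finset.range i, (((i - l : ℕ) : A) * φ (ν l)) * φ (coeff (i - l - 1) h)) * (u0 * γ)) := by
        simp only [Finset.mul_sum, Finset.sum_mul]
        rw [← Finset.sum_sub_distrib, ← Finset.sum_sub_distrib]
        apply Finset.sum_congr rfl
        intro l _
        ring
      have e2 : c1 * ∑ l ∈ Finset.range i, φ (ν l) * φ (coeff (i - l - 1) h) = φ (coeff (i - 1) h0) := by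
        rw [h3, map_mul, hc1, map_sum]
        congr 1
        apply Finset.sum_congr rfl
        intro l _
        rw [map_mul]
      have e3 : ∑ l ∈ Finset.range i, (((i - l : ℕ) : A) * φ (ν l)) * φ (coeff (i - l - 1) h)
          = (i : A) * φ (coeff (i - 1) (h * d⁄dX A (X * E) * Ei ^ (i + 1))) := by
        have := congrArg φ h2
        rw [map_mul, map_natCast, map_sum] at this
        rw [this]
        apply Finset.sum_congr rfl
        intro l _
        rw [map_mul, map_mul, map_natCast]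
      rw [e1, e2, e3, ← h1, hz]
      ring
    have hmem : 0 ∈ Finset.range i := Finset.mem_range.2 (by omega)
    rw [← Finset.add_sum_erase _ _ hmem] at h4
    have h5 : ∃ z2, ∑ l ∈ (Finset.range i).erase 0, φ (ν l) * (coeff ((i - l) * p - 1) h -
        u0 * (1 + ((i - l : ℕ) : A) * p * γ) * φ (coeff (i - l - 1) h)) = p ^ 2 * z2 := by
      have : ∀ l ∈ (Finset.range i).erase 0, ∃ t, φ (ν l) * (coeff ((i - l) * p - 1) h -
        u0 * (1 + ((i - l : ℕ) : A) * p * γ) * φ (coeff (i - l - 1) h)) = p ^ 2 * t := by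
        intro l hl
        have hl1 := Finset.mem_range.1 (Finset.mem_of_mem_erase hl)
        have hl2 := Finset.ne_of_mem_erase hl
        obtain ⟨t, ht⟩ := ih (i - l) (by omega) (by omega) (by omega)
        exact ⟨φ (ν l) * t, by rw [ht]; ring⟩
      have h6 : (p : A) ^ 2 ∣ ∑ l ∈ (Finset.range i).erase 0, φ (ν l) * (coeff ((i - l) * p - 1) h -
        u0 * (1 + ((i - l : ℕ) : A) * p * γ) * φ (coeff (i - l - 1) h)) := by
        apply Finset.dvd_sum
        intro l hl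
        obtain ⟨t, ht⟩ := this l hl
        exact ⟨t, ht⟩
      exact h6
    obtain ⟨z2, hz2⟩ := h5
    rw [hz2] at h4
    have hν0 : IsUnit (φ (ν 0)) := by
      apply IsUnit.map
      rw [hν]
      simp only [coeff_zero_eq_constantCoeff, map_pow]
      apply IsUnit.pow
      have := congrArg constantCoeff hE
      rw [map_mul, map_one, mul_comm] at this
      exact IsUnit.of_mul_eq_one _ this
    obtain ⟨w, hw⟩ := (hc1u.mul hν0).exists_right_inv
    simp only [Nat.sub_zero] at h4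
    refine ⟨w * (z - c1 * z2), ?_⟩
    linear_combination w * h4 - (coeff (i * p - 1) h - u0 * (1 + (i : A) * p * γ) * φ (coeff (i - 1) h)) * hw

end Pool.Agent.Lib.MP_748296_nt.H2
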