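import Mathlib

/-! The explicit isogeny data `V^6 - κ U^3 = f W^2` over a ring with `r^2 = 5`. -/

namespace Pool.Agent.Lib.MP_748296_nt.H2

open Polynomial

variable {A : Type} [CommRing A]

theorem poly_nsmul_cancel [IsAddTorsionFree A] (n : ℕ) (hn : n ≠ 0) {x y : A[X]} (h : (n : A[X]) * x = (n : A[X]) * y) :
    x = y := by
  have h0 : (n : A[X]) * (x - y) = 0 := by rw [mul_sub, h, sub_self]
  have h1 : x - y = 0 := by
    ext i
    have h1 := congrArg (fun q => Polynomial.coeff q i) h0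
    simp only [← C_eq_natCast, coeff_C_mul, coeff_zero] at h1
    rw [← nsmul_eq_mul] at h1
    rw [coeff_zero]
    exact (nsmul_eq_zero_iff_right hn).1 h1
  exact sub_eq_zero.1 h1

theorem nsmul_cancel [IsAddTorsionFree A] (n : ℕ) (hn : n ≠ 0) {x y : A} (h : (n : A) * x = (n : A) * y) :
    x = y := by
  have h0 : (n : A) * (x - y) = 0 := by rw [mul_sub, h, sub_self]
  rw [← nsmul_eq_mul] at h0
  exact sub_eq_zero.1 ((nsmul_eq_zero_iff_right hn).1 h0)

noncomputable def V1 (R : A[X]) : A[X] := 8 - 20 * X + (5 + 3 * R) * X ^ 2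
noncomputable def U1 (R : A[X]) : A[X] := 800 * X - 2800 * X ^ 2 + (2400 + 600 * R) * X ^ 3 - (1150 + 510 * R) * X ^ 4
  + (275 + 123 * R) * X ^ 5
noncomputable def W1 (R : A[X]) : A[X] := 320 - 1440 * X + (2280 + 360 * R) * X ^ 2 - (2840 + 576 * R) * X ^ 3
  + (1800 + 756 * R) * X ^ 4 - (825 + 369 * R) * X ^ 5 + (161 + 72 * R) * X ^ 6
noncomputable def f1 (R : A[X]) : A[X] := 10 - 60 * X + 90 * X ^ 2 - (20 + 9 * R) * X ^ 3

theorem id1 (R : A[X]) (hR : R ^ 2 = 5) : 625 * V1 R ^ 6 - 4 * U1 R ^ 3 = 160 * f1 R * W1 R ^ 2 := by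
  unfold V1 U1 W1 f1
  linear_combination ((138240000)*X^4 + (-1216512000)*X^5 + (4550860800)*X^6 + (172800000)*R^1*X^6 + (-9470822400)*X^7 + (-1109376000)*R^1*X^7 + (11990376000)*X^8 + (2966803200)*R^1*X^8 + (48600000)*R^2*X^8 + (-10210708800)*X^9 + (-3922421760)*R^1*X^9 + (-243000000)*R^2*X^9 + (6693429600)*X^10 + (2830457520)*R^1*X^10 + (364500000)*R^2*X^10 + (7290000)*R^3*X^10 + (-3372769800)*X^11 + (-1491666840)*R^1*X^11 + (-151875000)*R^2*X^11 + (-18225000)*R^3*X^11 + (1263804795)*X^12 + (576029070)*R^1*X^12 + (21262500)*R^2*X^12 + (4556250)*R^3*X^12 + (455625)*R^4*X^12 + (-312934320)*X^13 + (-140000400)*R^1*X^13 + (35943480)*X^14 + (16073640)*R^1*X^14 + (48060)*X^15 + (21492)*R^1*X^15) * hR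

theorem id3 (R : A[X]) (hR : R ^ 2 = 5) :
    ((-26000 - 10400 * R) + (43600 + 19600 * R) * X) * U1 R + 40 * (432 + (66080 + 26000 * R) * X
      - (171570 + 75162 * R) * X ^ 2 + (155025 + 69315 * R) * X ^ 3 - (51340 + 22960 * R) * X ^ 4) * V1 R = 138240 := by
  unfold V1 U1
  linear_combination ((-3120000)*X^3 + (8044560)*X^4 + (-2957400)*X^5 + (-344400)*X^6) * hR

theorem derV1 (r : A) : derivative (V1 (C r)) = - 20 + 2 * (5 + 3 * C r) * X := by
  unfold V1
  simp only [derivative_add, derivative_sub, derivative_mul, derivative_ofNat, derivative_C, derivative_X,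
    derivative_X_pow, zero_mul, mul_zero, add_zero, mul_one, Nat.cast_ofNat, map_ofNat]
  norm_num
  ring

theorem derU1 (r : A) : derivative (U1 (C r)) = 800 - 5600 * X + 3 * (2400 + 600 * C r) * X ^ 2
    - 4 * (1150 + 510 * C r) * X ^ 3 + 5 * (275 + 123 * C r) * X ^ 4 := by
  unfold U1
  simp only [derivative_add, derivative_sub, derivative_mul, derivative_ofNat, derivative_C, derivative_X,
    derivative_X_pow, zero_mul, mul_zero, add_zero, mul_one, Nat.cast_ofNat, map_ofNat]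
  norm_num
  ring

theorem id2 (r : A) (hr : r ^ 2 = 5) : derivative (U1 (C r)) * V1 (C r) - 2 * U1 (C r) * derivative (V1 (C r))
    = 20 * W1 (C r) := by
  have hR : (C r : A[X]) ^ 2 = 5 := by rw [← C_pow, hr, map_ofNat]
  rw [derV1, derU1]
  unfold V1 U1 W1
  linear_combination ((-1800)*X^4 + (369)*X^6) * hR

theorem coeffsV1 (r : A) : (V1 (C r)).coeff 0 = 8 ∧ (V1 (C r)).natDegree ≤ 2 := by
  have e : V1 (C r) = C 8 - C 20 * X + C (5 + 3 * r) * X ^ 2 := by
    unfold V1; simp only [map_ofNat, map_add, map_mul]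
  rw [e]
  constructor
  · simp
  · compute_degree

theorem coeffsU1 (r : A) : (U1 (C r)).coeff 0 = 0 ∧ (U1 (C r)).coeff 1 = 800 ∧ (U1 (C r)).natDegree ≤ 5 := by
  have e : U1 (C r) = C 800 * X - C 2800 * X ^ 2 + C (2400 + 600 * r) * X ^ 3 - C (1150 + 510 * r) * X ^ 4
      + C (275 + 123 * r) * X ^ 5 := by
    unfold U1; simp only [map_ofNat, map_add, map_mul]
  rw [e]
  refine ⟨?_, ?_, ?_⟩
  · simp
  · simp only [coeff_add, coeff_sub, coeff_C_mul, coeff_X_pow, coeff_X_one]; norm_num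
  · compute_degree

theorem coeffsW1 (r : A) : (W1 (C r)).coeff 0 = 320 ∧ (W1 (C r)).coeff 6 = 161 + 72 * r ∧ (W1 (C r)).natDegree ≤ 6 := by
  have e : W1 (C r) = C 320 - C 1440 * X + C (2280 + 360 * r) * X ^ 2 - C (2840 + 576 * r) * X ^ 3
      + C (1800 + 756 * r) * X ^ 4 - C (825 + 369 * r) * X ^ 5 + C (161 + 72 * r) * X ^ 6 := by
    unfold W1; simp only [map_ofNat, map_add, map_mul]
  rw [e]
  refine ⟨?_, ?_, ?_⟩
  · simp
  · simp only [coeff_add, coeff_sub, coeff_C_mul, coeff_X_pow, coeff_C, coeff_X]; norm_num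
  · compute_degree

theorem curve [IsAddTorsionFree A] (r i2 i5 : A) (hr : r ^ 2 = 5) (h2 : 2 * i2 = 1) (h5 : 5 * i5 = 1)
    (h3u : IsUnit (3 : A)) :
    ∃ U V W : A[X],
      V ^ 6 - C (4 * i5) * U ^ 3 = ((1 - 3 * X) ^ 2 - 4 * C (i2 ^ 3 * i5 * (20 + 9 * r)) * X ^ 3) * W ^ 2 ∧
      derivative U * V - 2 * U * derivative V = C (5 * i2) * W ∧
      U.coeff 0 = 0 ∧ V.coeff 0 = 1 ∧ W.coeff 0 = 1 ∧ U.coeff 1 = 5 * i2 ∧ IsUnit (W.coeff 6) ∧
      W.natDegree ≤ 6 ∧ U.natDegree ≤ 5 ∧ V.natDegree ≤ 2 ∧ IsCoprime U V := by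
  have hR : (C r : A[X]) ^ 2 = 5 := by rw [← C_pow, hr, map_ofNat]
  have e8 : (8 : A) * i2 ^ 3 = 1 := by linear_combination (4 * i2 ^ 2 + 2 * i2 + 1) * h2
  have e64 : (64 : A) * i2 ^ 6 = 1 := by linear_combination (8 * i2 ^ 3 + 1) * e8
  have e320 : (320 : A) * (i2 ^ 6 * i5) = 1 := by linear_combination (5 * i5) * e64 + h5
  have E8 : (8 : A[X]) * C (i2 ^ 3) = 1 := by
    have := congrArg (C : A →+* A[X]) e8
    simpa only [map_mul, map_ofNat, map_one] using this
  have E320 : (320 : A[X]) * C (i2 ^ 6 * i5) = 1 := by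
    have := congrArg (C : A →+* A[X]) e320
    rw [map_mul, map_ofNat, map_one] at this; exact this
  have E5 : (5 : A[X]) * C i5 = 1 := by
    have := congrArg (C : A →+* A[X]) h5
    rw [map_mul, map_ofNat, map_one] at this; exact this
  have E2 : (2 : A[X]) * C i2 = 1 := by
    have := congrArg (C : A →+* A[X]) h2
    rw [map_mul, map_ofNat, map_one] at this; exact this
  set V := C (i2 ^ 3) * V1 (C r) with hVd
  set U := C (i2 ^ 6 * i5) * U1 (C r) with hUd
  set W := C (i2 ^ 6 * i5) * W1 (C r) with hWd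
  have hV : 8 * V = V1 (C r) := by rw [hVd]; linear_combination (V1 (C r)) * E8
  have hU : 320 * U = U1 (C r) := by rw [hUd]; linear_combination (U1 (C r)) * E320
  have hW : 320 * W = W1 (C r) := by rw [hWd]; linear_combination (W1 (C r)) * E320
  have hf : 10 * ((1 - 3 * X) ^ 2 - 4 * C (i2 ^ 3 * i5 * (20 + 9 * r)) * X ^ 3) = f1 (C r) := by
    have : 40 * C (i2 ^ 3 * i5 * (20 + 9 * r)) = 20 + 9 * C r := by
      simp only [map_mul, map_add, map_ofNat]
      linear_combination ((20 + 9 * C r) * 5 * C i5) * E8 + (20 + 9 * C r) * E5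
    unfold f1
    linear_combination (-X ^ 3) * this
  have hκ : 5 * C (4 * i5) = (4 : A[X]) := by
    rw [map_mul, map_ofNat]; linear_combination 4 * E5
  refine ⟨U, V, W, ?_, ?_, ?_, ?_, ?_, ?_, ?_, ?_, ?_, ?_, ?_⟩
  · apply poly_nsmul_cancel 163840000 (by norm_num)
    have h1 := id1 (C r) hR
    rw [← hV, ← hU, ← hW, ← hf] at h1
    push_cast
    linear_combination h1 - (32768000 * U ^ 3) * hκ
  · apply poly_nsmul_cancel 2560 (by norm_num)
    have h1 := id2 r hr
    rw [← hV, ← hU, ← hW] at h1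
    have h6 : derivative (320 * U) = 320 * derivative U := by
      rw [derivative_mul, derivative_ofNat]; ring
    have h7 : derivative (8 * V) = 8 * derivative V := by
      rw [derivative_mul, derivative_ofNat]; ring
    rw [h6, h7] at h1
    have h8 : C (5 * i2) * (2 : A[X]) = 5 := by
      rw [map_mul, map_ofNat]; linear_combination 5 * E2
    push_cast
    linear_combination h1 - (1280 * W) * h8
  · rw [hUd, coeff_C_mul, (coeffsU1 r).1, mul_zero]
  · rw [hVd, coeff_C_mul, (coeffsV1 r).1]; linear_combination e8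
  · rw [hWd, coeff_C_mul, (coeffsW1 r).1]; linear_combination e320
  · rw [hUd, coeff_C_mul, (coeffsU1 r).2.1]
    apply nsmul_cancel 320 (by norm_num)
    push_cast
    linear_combination 800 * e320 - 800 * h2
  · rw [hWd, coeff_C_mul, (coeffsW1 r).2.1]
    apply IsUnit.mul
    · exact IsUnit.of_mul_eq_one_right _ e320
    · exact IsUnit.of_mul_eq_one (161 - 72 * r) (by linear_combination (-5184) * hr)
  · exact (natDegree_C_mul_le _ _).trans (coeffsW1 r).2.2
  · exact (natDegree_C_mul_le _ _).trans (coeffsU1 r).2.2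
  · exact (natDegree_C_mul_le _ _).trans (coeffsV1 r).2
  · have h1 := id3 (C r) hR
    rw [← hV, ← hU] at h1
    obtain ⟨i3, hi3⟩ := h3u.exists_right_inv
    have e1 : (432 : A) * (i2 ^ 4 * i3 ^ 3) = 1 := by
      have : (2 * i2) ^ 4 * (3 * i3) ^ 3 = 1 := by rw [h2, hi3]; norm_num
      linear_combination this
    have E1 : (432 : A[X]) * C (i2 ^ 4 * i3 ^ 3) = 1 := by
      have := congrArg (C : A →+* A[X]) e1
      rw [map_mul, map_ofNat, map_one] at this; exact this
    have h9 : (320 : A[X]) * ((-26000 - 10400 * C r + (43600 + 19600 * C r) * X) * U +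
        (432 + (66080 + 26000 * C r) * X - (171570 + 75162 * C r) * X ^ 2 + (155025 + 69315 * C r) * X ^ 3
          - (51340 + 22960 * C r) * X ^ 4) * V) = 320 * 432 := by
      linear_combination h1
    have h10 := poly_nsmul_cancel 320 (by norm_num) (by push_cast; exact h9)
    refine ⟨C (i2 ^ 4 * i3 ^ 3) * (-26000 - 10400 * C r + (43600 + 19600 * C r) * X),
      C (i2 ^ 4 * i3 ^ 3) * (432 + (66080 + 26000 * C r) * X - (171570 + 75162 * C r) * X ^ 2 + (155025 + 69315 * C r) * X ^ 3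
          - (51340 + 22960 * C r) * X ^ 4), ?_⟩
    linear_combination C (i2 ^ 4 * i3 ^ 3) * h10 + E1

end Pool.Agent.Lib.MP_748296_nt.H2
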