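import Pool.Agent.Lib.MP_748296_nt.H2.EStruct

/-! The structure theorem in characteristic `p = 6m+1`. -/

namespace Pool.Agent.Lib.MP_748296_nt.H2

open Polynomial

variable {k : Type} [CommRing k]

theorem reg_of_coeff_zero (W : k[X]) (h : W.coeff 0 = 1) (Q : k[X]) (hQ : W * Q = 0) : Q = 0 := by
  have h1 : IsUnit (W : PowerSeries k) := by
    rw [PowerSeries.isUnit_iff_constantCoeff]
    simp [h]
  have h2 : (W : PowerSeries k) * (Q : PowerSeries k) = 0 := by
    rw [← Polynomial.coe_mul, hQ, Polynomial.coe_zero]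
  have h3 : (Q : PowerSeries k) = 0 := (h1.mul_right_eq_zero).1 h2
  exact Polynomial.coe_eq_zero_iff.1 h3

theorem reg_pow (W : k[X]) (h : W.coeff 0 = 1) (n : ℕ) (Q : k[X]) (hQ : W ^ n * Q = 0) : Q = 0 := by
  apply reg_of_coeff_zero (W ^ n) _ Q hQ
  rw [coeff_zero_eq_eval_zero] at h ⊢
  rw [eval_pow, h, one_pow]

theorem E1 (p m : ℕ) [Fact p.Prime] [CharP k p] (hpm : p = 6 * m + 1) (U V W f α δ : k[X]) (h : ℕ → k)
    (c1 κ ui : k)
    (hα : derivative α = U ^ (p - 1) * derivative U - X ^ (p - 1) * (derivative U) ^ p)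
    (hδ : derivative δ = V ^ (p - 1) * derivative V - X ^ (p - 1) * (derivative V) ^ p)
    (hI1 : V ^ 6 - C κ * U ^ 3 = f * W ^ 2)
    (hI2 : derivative U * V - 2 * U * derivative V = C c1 * W)
    (hh : ∀ j ∈ Finset.range (3 * m + 1), j ≠ 2 * m →
      h j * (3 * (j : k) + 1) = ui * (Nat.choose (3 * m) j : k) * (-κ) ^ j)
    (hn : ui * (Nat.choose (3 * m) (2 * m) : k) * (-κ) ^ (2 * m) = 1)
    (hc1 : c1 ^ p = c1) (hc1u : IsUnit c1)
    (hWN : W ∣ α * V ^ p - 2 * U ^ p * δ + Ssum U V (fun j => C (h j)) m)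
    (hW0 : W.coeff 0 = 1) (hU0 : U.coeff 0 = 0) (hα0 : α.coeff 0 = 0) (hW6 : IsUnit (W.coeff 6))
    (dW : W.natDegree ≤ 6) (dU : U.natDegree ≤ 5) (dV : V.natDegree ≤ 2) (df : f.natDegree ≤ 3)
    (dα : α.natDegree ≤ 5 * p) (dδ : δ.natDegree ≤ 2 * p)
    (hcop : IsCoprime W (derivative W)) :
    ∃ (K : k[X]) (γ : k), derivative K = C ui * f ^ (3 * m) - X ^ (p - 1) ∧
      (∀ n, p ∣ n → K.coeff n = 0) ∧
      α * V ^ p - 2 * U ^ p * δ + Ssum U V (fun j => C (h j)) m = C c1 * W ^ p * (K + C γ * X ^ p) := by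
  have hp : p.Prime := Fact.out
  have hm : 1 ≤ m := by
    rcases Nat.eq_zero_or_pos m with rfl | h0
    · exfalso; rw [hpm] at hp; exact absurd hp (by norm_num)
    · exact h0
  have dpow : ∀ (P : k[X]) (d n : ℕ), P.natDegree ≤ d → (P ^ n).natDegree ≤ n * d := by
    intro P d n hd
    exact natDegree_pow_le.trans (Nat.mul_le_mul_left n hd)
  have : CharP k[X] p := inferInstance
  have hder : ∀ P : k[X], derivative (P ^ p) = 0 := by
    intro P
    rw [derivative_pow, CharP.cast_eq_zero k p]; simp
  set NB := α * V ^ p - 2 * U ^ p * δ + Ssum U V (fun j => C (h j)) m with hNB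
  -- derivative of NB
  have hNBd : derivative NB = C c1 * W ^ p * (C ui * f ^ (3 * m) - X ^ (p - 1)) := by
    have e1 : derivative NB = derivative α * V ^ p - 2 * U ^ p * derivative δ
        + derivative (Ssum U V (fun j => C (h j)) m) := by
      rw [hNB, derivative_add, derivative_sub, derivative_mul, derivative_mul, derivative_mul, hder, hder]
      have : derivative (2 : k[X]) = 0 := by
        have : (2 : k[X]) = C (2 : k) := (map_ofNat C 2).symm
        rw [this, derivative_C]
      rw [this]; ring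
    rw [e1, Ssum_deriv p m hpm U V W h c1 κ ui hI2 hh hn, hα, hδ, hI1]
    have e2 : (derivative U) ^ p * V ^ p - 2 * U ^ p * (derivative V) ^ p = C c1 * W ^ p := by
      have e3 : (derivative U * V - 2 * U * derivative V) ^ p = (C c1 * W) ^ p := by rw [hI2]
      rw [sub_pow_char, mul_pow, mul_pow, mul_pow, mul_pow, ← C_pow, hc1] at e3
      have e4 : (2 : k[X]) ^ p = 2 := by
        have h2 : ((2 : ZMod p)) ^ p = 2 := ZMod.pow_card 2
        have h3 := congrArg (ZMod.castHom (dvd_refl p) k[X]) h2
        rw [map_pow, map_ofNat] at h3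
        exact h3
      rw [e4] at e3
      exact e3
    have hp1 : p - 1 = 6 * m := by omega
    have e5 : V ^ p = V ^ (6 * m) * V := by rw [hpm, pow_succ]
    have e6 : U ^ p = U ^ (6 * m) * U := by rw [hpm, pow_succ]
    have e7 : W ^ p = W ^ (6 * m) * W := by rw [hpm, pow_succ]
    have e8 : (f * W ^ 2) ^ (3 * m) = f ^ (3 * m) * W ^ (6 * m) := by
      rw [mul_pow, ← pow_mul]; congr 2; ring
    rw [e8, hp1]
    have e9 : C c1 * W ^ p * (C ui * f ^ (3 * m) - X ^ (6 * m)) =
        C c1 * W ^ p * (C ui * f ^ (3 * m)) - X ^ (6 * m) * (C c1 * W ^ p) := by ring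
    rw [e9, ← e2]
    rw [e2, e7]
    have e10 : (U ^ (6 * m) * derivative U - X ^ (6 * m) * derivative U ^ p) * V ^ p -
        2 * U ^ p * (V ^ (6 * m) * derivative V - X ^ (6 * m) * derivative V ^ p)
        = U ^ (6 * m) * derivative U * V ^ p - 2 * U ^ p * (V ^ (6 * m) * derivative V)
          - X ^ (6 * m) * ((derivative U) ^ p * V ^ p - 2 * U ^ p * (derivative V) ^ p) := by ring
    rw [e10, e2, e5, e6, e7]
    linear_combination (U ^ (6 * m) * V ^ (6 * m)) * hI2
  -- coefficient of P_E at p-1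
  have hWp0 : ∀ n, ¬ p ∣ n → (W ^ p).coeff n = 0 := fun n hn => coeff_of_deriv_zero p _ (hder W) n hn
  have hPE : ∀ n, p ∣ n + 1 → (C ui * f ^ (3 * m) - X ^ (p - 1)).coeff n = 0 := by
    intro n hn
    obtain ⟨l, hl⟩ := hn
    have hl0 : l ≠ 0 := by rintro rfl; omega
    by_cases hl1 : l = 1
    · have hn' : n = p - 1 := by rw [hl1, mul_one] at hl; omega
      have h1 : (derivative NB).coeff n = 0 := coeff_deriv_dvd p _ _ ⟨l, hl⟩
      rw [hNBd, mul_assoc, coeff_C_mul] at h1
      have h2 := (hc1u.mul_right_eq_zero).1 h1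
      rw [coeff_mul, Finset.Nat.sum_antidiagonal_eq_sum_range_succ_mk,
        Finset.sum_eq_single 0] at h2
      · have h3 : (W ^ p).coeff 0 = 1 := by
          rw [coeff_zero_eq_eval_zero] at hW0 ⊢; rw [eval_pow, hW0, one_pow]
        simpa [h3] using h2
      · intro b hb hb0
        have := Finset.mem_range.1 hb
        rw [hWp0 b (fun hd => by have := Nat.le_of_dvd (by omega) hd; omega), zero_mul]
      · intro h; exact absurd (Finset.mem_range.2 (by omega)) h
    · have h2 : 2 * p ≤ n + 1 := by rw [hl, mul_comm 2 p]; exact Nat.mul_le_mul_left p (by omega)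
      apply coeff_eq_zero_of_natDegree_lt
      refine lt_of_le_of_lt (natDegree_sub_le_of_le (m := 9 * m) (n := 9 * m) ((natDegree_C_mul_le _ _).trans ?_) ((natDegree_X_pow_le _).trans ?_)) ?_
      · exact (dpow f 3 (3 * m) df).trans (by omega)
      · omega
      · simp only [max_self]; omega
  obtain ⟨K, hKd, hKc, hKdeg⟩ := exists_antideriv p _ hPE
  have hKdeg' : K.natDegree ≤ 9 * m + 1 := by
    refine hKdeg.trans (Nat.add_le_add_right ?_ 1)
    refine (natDegree_sub_le_of_le (m := 9 * m) (n := 9 * m) ((natDegree_C_mul_le _ _).trans ?_) ((natDegree_X_pow_le _).trans ?_)).trans (by simp)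
    · exact (dpow f 3 (3 * m) df).trans (by omega)
    · omega
  -- G
  set G := NB - C c1 * W ^ p * K with hG
  have hGd : derivative G = 0 := by
    rw [hG, derivative_sub, hNBd, derivative_mul, hKd, derivative_mul, hder, derivative_C]; ring
  have hWG : W ∣ G := by
    rw [hG]
    refine dvd_sub hWN ?_
    exact Dvd.dvd.mul_right (Dvd.dvd.mul_left (dvd_pow_self W hp.ne_zero) _) _
  obtain ⟨Γ, hΓ⟩ := pow_dvd_of_dvd p W G (reg_of_coeff_zero W hW0) hcop hGd hWG
  have hΓd : derivative Γ = 0 := by
    apply reg_pow W hW0 p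
    have := hGd
    rw [hΓ, derivative_mul, hder, zero_mul, zero_add] at this
    exact this
  -- degrees
  have dS : (Ssum U V (fun j => C (h j)) m).natDegree ≤ 45 * m + 7 := by
    unfold Ssum
    apply natDegree_sum_le_of_forall_le
    intro j hj
    have hj' := Finset.mem_range.1 hj
    refine natDegree_mul_le.trans ?_
    have h1 : ((fun j => C (h j)) j * U ^ (3 * j + 1)).natDegree ≤ (3 * j + 1) * 5 :=
      (natDegree_C_mul_le _ _).trans (dpow U 5 _ dU)
    have h2 : (V ^ (6 * (3 * m - j) + 1)).natDegree ≤ (6 * (3 * m - j) + 1) * 2 := dpow V 2 _ dV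
    omega
  have dNB : NB.natDegree ≤ 45 * m + 7 := by
    rw [hNB]
    refine natDegree_add_le_of_degree_le ?_ dS
    refine (natDegree_sub_le_of_le (m := 45 * m + 7) (n := 45 * m + 7) ?_ ?_).trans (by simp)
    · refine natDegree_mul_le.trans ?_
      have h2 : (V ^ p).natDegree ≤ p * 2 := dpow V 2 _ dV
      omega
    · refine natDegree_mul_le.trans ?_
      have h1 : (2 * U ^ p).natDegree ≤ p * 5 := by
        have : (2 : k[X]) = C (2 : k) := (map_ofNat C 2).symm
        rw [this]
        exact (natDegree_C_mul_le _ _).trans (dpow U 5 _ dU)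
      omega
  have dG : G.natDegree ≤ 45 * m + 7 := by
    rw [hG]
    refine (natDegree_sub_le_of_le (m := 45 * m + 7) (n := 45 * m + 7) dNB ?_).trans (by simp)
    refine natDegree_mul_le.trans ?_
    have h1 : (C c1 * W ^ p).natDegree ≤ p * 6 := (natDegree_C_mul_le _ _).trans (dpow W 6 _ dW)
    omega
  have dΓ : Γ.natDegree ≤ 9 * m + 1 := by
    by_cases h0 : Γ = 0
    · rw [h0]; simp
    have hlead : IsUnit W.leadingCoeff ∨ Subsingleton k := by
      by_cases hs : Subsingleton k
      · exact Or.inr hs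
      left
      have : Nontrivial k := not_subsingleton_iff_nontrivial.1 hs
      have hd : W.natDegree = 6 := le_antisymm dW (le_natDegree_of_ne_zero hW6.ne_zero)
      rw [leadingCoeff, hd]; exact hW6
    rcases hlead with hl | hs
    · have hd : W.natDegree = 6 ∨ Subsingleton k := by
        by_cases hs : Subsingleton k
        · exact Or.inr hs
        left
        have : Nontrivial k := not_subsingleton_iff_nontrivial.1 hs
        exact le_antisymm dW (le_natDegree_of_ne_zero hW6.ne_zero)
      rcases hd with hd | hs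
      · have hlp : IsUnit (W.leadingCoeff ^ p) := hl.pow p
        have hWpd : (W ^ p).natDegree = p * 6 := by
          rw [natDegree_pow', hd]
          exact fun h => by
            rw [h] at hlp
            have := isUnit_zero_iff.1 hlp
            exact h0 (Polynomial.ext fun n => by
              have : ∀ x : k, x = 0 := fun x => by rw [← one_mul x, ← isUnit_zero_iff.1 hlp, zero_mul]
              rw [this (Γ.coeff n), coeff_zero])
        have hWpl : (W ^ p).leadingCoeff = W.leadingCoeff ^ p := by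
          apply leadingCoeff_pow'
          intro h
          rw [h] at hlp
          exact h0 (Polynomial.ext fun n => by
              have : ∀ x : k, x = 0 := fun x => by rw [← one_mul x, ← isUnit_zero_iff.1 hlp, zero_mul]
              rw [this (Γ.coeff n), coeff_zero])
        have h1 : (W ^ p * Γ).natDegree = p * 6 + Γ.natDegree := by
          rw [natDegree_mul', hWpd]
          rw [hWpl]
          intro h
          exact h0 (leadingCoeff_eq_zero.1 ((hlp.mul_right_eq_zero).1 h))
        rw [← hΓ] at h1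
        omega
      · exact absurd (Subsingleton.elim _ _) h0
    · exact absurd (Subsingleton.elim _ _) h0
  have hΓ0 : Γ.coeff 0 = 0 := by
    have h1 : G.coeff 0 = 0 := by
      rw [hG, coeff_sub, hNB]
      have hK0 : K.coeff 0 = 0 := hKc 0 (dvd_zero p)
      rw [coeff_zero_eq_eval_zero] at hU0 hα0 hK0
      simp only [coeff_zero_eq_eval_zero, eval_add, eval_sub, eval_mul, eval_pow, hU0, hα0, hK0, mul_zero, zero_mul,
        sub_zero, zero_pow hp.ne_zero, zero_add]
      unfold Ssum
      rw [eval_finsetSum]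
      apply Finset.sum_eq_zero
      intro j _
      simp [hU0]
    rw [hΓ, coeff_zero_eq_eval_zero, eval_mul, eval_pow] at h1
    rw [coeff_zero_eq_eval_zero] at hW0 ⊢
    rw [hW0, one_pow, one_mul] at h1; exact h1
  have hΓX : Γ = C (Γ.coeff p) * X ^ p := by
    ext n
    rw [coeff_C_mul, coeff_X_pow]
    by_cases hnp : n = p
    · rw [hnp]; simp
    rw [if_neg hnp, mul_zero]
    by_cases hd : p ∣ n
    · obtain ⟨l, rfl⟩ := hd
      rcases Nat.lt_or_ge l 1 with h1 | h1
      · have : l = 0 := by omega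
        subst this; simpa using hΓ0
      · have h2 : 2 ≤ l := by
          rcases Nat.lt_or_ge l 2 with h3 | h3
          · exact absurd (by have : l = 1 := by omega
                             rw [this, mul_one]) hnp
          · exact h3
        apply coeff_eq_zero_of_natDegree_lt
        refine lt_of_le_of_lt dΓ ?_
        have : p * 2 ≤ p * l := Nat.mul_le_mul_left p h2
        omega
    · exact coeff_of_deriv_zero p Γ hΓd n hd
  obtain ⟨ci, hci⟩ := hc1u.exists_right_inv
  refine ⟨K, ci * Γ.coeff p, hKd, hKc, ?_⟩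
  have e1 : NB = G + C c1 * W ^ p * K := by rw [hG]; ring
  have e2 : C c1 * C (ci * Γ.coeff p) = (C (Γ.coeff p) : k[X]) := by
    rw [← C_mul, ← mul_assoc, hci, one_mul]
  rw [e1, hΓ]
  conv_lhs => rw [hΓX]
  linear_combination (-(W ^ p * X ^ p)) * e2
end Pool.Agent.Lib.MP_748296_nt.H2
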