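import Pool.Agent.Lib.MP_748296_nt.H2.Lift
import Pool.Agent.Lib.MP_748296_nt.H2.E1

/-! `W ∣ N_B` in characteristic `p`. -/

namespace Pool.Agent.Lib.MP_748296_nt.H2

open Polynomial

theorem e2_alg {Q : Type} [CommRing Q] (m p : ℕ) (hpm : p = 6 * m + 1) (u v α δ κ qκ γ0 ui : Q)
    (h s : ℕ → Q) (h1 : v ^ 6 = κ * u ^ 3) (hκp : κ ^ p = κ) (hu : IsUnit u) (hκ : IsUnit κ)
    (h3 : IsUnit (3 : Q))
    (hR : κ * qκ * u ^ (3 * p) - 6 * v ^ (5 * p) * δ + 3 * κ * u ^ (2 * p) * α = 0)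
    (hh : ∀ j ∈ Finset.range (3 * m + 1), j ≠ 2 * m → h j = ui * s j * κ ^ j) (hh0 : h (2 * m) = γ0)
    (hbr : -qκ + 3 * (κ ^ (2 * m) * ui * ∑ j ∈ (Finset.range (3 * m + 1)).erase (2 * m), s j + γ0) = 0) :
    α * v ^ p - 2 * u ^ p * δ + Ssum u v h m = 0 := by
  have hS : Ssum u v h m = u ^ p * v ^ p * (κ ^ (2 * m) * ui * ∑ j ∈ (Finset.range (3 * m + 1)).erase (2 * m), s j + γ0) := by
    unfold Ssum
    have hmem : 2 * m ∈ Finset.range (3 * m + 1) := Finset.mem_range.2 (by omega)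
    have huv : u ^ p * v ^ p = u ^ (9 * m + 1) * v * κ ^ m := by
      have e1 : v ^ p = (v ^ 6) ^ m * v := by rw [hpm, ← pow_mul, pow_succ]
      rw [e1, h1, hpm, mul_pow, ← pow_mul]
      have : u ^ (9 * m + 1) = u ^ (6 * m + 1) * u ^ (3 * m) := by rw [← pow_add]; congr 1; omega
      rw [this]; ring
    rw [← Finset.add_sum_erase _ _ hmem, huv, mul_add, add_comm, Finset.mul_sum, Finset.mul_sum]
    congr 1
    · apply Finset.sum_congr rfl
      intro j hj
      have hj1 := Finset.mem_range.1 (Finset.mem_of_mem_erase hj)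
      have hj2 := Finset.ne_of_mem_erase hj
      rw [hh j (Finset.mem_of_mem_erase hj) hj2]
      obtain ⟨l, hl⟩ : ∃ l, 3 * m = j + l := ⟨3 * m - j, by omega⟩
      have e1 : 3 * m - j = l := by omega
      rw [e1, pow_succ v, pow_mul v, h1, mul_pow, ← pow_mul]
      have e2 : u ^ (9 * m + 1) = u ^ (3 * j + 1) * u ^ (3 * l) := by rw [← pow_add]; congr 1; omega
      have e3 : κ ^ m * κ ^ (2 * m) = κ ^ j * κ ^ l := by rw [← pow_add, ← pow_add]; congr 1; omega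
      rw [e2]
      linear_combination (-(u ^ (3 * j + 1) * u ^ (3 * l) * v * ui * s j)) * e3
    · rw [hh0]
      have e1 : 3 * m - 2 * m = m := by omega
      have e2 : u ^ (3 * (2 * m) + 1) = u ^ (6 * m + 1) := by congr 1; ring
      rw [e1, e2, pow_succ v, pow_mul v, h1, mul_pow, ← pow_mul]
      have e3 : u ^ (9 * m + 1) = u ^ (6 * m + 1) * u ^ (3 * m) := by rw [← pow_add]; congr 1; omega
      rw [e3]; ring
  have hv6 : v ^ (5 * p) * v ^ p = κ * u ^ (3 * p) := by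
    have : v ^ (5 * p) * v ^ p = (v ^ 6) ^ p := by rw [← pow_add, ← pow_mul]; congr 1; ring
    rw [this, h1, mul_pow, hκp, ← pow_mul]
  have hun : IsUnit (3 * κ * u ^ (2 * p)) := (h3.mul hκ).mul (hu.pow _)
  apply (hun.mul_right_eq_zero).1
  rw [hS]
  have e3 : u ^ (3 * p) = u ^ (2 * p) * u ^ p := by rw [← pow_add]; congr 1; ring
  rw [e3] at hR hv6
  linear_combination (v ^ p) * hR + 6 * δ * hv6 + (κ * u ^ (2 * p) * u ^ p * v ^ p) * hbr

variable {A k : Type} [CommRing A] [IsAddTorsionFree A] [CommRing k] {p : ℕ} [Fact p.Prime] [CharP k p]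
  {π : A →+* k} {φ : A →+* A}

/-- the relation between the Frobenius defects, modulo `W` -/
theorem relR (L : LiftData p π φ) (U V W f α δ μ : A[X]) (κ qκ : A)
    (hI1 : V ^ 6 - C κ * U ^ 3 = f * W ^ 2) (hκ : φ κ = κ) (hq : κ ^ p - κ = p * (κ * qκ))
    (hα : U ^ p = FrP p φ U + (p : A[X]) * α) (hδ : V ^ p = FrP p φ V + (p : A[X]) * δ)
    (hμ : W ^ p = FrP p φ W + (p : A[X]) * μ) (hW0 : W.coeff 0 = 1) :
    W.map π ∣ (C (κ * qκ) * U ^ (3 * p) - 6 * V ^ (5 * p) * δ + 3 * C κ * U ^ (2 * p) * α).map π := by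
  have hp : p.Prime := Fact.out
  have hFκ : FrP p φ (C κ) = C κ := by
    rw [FrP_apply, Polynomial.map_C, hκ, Polynomial.expand_C]
  have h1 := congrArg (FrP p φ) hI1
  rw [map_sub, map_pow, map_mul, map_pow, map_mul, map_pow, hFκ] at h1
  have hU' : FrP p φ U = U ^ p - (p : A[X]) * α := by rw [hα]; ring
  have hV' : FrP p φ V = V ^ p - (p : A[X]) * δ := by rw [hδ]; ring
  have hW' : FrP p φ W = W ^ p - (p : A[X]) * μ := by rw [hμ]; ring
  rw [hU', hV', hW'] at h1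
  obtain ⟨Z3, hZ3⟩ : ∃ Z3, (V ^ 6) ^ p - (C κ * U ^ 3) ^ p = W * Z3 := by
    have h2 := sub_dvd_pow_sub_pow (V ^ 6) (C κ * U ^ 3) p
    rw [hI1] at h2
    obtain ⟨z, hz⟩ := h2
    exact ⟨f * W * z, by rw [hz]; ring⟩
  have hκp : (C κ * U ^ 3) ^ p = C κ * U ^ (3 * p) + (p : A[X]) * (C (κ * qκ) * U ^ (3 * p)) := by
    rw [mul_pow, ← C_pow, ← pow_mul]
    have : κ ^ p = κ + p * (κ * qκ) := by rw [← hq]; ring
    rw [this, C_add, C_mul, C_eq_natCast]; ring
  obtain ⟨j, hj⟩ : ∃ j, W ^ p = W * j := ⟨W ^ (p - 1), by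
    rw [← pow_succ']; congr 1; have := hp.pos; omega⟩
  set P := C (κ * qκ) * U ^ (3 * p) - 6 * V ^ (5 * p) * δ + 3 * C κ * U ^ (2 * p) * α with hP
  obtain ⟨Q1, Q2, hQ⟩ : ∃ Q1 Q2, (p : A[X]) * P = W * Q1 + (p : A[X]) ^ 2 * Q2 := by
    set x := V ^ p with hx
    set y := U ^ p with hy
    have e1 : V ^ (5 * p) = x ^ 5 := by rw [hx, ← pow_mul]; congr 1; ring
    have e2 : U ^ (2 * p) = y ^ 2 := by rw [hy, ← pow_mul]; congr 1; ring
    have e3 : U ^ (3 * p) = y ^ 3 := by rw [hy, ← pow_mul]; congr 1; ring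
    have e4 : (V ^ 6) ^ p = x ^ 6 := by rw [hx, ← pow_mul, ← pow_mul]; congr 1; ring
    rw [hκp, e4, e3] at hZ3
    rw [hj] at h1
    rw [hP, e1, e2, e3]
    refine ⟨FrP p φ f * (W * j ^ 2 - 2 * (p : A[X]) * μ * j) - Z3,
      FrP p φ f * μ ^ 2 - (15 * x ^ 4 * δ ^ 2 - 20 * (p : A[X]) * x ^ 3 * δ ^ 3 + 15 * (p : A[X]) ^ 2 * x ^ 2 * δ ^ 4
        - 6 * (p : A[X]) ^ 3 * x * δ ^ 5 + (p : A[X]) ^ 4 * δ ^ 6) + C κ * (3 * y * α ^ 2 - (p : A[X]) * α ^ 3), ?_⟩
    linear_combination h1 - hZ3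
  have hWr : ∀ Q : k[X], W.map π * Q = 0 → Q = 0 := reg_of_coeff_zero _ (by rw [coeff_map, hW0, map_one])
  have hQ1 : Q1.map π = 0 := by
    apply hWr
    have h2 := congrArg (Polynomial.map π) hQ
    simp only [Polynomial.map_mul, Polynomial.map_add, Polynomial.map_pow, Polynomial.map_natCast,
      CharP.cast_eq_zero, zero_mul, ne_eq, OfNat.ofNat_ne_zero, not_false_eq_true, zero_pow, add_zero] at h2
    exact h2.symm
  obtain ⟨Q3, hQ3⟩ := poly_ker L Q1 hQ1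
  have h5 : P = W * Q3 + (p : A[X]) * Q2 := by
    apply poly_cancel hp.ne_zero
    rw [hQ, hQ3]; ring
  rw [h5]
  refine ⟨Q3.map π, ?_⟩
  simp only [Polynomial.map_mul, Polynomial.map_add, Polynomial.map_natCast, CharP.cast_eq_zero, zero_mul, add_zero]

theorem E2 (L : LiftData p π φ) (m : ℕ) (hpm : p = 6 * m + 1) (U V W f α δ μ : A[X]) (κ qκ γ0 ui : A) (h s : ℕ → A)
    (hI1 : V ^ 6 - C κ * U ^ 3 = f * W ^ 2) (hκ : φ κ = κ) (hq : κ ^ p - κ = p * (κ * qκ))
    (hα : U ^ p = FrP p φ U + (p : A[X]) * α) (hδ : V ^ p = FrP p φ V + (p : A[X]) * δ)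
    (hμ : W ^ p = FrP p φ W + (p : A[X]) * μ) (hW0 : W.coeff 0 = 1) (hκu : IsUnit κ)
    (hUW : IsCoprime (U.map π) (W.map π))
    (hh : ∀ j ∈ Finset.range (3 * m + 1), j ≠ 2 * m → h j = ui * s j * κ ^ j) (hh0 : h (2 * m) = γ0)
    (hbr : π (-qκ + 3 * (κ ^ (2 * m) * ui * ∑ j ∈ (Finset.range (3 * m + 1)).erase (2 * m), s j + γ0)) = 0) :
    W.map π ∣ α.map π * (V.map π) ^ p - 2 * (U.map π) ^ p * δ.map π
      + Ssum (U.map π) (V.map π) (fun j => C (π (h j))) m := by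
  have hp : p.Prime := Fact.out
  have hm : 1 ≤ m := by
    rcases Nat.eq_zero_or_pos m with rfl | h0
    · exfalso; rw [hpm] at hp; exact absurd hp (by norm_num)
    · exact h0
  rw [← Ideal.mem_span_singleton, ← Ideal.Quotient.eq_zero_iff_mem]
  set q := Ideal.Quotient.mk (Ideal.span {W.map π}) with hqd
  have hqW : q (W.map π) = 0 := by
    rw [Ideal.Quotient.eq_zero_iff_mem]; exact Ideal.mem_span_singleton_self _
  have hR := relR L U V W f α δ μ κ qκ hI1 hκ hq hα hδ hμ hW0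
  rw [← Ideal.mem_span_singleton, ← Ideal.Quotient.eq_zero_iff_mem, ← hqd] at hR
  have h3u : IsUnit (3 : A) := by
    have := L.unit 3 (fun h => by have := Nat.le_of_dvd (by norm_num) h; omega)
    simpa using this
  have e := e2_alg m p hpm (q (U.map π)) (q (V.map π)) (q (α.map π)) (q (δ.map π)) (q (C (π κ))) (q (C (π qκ)))
    (q (C (π γ0))) (q (C (π ui))) (fun j => q (C (π (h j)))) (fun j => q (C (π (s j)))) ?_ ?_ ?_ ?_ ?_ ?_ ?_ ?_ ?_
  · rw [← e]
    simp only [Ssum, map_add, map_sub, map_mul, map_pow, map_sum, map_ofNat]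
  · have h1 := congrArg (fun P => q (P.map π)) hI1
    simp only [Polynomial.map_sub, Polynomial.map_mul, Polynomial.map_pow, Polynomial.map_C, map_sub, map_mul, map_pow,
      hqW] at h1
    linear_combination h1
  · rw [← map_pow, ← C_pow]
    congr 2
    rw [← L.frob, hκ]
  · obtain ⟨a, b, hab⟩ := hUW
    have h1 := congrArg q hab
    rw [map_add, map_mul, map_mul, hqW, mul_zero, add_zero, map_one] at h1
    exact IsUnit.of_mul_eq_one_right _ h1
  · exact ((hκu.map π).map C).map q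
  · have := ((h3u.map π).map (C : k →+* k[X])).map q
    rw [map_ofNat, map_ofNat, map_ofNat] at this
    exact this
  · simp only [Polynomial.map_add, Polynomial.map_sub, Polynomial.map_mul, Polynomial.map_pow, Polynomial.map_C,
      Polynomial.map_ofNat, map_add, map_sub, map_mul, map_pow, map_ofNat] at hR
    linear_combination hR
  · intro j hj hj2
    have := congrArg (fun x => q (C (π x))) (hh j hj hj2)
    simpa using this
  · rw [← hh0]
  · have := congrArg (fun x => q (C x)) hbr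
    simp only [map_add, map_neg, map_mul, map_pow, map_sum, map_ofNat, map_zero] at this
    exact this

end Pool.Agent.Lib.MP_748296_nt.H2
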