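import Pool.Agent.Lib.MP_748296_nt.H2.CharPoly

/-! The structure of the pulled back Frobenius lift in characteristic `p = 6m+1`. -/

namespace Pool.Agent.Lib.MP_748296_nt.H2

open Polynomial

variable {k : Type} [CommRing k]

/-- `∑_j h_j U^(3j+1) V^(6(3m-j)+1)` -/
noncomputable def Ssum {R : Type} [CommRing R] (U V : R) (h : ℕ → R) (m : ℕ) : R :=
  ∑ j ∈ Finset.range (3 * m + 1), h j * U ^ (3 * j + 1) * V ^ (6 * (3 * m - j) + 1)

theorem Ssum_deriv (p m : ℕ) [Fact p.Prime] [CharP k p] (hpm : p = 6 * m + 1) (U V W : k[X]) (h : ℕ → k)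
    (c1 κ ui : k)
    (hI2 : derivative U * V - 2 * U * derivative V = C c1 * W)
    (hh : ∀ j ∈ Finset.range (3 * m + 1), j ≠ 2 * m →
      h j * (3 * (j : k) + 1) = ui * (Nat.choose (3 * m) j : k) * (-κ) ^ j)
    (hn : ui * (Nat.choose (3 * m) (2 * m) : k) * (-κ) ^ (2 * m) = 1) :
    derivative (Ssum U V (fun j => C (h j)) m) =
      C c1 * W * (C ui * (V ^ 6 - C κ * U ^ 3) ^ (3 * m) - U ^ (6 * m) * V ^ (6 * m)) := by
  have hcast : ((6 * m + 1 : ℕ) : k) = 0 := by rw [← hpm]; exact CharP.cast_eq_zero k p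
  have hcast' : (6 * (m : k) + 1) = 0 := by exact_mod_cast hcast
  have e1 : derivative (Ssum U V (fun j => C (h j)) m) =
      ∑ j ∈ Finset.range (3 * m + 1), (C c1 * W) * (C (h j * (3 * (j : k) + 1)) * U ^ (3 * j) * V ^ (6 * (3 * m - j))) := by
    unfold Ssum
    rw [derivative_sum]
    apply Finset.sum_congr rfl
    intro j hj
    have hj' : j ≤ 3 * m := by have := Finset.mem_range.1 hj; omega
    rw [← hI2]
    rw [derivative_mul, derivative_mul, derivative_C, derivative_pow, derivative_pow]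
    simp only [Nat.add_sub_cancel, zero_mul, zero_add]
    obtain ⟨l, hl⟩ : ∃ l, 3 * m = j + l := ⟨3 * m - j, by omega⟩
    have e2 : 3 * m - j = l := by omega
    rw [e2]
    have e3 : ((6 * l + 1 : ℕ) : k[X]) = - 2 * ((3 * j + 1 : ℕ) : k[X]) := by
      have h1 : ((6 * l + 1 : ℕ) : k) = - 2 * ((3 * j + 1 : ℕ) : k) := by
        have h2 : ((3 * m : ℕ) : k) = ((j + l : ℕ) : k) := by rw [hl]
        push_cast at h2 ⊢
        linear_combination 3 * hcast' - 6 * h2
      have h3 := congrArg (fun x => (C x : k[X])) h1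
      simp only [C_neg, C_mul, map_natCast] at h3
      rw [map_ofNat C 2] at h3
      exact h3
    have e4 : (C (h j * (3 * (j : k) + 1)) : k[X]) = C (h j) * ((3 * j + 1 : ℕ) : k[X]) := by
      rw [C_mul]; congr 1
      rw [C_add, C_mul, map_ofNat C 3, C_1, map_natCast]; push_cast; ring
    rw [e4, C_eq_natCast, C_eq_natCast, e3]
    ring
  rw [e1, ← Finset.mul_sum]
  congr 1
  have e5 : (V ^ 6 - C κ * U ^ 3) ^ (3 * m) = ∑ j ∈ Finset.range (3 * m + 1),
      C ((Nat.choose (3 * m) j : k) * (-κ) ^ j) * U ^ (3 * j) * V ^ (6 * (3 * m - j)) := by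
    have : V ^ 6 - C κ * U ^ 3 = (-(C κ * U ^ 3)) + V ^ 6 := by ring
    rw [this, add_pow]
    apply Finset.sum_congr rfl
    intro j _
    rw [C_mul, C_pow, C_neg, ← pow_mul, C_eq_natCast]
    rw [neg_pow (C κ * U ^ 3), neg_pow (C κ), mul_pow, ← pow_mul]
    ring
  rw [e5, Finset.mul_sum]
  have hmem : 2 * m ∈ Finset.range (3 * m + 1) := Finset.mem_range.2 (by omega)
  rw [← Finset.add_sum_erase _ _ hmem, ← Finset.add_sum_erase _ _ hmem]
  have e6 : ∑ j ∈ (Finset.range (3 * m + 1)).erase (2 * m), C (h j * (3 * (j : k) + 1)) * U ^ (3 * j) * V ^ (6 * (3 * m - j))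
      = ∑ j ∈ (Finset.range (3 * m + 1)).erase (2 * m), C ui * (C ((Nat.choose (3 * m) j : k) * (-κ) ^ j) * U ^ (3 * j) * V ^ (6 * (3 * m - j))) := by
    apply Finset.sum_congr rfl
    intro j hj
    rw [hh j (Finset.mem_of_mem_erase hj) (Finset.ne_of_mem_erase hj), mul_assoc ui, C_mul]
    ring
  rw [e6]
  have e7 : (3 * ((2 * m : ℕ) : k) + 1) = 0 := by push_cast; linear_combination hcast'
  rw [e7, mul_zero, C_0, zero_mul, zero_mul, zero_add]
  have e8 : C ui * (C ((Nat.choose (3 * m) (2 * m) : k) * (-κ) ^ (2 * m)) * U ^ (3 * (2 * m)) * V ^ (6 * (3 * m - 2 * m)))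
      = U ^ (6 * m) * V ^ (6 * m) := by
    have : C ui * C ((Nat.choose (3 * m) (2 * m) : k) * (-κ) ^ (2 * m)) = (1 : k[X]) := by
      rw [← C_mul, ← mul_assoc, hn, C_1]
    have h2 : 3 * m - 2 * m = m := by omega
    have h3 : 3 * (2 * m) = 6 * m := by ring
    rw [h2, h3]
    linear_combination (U ^ (6 * m) * V ^ (6 * m)) * this
  rw [e8]
  ring

end Pool.Agent.Lib.MP_748296_nt.H2
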