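import Pool.Agent.Lib.MP_748296_nt.H2.Two
import Pool.Agent.Lib.MP_748296_nt.H4.C
import Pool.Agent.Lib.MP_748296_nt.H40.A
import Pool.Agent.Lib.MP_748296_nt.H21.J
import Pool.Agent.Lib.MP_748296_nt.H61.MainH
import Pool.Agent.Lib.MP_748296_nt.H5.HTwo

/-! Final assembly. -/

namespace Pool.Agent.Lib.MP_748296_nt.H2

open Finset

/-- `a ≡ b (mod p^m)` in `ℤ_(p)` -/
def ModP (p m : ℕ) (a b : ℚ) : Prop := ∃ c d : ℤ, ¬ (p : ℤ) ∣ d ∧ (a - b) * d = (p : ℚ) ^ m * c

variable (p : ℕ) [Fact p.Prime]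

theorem modP_of_padic (m : ℕ) (a b : ℚ) (X : ℤ) (hX : ¬ (p : ℤ) ∣ X) (az t : ℤ_[p]) (haz : (az : ℚ_[p]) = (a : ℚ_[p]))
    (Y : ℤ) (hY : b * X = Y) (ht : az * X - Y = p ^ m * t) : ModP p m a b := by
  have hp : p.Prime := Fact.out
  have hp0 : (p : ℚ) ≠ 0 := by exact_mod_cast hp.ne_zero
  have hp0' : (p : ℚ_[p]) ≠ 0 := by exact_mod_cast hp.ne_zero
  obtain ⟨c, d, hd, hcd⟩ := rat_int p ((a * X - Y) / p ^ m) t (by
    have h1 := congrArg (fun z : ℤ_[p] => (z : ℚ_[p])) ht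
    push_cast at h1 ⊢
    rw [← haz, h1]
    field_simp)
  refine ⟨c, X * d, ?_, ?_⟩
  · intro h
    rcases (Prime.dvd_mul (Nat.prime_iff_prime_int.1 hp)).1 h with h | h
    · exact hX h
    · exact hd h
  · have h2 : (a * X - Y) * d = p ^ m * c := by
      rw [← hcd]; field_simp
    push_cast
    rw [← h2, ← hY]; ring

theorem span_alg (m : ℕ) (x : ℤ_[p]) (h : Ideal.Quotient.mk (Ideal.span {(p : AA p) ^ m}) (algebraMap ℤ_[p] (AA p) x) = 0) :
    ∃ t, x = p ^ m * t := by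
  rw [Ideal.Quotient.eq_zero_iff_mem, Ideal.mem_span_singleton] at h
  obtain ⟨z, hz⟩ := h
  refine ⟨z.re, ?_⟩
  have h1 := congrArg QuadraticAlgebra.re hz
  rw [QuadraticAlgebra.algebraMap_re] at h1
  have h2 : (p : AA p) ^ m = QuadraticAlgebra.C ((p : ℤ_[p]) ^ m) := by
    rw [QuadraticAlgebra.C_pow]; rfl
  rw [h1, h2, QuadraticAlgebra.re_mul, QuadraticAlgebra.re_C, QuadraticAlgebra.im_C]; ring

theorem charB : CharP (AA p ⧸ Ideal.span {(p : AA p) ^ 2}) (p ^ 2) := by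
  refine ⟨fun x => ?_⟩
  constructor
  · intro h
    have h1 : Ideal.Quotient.mk (Ideal.span {(p : AA p) ^ 2}) (algebraMap ℤ_[p] (AA p) (x : ℤ_[p])) = 0 := by
      rw [map_natCast, map_natCast]; exact h
    obtain ⟨t, ht⟩ := span_alg p 2 _ h1
    have h2 : (p : ℤ_[p]) ^ 2 ∣ ((x : ℤ) : ℤ_[p]) := ⟨t, by exact_mod_cast ht⟩
    rw [PadicInt.pow_p_dvd_int_iff] at h2
    exact_mod_cast h2
  · rintro ⟨t, rfl⟩
    have h1 : ((p : AA p ⧸ Ideal.span {(p : AA p) ^ 2})) ^ 2 = Ideal.Quotient.mk (Ideal.span {(p : AA p) ^ 2}) ((p : AA p) ^ 2) := by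
      rw [map_pow, map_natCast]
    have h2 : Ideal.Quotient.mk (Ideal.span {(p : AA p) ^ 2}) ((p : AA p) ^ 2) = 0 := by
      rw [Ideal.Quotient.eq_zero_iff_mem]; exact Ideal.mem_span_singleton_self _
    push_cast
    rw [h1, h2, zero_mul]

/-- `p ≡ 1 (mod 3)` -/
theorem one_final (hp5 : 5 < p) (m : ℕ) (hpm : p = 6 * m + 1) :
    ∃ u : ZMod (p ^ 2), u * (3 * 5 ^ (2 * m)) = (Nat.choose (2 * (2 * m)) (2 * m) : ZMod (p ^ 2)) * (2 + 5 ^ (p - 1)) ∧
      ∀ X : ℤ, ¬ (p : ℤ) ∣ X → (X : ZMod (p ^ 2)) * u = (X : ZMod (p ^ 2)) ^ 2 - (p : ZMod (p ^ 2)) →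
        ModP p 2 (S1 p) (X - p / X) ∧ ModP p 2 ((legendreSym p 5 : ℤ) * S2 p) (X - p / X) := by
  have hp : p.Prime := Fact.out
  have L := liftA p hp5
  obtain ⟨a1, a2, w, hw, h1, h2, s1, s2⟩ := exists_terms p hp5
  obtain ⟨u0, ⟨z, hz⟩, q1, q2⟩ := one_B p H40.a3 H40.a4 H40.a5 H4.c1 H4.c2 (H61.hStatement H40.a1 H40.a2) hp5 m hpm a1 a2 w hw h1 h2
  have hB := ringP2_quot (A := AA p) L
  set q := Ideal.Quotient.mk (Ideal.span {(p : AA p) ^ 2}) with hq
  have := charB p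
  set ι := ZMod.castHom (dvd_refl (p ^ 2)) (AA p ⧸ Ideal.span {(p : AA p) ^ 2}) with hι
  have hcop : Nat.Coprime (3 * 5 ^ (2 * m)) (p ^ 2) := by
    apply Nat.Coprime.pow_right
    apply Nat.Coprime.symm
    rw [Nat.Prime.coprime_iff_not_dvd hp]
    intro h
    rcases (Nat.Prime.dvd_mul hp).1 h with h | h
    · have := Nat.le_of_dvd (by norm_num) h; omega
    · have := Nat.le_of_dvd (by norm_num) (hp.dvd_of_dvd_pow h); omega
  have hinv := ZMod.coe_mul_inv_eq_one (3 * 5 ^ (2 * m)) hcop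
  push_cast at hinv
  set v : ZMod (p ^ 2) := (3 * 5 ^ (2 * m))⁻¹ with hv
  set u : ZMod (p ^ 2) := (Nat.choose (2 * (2 * m)) (2 * m) : ZMod (p ^ 2)) * (2 + 5 ^ (p - 1)) * v with hu
  have hu1 : u * (3 * 5 ^ (2 * m)) = (Nat.choose (2 * (2 * m)) (2 * m) : ZMod (p ^ 2)) * (2 + 5 ^ (p - 1)) := by
    rw [hu]; linear_combination ((Nat.choose (2 * (2 * m)) (2 * m) : ZMod (p ^ 2)) * (2 + 5 ^ (p - 1))) * hinv
  refine ⟨u, hu1, ?_⟩
  have hun : IsUnit (3 * 5 ^ (2 * m) : AA p ⧸ Ideal.span {(p : AA p) ^ 2}) := by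
    have h3 : IsUnit (3 : AA p ⧸ Ideal.span {(p : AA p) ^ 2}) := by
      have := hB.unit 3 (fun h => by have := Nat.le_of_dvd (by norm_num) h; omega)
      simpa using this
    have h5 : IsUnit (5 : AA p ⧸ Ideal.span {(p : AA p) ^ 2}) := by
      have := hB.unit 5 (fun h => by have := Nat.le_of_dvd (by norm_num) h; omega)
      simpa using this
    exact h3.mul (h5.pow _)
  have huu : ι u = q u0 := by
    apply hun.mul_right_cancel
    have e1 := congrArg ι hu1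
    have e2 := congrArg q hz
    simp only [map_mul, map_add, map_pow, map_ofNat, map_natCast] at e1 e2
    rw [e1, e2, hB.sq, zero_mul, add_zero]
  intro X hX hXu
  have hXq : (X : AA p ⧸ Ideal.span {(p : AA p) ^ 2}) * q u0 = (X : AA p ⧸ Ideal.span {(p : AA p) ^ 2}) ^ 2 - p := by
    rw [← huu]
    have := congrArg ι hXu
    simpa only [map_mul, map_sub, map_pow, map_intCast, map_natCast] using this
  have hX0 : (X : ℚ) ≠ 0 := by
    intro h
    apply hX
    have : X = 0 := by exact_mod_cast h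
    rw [this]; exact dvd_zero _
  have hbX : ((X : ℚ) - p / X) * X = ((X ^ 2 - p : ℤ) : ℚ) := by
    push_cast; field_simp
  have hε : (legendreSym p 5) ^ 2 = 1 := eps_sq p hp5
  constructor
  · obtain ⟨t, ht⟩ := span_alg p 2 ((∑ k ∈ range p, a1 k * w ^ k) * X - (X ^ 2 - p)) (by
      rw [← hq]
      simp only [map_sub, map_mul, map_pow, map_intCast, map_natCast] at q1 ⊢
      rw [q1]
      linear_combination hXq)
    exact modP_of_padic p 2 (S1 p) _ X hX _ t s1 (X ^ 2 - p) hbX (by push_cast; rw [← ht])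
  · have s2' : (((legendreSym p 5 : ℤ_[p]) * ∑ k ∈ range p, a2 k * w ^ k : ℤ_[p]) : ℚ_[p]) = (((legendreSym p 5 : ℤ) * S2 p : ℚ) : ℚ_[p]) := by
      rw [PadicInt.coe_mul, s2]; push_cast; rfl
    obtain ⟨t, ht⟩ := span_alg p 2 (((legendreSym p 5 : ℤ_[p]) * ∑ k ∈ range p, a2 k * w ^ k) * X - (X ^ 2 - p)) (by
      rw [← hq]
      have hε' : ((legendreSym p 5 : ℤ) : AA p ⧸ Ideal.span {(p : AA p) ^ 2}) ^ 2 = 1 := by exact_mod_cast congrArg (fun n : ℤ => (n : AA p ⧸ Ideal.span {(p : AA p) ^ 2})) hε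
      simp only [map_sub, map_mul, map_pow, map_intCast, map_natCast] at q2 ⊢
      rw [q2]
      linear_combination hXq + (q u0 * (X : AA p ⧸ Ideal.span {(p : AA p) ^ 2})) * hε')
    exact modP_of_padic p 2 _ _ X hX _ t s2' (X ^ 2 - p) hbX (by push_cast; rw [← ht])

/-- `p ≡ 2 (mod 3)` -/
theorem two_final (hp5 : 5 < p) (hmod : p % 3 = 2) :
    ModP p 1 (S1 p) 0 ∧ ModP p 1 ((legendreSym p 5 : ℤ) * S2 p) 0 := by
  have hp : p.Prime := Fact.out
  have L := liftA p hp5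
  obtain ⟨a1, a2, w, hw, h1, h2, s1, s2⟩ := exists_terms p hp5
  have hun : ∀ l : ℕ, 0 < l → l < p → IsUnit (l : AA p) := fun l h0 h1 =>
    L.unit l (fun h => by have := Nat.le_of_dvd h0 h; omega)
  have h2u : IsUnit (2 : AA p) := by simpa using hun 2 (by omega) (by omega)
  have h3u : IsUnit (3 : AA p) := by simpa using hun 3 (by omega) (by omega)
  have h5u : IsUnit (5 : AA p) := by simpa using hun 5 (by omega) (by omega)
  obtain ⟨i2, hi2⟩ := h2u.exists_right_inv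
  obtain ⟨i5, hi5⟩ := h5u.exists_right_inv
  set r : AA p := ⟨0, 1⟩ with hr
  have hr2 : r ^ 2 = 5 := by rw [pow_two]; ext <;> simp [hr, QuadraticAlgebra.re_ofNat, QuadraticAlgebra.im_ofNat]
  have hb := two_b H4.c1 H4.c2 L hp5 hmod r i2 i5 hr2 hi2 hi5
  set lam : AA p := i2 ^ 3 * i5 * (20 + 9 * r) with hlam
  have hlam40 : 40 * lam = 20 + 9 * r := by
    have e8 : (8 : AA p) * i2 ^ 3 = 1 := by linear_combination (4 * i2 ^ 2 + 2 * i2 + 1) * hi2
    rw [hlam]
    linear_combination ((20 + 9 * r) * 5 * i5) * e8 + (20 + 9 * r) * hi5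
  clear_value lam
  have hz20 : 20 * (2 * lam - 1) = 9 * r := by linear_combination hlam40
  have hru : IsUnit r := by
    have : r * (r * i5) = 1 := by linear_combination i5 * hr2 + hi5
    exact IsUnit.of_mul_eq_one _ this
  have hzu : IsUnit (1 - 2 * lam) := by
    have h9 : IsUnit (9 * r) := by
      have : (9 : AA p) = 3 * 3 := by norm_num
      rw [this]; exact (h3u.mul h3u).mul hru
    rw [← hz20] at h9
    have h10 := (isUnit_of_mul_isUnit_right h9).neg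
    rwa [neg_sub] at h10
  have hw' : algebraMap ℤ_[p] (AA p) w = 4 * lam * (1 - lam) := by
    apply nsmul_cancel (A := AA p) 400 (by norm_num)
    have e := congrArg (algebraMap ℤ_[p] (AA p)) hw
    rw [map_mul, map_ofNat, map_neg, map_one] at e
    push_cast
    linear_combination 5 * e + (20 * (2 * lam - 1) + 9 * r) * hz20 + 81 * hr2
  set ψ : ℤ_[p] →+* KK p := (piA p).comp (algebraMap ℤ_[p] (AA p)) with hψ
  have hψw : ψ w = 4 * piA p lam * (1 - piA p lam) := by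
    rw [hψ, RingHom.comp_apply, hw']; simp only [map_mul, map_sub, map_ofNat, map_one]
  obtain ⟨t1, t2⟩ := H5.hTwo p hp hp5 hmod (KK p) inferInstance (piA p lam) (fun k => ψ (a1 k)) (fun k => ψ (a2 k))
    (by
      intro k hk
      have e := congrArg ψ (h1 k hk)
      simp only [map_mul, map_pow, map_ofNat, map_natCast, map_prod, map_add, map_one] at e
      exact e)
    (by
      intro k hk
      have e := congrArg ψ (h2 k hk)
      simp only [map_mul, map_pow, map_ofNat, map_natCast, map_prod, map_add, map_one] at e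
      exact e)
  rw [hb, mul_zero] at t1
  rw [hb] at t2
  have hzu' : IsUnit (1 - 2 * piA p lam) := by
    have := hzu.map (piA p)
    simpa only [map_sub, map_mul, map_ofNat, map_one] using this
  have t2' := (hzu'.mul_right_eq_zero).1 t2
  have key : ∀ x : ℤ_[p], ψ x = 0 → ∃ t, x = p ^ 1 * t := by
    intro x hx
    have h1 := congrArg QuadraticAlgebra.re hx
    obtain ⟨t, ht⟩ := toZMod_ker p x (by simpa [hψ, piA] using h1)
    exact ⟨t, by rw [ht]; ring⟩
  have k1 : ψ (∑ k ∈ range p, a1 k * w ^ k) = 0 := by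
    rw [map_sum, ← t1]
    apply Finset.sum_congr rfl
    intro k _
    rw [map_mul, map_pow, hψw]
  have k2 : ψ (∑ k ∈ range p, a2 k * w ^ k) = 0 := by
    rw [map_sum, ← t2']
    apply Finset.sum_congr rfl
    intro k _
    rw [map_mul, map_pow, hψw]
  have h1n : ¬ (p : ℤ) ∣ (1 : ℤ) := by
    intro h
    have := Int.le_of_dvd (by norm_num) h
    omega
  constructor
  · obtain ⟨t, ht⟩ := key _ k1
    exact modP_of_padic p 1 (S1 p) 0 1 h1n _ t s1 0 (by simp) (by rw [ht]; simp)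
  · have s2' : (((legendreSym p 5 : ℤ_[p]) * ∑ k ∈ range p, a2 k * w ^ k : ℤ_[p]) : ℚ_[p]) = (((legendreSym p 5 : ℤ) * S2 p : ℚ) : ℚ_[p]) := by
      rw [PadicInt.coe_mul, s2]; push_cast; rfl
    obtain ⟨t, ht⟩ := key _ k2
    exact modP_of_padic p 1 _ 0 1 h1n _ (legendreSym p 5 * t) s2' 0 (by simp) (by rw [ht]; push_cast; ring)

end Pool.Agent.Lib.MP_748296_nt.H2
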