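import Mathlib

/-! The Frobenius lift `g(X) ↦ (φ g)(X^p)` on power series and its reduction mod `p`. -/

namespace Pool.Agent.Lib.MP_748296_nt.H2

open PowerSeries

variable {A : Type} [CommRing A]

/-- `g(X) ↦ (φ g)(X^p)` -/
noncomputable def Fr (p : ℕ) (hp : p ≠ 0) (φ : A →+* A) : A⟦X⟧ →+* A⟦X⟧ :=
  (PowerSeries.expand p hp).toRingHom.comp (PowerSeries.map φ)

theorem Fr_apply (p : ℕ) (hp : p ≠ 0) (φ : A →+* A) (g : A⟦X⟧) :
    Fr p hp φ g = PowerSeries.expand p hp (PowerSeries.map φ g) := rfl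

theorem coeff_Fr (p : ℕ) (hp : p ≠ 0) (φ : A →+* A) (g : A⟦X⟧) (n : ℕ) :
    coeff n (Fr p hp φ g) = if p ∣ n then φ (coeff (n / p) g) else 0 := by
  rw [Fr_apply, coeff_expand]; split_ifs <;> simp

theorem coeff_Fr_mul (p : ℕ) (hp : p ≠ 0) (φ : A →+* A) (g : A⟦X⟧) (n : ℕ) :
    coeff (p * n) (Fr p hp φ g) = φ (coeff n g) := by
  rw [Fr_apply, coeff_expand_mul]; simp

theorem Fr_X (p : ℕ) (hp : p ≠ 0) (φ : A →+* A) : Fr p hp φ X = X ^ p := by
  rw [Fr_apply]; simp

/-- `coeff (i p - 1) (h * G(X^p)) = ∑_{l<i} G_l h_{(i-l)p-1}` -/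
theorem coeff_mul_expand (p : ℕ) (hp : 0 < p) (h G : A⟦X⟧)
    (hG : ∀ n, ¬ p ∣ n → coeff n G = 0) (i : ℕ) (hi : 0 < i) :
    coeff (i * p - 1) (h * G) = ∑ l ∈ Finset.range i, coeff (p * l) G * coeff ((i - l) * p - 1) h := by
  have hip : 0 < i * p := Nat.mul_pos hi hp
  rw [coeff_mul, Finset.Nat.sum_antidiagonal_eq_sum_range_succ_mk]
  simp only
  -- reverse: index by the second coordinate
  rw [← Finset.sum_range_reflect]
  have hset : (i * p - 1).succ = i * p := by omega
  rw [hset]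
  have e1 : ∀ b ∈ Finset.range (i * p),
      coeff (i * p - 1 - b) h * coeff (i * p - 1 - (i * p - 1 - b)) G
        = coeff (i * p - 1 - b) h * coeff b G := by
    intro b hb
    have := Finset.mem_range.1 hb
    congr 2; congr 1; omega
  rw [Finset.sum_congr rfl e1]
  have e2 : ∑ b ∈ Finset.range (i * p), coeff (i * p - 1 - b) h * coeff b G
      = ∑ b ∈ (Finset.range i).image (fun l => p * l), coeff (i * p - 1 - b) h * coeff b G := by
    symm
    apply Finset.sum_subset
    · intro b hb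
      obtain ⟨l, hl, rfl⟩ := Finset.mem_image.1 hb
      have := Finset.mem_range.1 hl
      rw [Finset.mem_range, mul_comm p l]
      exact Nat.mul_lt_mul_of_pos_right this hp
    · intro b hb hb2
      rw [hG b, mul_zero]
      rintro ⟨l, rfl⟩
      apply hb2
      refine Finset.mem_image.2 ⟨l, ?_, rfl⟩
      have h3 := Finset.mem_range.1 hb
      rw [mul_comm p l] at h3
      exact Finset.mem_range.2 (Nat.lt_of_mul_lt_mul_right h3)
  rw [e2, Finset.sum_image (by intro a _ b _ hab; exact Nat.eq_of_mul_eq_mul_left hp hab)]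
  apply Finset.sum_congr rfl
  intro l hl
  have hl' := Finset.mem_range.1 hl
  have e3 : i * p - 1 - p * l = (i - l) * p - 1 := by
    rw [Nat.sub_mul, mul_comm p l]; omega
  rw [e3, mul_comm]

theorem coeff_mul_Fr (p : ℕ) (hp : p ≠ 0) (φ : A →+* A) (h g : A⟦X⟧) (i : ℕ) (hi : 0 < i) :
    coeff (i * p - 1) (h * Fr p hp φ g) =
      ∑ l ∈ Finset.range i, φ (coeff l g) * coeff ((i - l) * p - 1) h := by
  rw [coeff_mul_expand p (Nat.pos_of_ne_zero hp) h (Fr p hp φ g)
    (fun n hn => by rw [coeff_Fr, if_neg hn]) i hi]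
  apply Finset.sum_congr rfl
  intro l _
  rw [coeff_Fr_mul]

section charp

variable {k : Type} [CommRing k] (p : ℕ) [Fact p.Prime] [CharP k p]

/-- `p`-th power of a power series in characteristic `p` -/
theorem coeff_pow_char (g : k⟦X⟧) (n : ℕ) :
    coeff n (g ^ p) = if p ∣ n then (coeff (n / p) g) ^ p else 0 := by
  have hp : p.Prime := Fact.out
  haveI : CharP k⟦X⟧ p := by
    refine ⟨fun x => ?_⟩
    have : (x : k⟦X⟧) = C (x : k) := by simp
    rw [this, ← CharP.cast_eq_zero_iff k p x]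
    constructor
    · intro h; have := congrArg (coeff 0) h; simpa using this
    · intro h; rw [h]; simp
  conv_lhs => rw [g.eq_X_pow_mul_shift_add_trunc (n + 1)]
  rw [add_pow_char, map_add, mul_pow, ← pow_mul, coeff_X_pow_mul', if_neg (by nlinarith [hp.one_lt]), zero_add]
  rw [← Polynomial.coe_pow, Polynomial.coeff_coe, ← Polynomial.map_frobenius_expand, Polynomial.coeff_map,
    Polynomial.coeff_expand hp.pos]
  split_ifs with h
  · rw [coeff_trunc, if_pos (by have := Nat.div_le_self n p; omega), frobenius_def]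
  · simp

theorem map_Fr (φ : A →+* A) (π : A →+* k) (hφ : ∀ a, π (φ a) = π a ^ p) (hp : p ≠ 0) (g : A⟦X⟧) :
    PowerSeries.map π (Fr p hp φ g) = (PowerSeries.map π g) ^ p := by
  ext n
  rw [coeff_pow_char, coeff_map, coeff_Fr]
  split_ifs with h
  · rw [hφ, coeff_map]
  · simp

end charp

end Pool.Agent.Lib.MP_748296_nt.H2
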