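import Pool.Agent.Lib.MP_748296_nt.H2.Lift
import Pool.Agent.Lib.MP_748296_nt.Interfaces

/-! The ring `ℤ_p[√5]` and its reduction. -/

namespace Pool.Agent.Lib.MP_748296_nt.H2

open QuadraticAlgebra

variable (p : ℕ) [Fact p.Prime]

abbrev AA := QuadraticAlgebra ℤ_[p] 5 0
abbrev KK := QuadraticAlgebra (ZMod p) 5 0

instance : IsAddTorsionFree (AA p) where
  nsmul_right_injective n hn := by
    intro x y hxy
    have h1 := congrArg QuadraticAlgebra.re hxy
    have h2 := congrArg QuadraticAlgebra.im hxy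
    simp only [QuadraticAlgebra.re_smul, QuadraticAlgebra.im_smul] at h1 h2
    ext
    · exact (nsmul_right_injective hn) h1
    · exact (nsmul_right_injective hn) h2

instance : CharP (KK p) p :=
  charP_of_injective_algebraMap (algebraMap_injective (R := ZMod p) (a := 5) (b := 0)) p

noncomputable def piA : AA p →+* KK p where
  toFun z := ⟨PadicInt.toZMod z.re, PadicInt.toZMod z.im⟩
  map_one' := by ext <;> simp
  map_zero' := by ext <;> simp
  map_add' x y := by ext <;> simp
  map_mul' x y := by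
    have h5 : PadicInt.toZMod (p := p) 5 = 5 := map_ofNat _ 5
    ext <;> simp [h5]

noncomputable def phiA (ε : ℤ) (hε : ε ^ 2 = 1) : AA p →+* AA p where
  toFun z := ⟨z.re, (ε : ℤ_[p]) * z.im⟩
  map_one' := by ext <;> simp
  map_zero' := by ext <;> simp
  map_add' x y := by ext <;> simp; ring
  map_mul' x y := by
    have h : (ε : ℤ_[p]) ^ 2 = 1 := by exact_mod_cast hε
    ext
    · simp; linear_combination (-(5 * x.im * y.im)) * h
    · simp; ring

theorem toZMod_ker (x : ℤ_[p]) (h : PadicInt.toZMod x = 0) : ∃ y, x = p * y := by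
  have h1 : x ∈ RingHom.ker (PadicInt.toZMod (p := p)) := h
  rw [PadicInt.ker_toZMod, PadicInt.maximalIdeal_eq_span_p, Ideal.mem_span_singleton] at h1
  exact h1

theorem liftA (hp5 : 5 < p) : LiftData p (piA p) (phiA p (legendreSym p 5) (by
    apply legendreSym.sq_one
    intro h
    have h1 : ((5 : ℕ) : ZMod p) = 0 := by exact_mod_cast h
    rw [ZMod.natCast_eq_zero_iff] at h1
    have := Nat.le_of_dvd (by norm_num) h1
    omega)) where
  surj := by
    intro z
    obtain ⟨x, hx⟩ := ZMod.ringHom_surjective (PadicInt.toZMod (p := p)) z.re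
    obtain ⟨y, hy⟩ := ZMod.ringHom_surjective (PadicInt.toZMod (p := p)) z.im
    exact ⟨⟨x, y⟩, by ext <;> simp [piA, hx, hy]⟩
  ker := by
    intro a ha
    have h1 := congrArg QuadraticAlgebra.re ha
    have h2 := congrArg QuadraticAlgebra.im ha
    obtain ⟨x, hx⟩ := toZMod_ker p a.re (by simpa [piA] using h1)
    obtain ⟨y, hy⟩ := toZMod_ker p a.im (by simpa [piA] using h2)
    exact ⟨⟨x, y⟩, by ext <;> simp [hx, hy]⟩
  frob := by
    intro a
    have hp : p.Prime := Fact.out
    have e1 : (piA p a) = QuadraticAlgebra.C (PadicInt.toZMod a.re) + QuadraticAlgebra.C (PadicInt.toZMod a.im) * (⟨0, 1⟩ : KK p) := by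
      ext <;> simp [piA]
    have hodd : p = 2 * (p / 2) + 1 := by
      have := hp.eq_two_or_odd'.resolve_left (by omega)
      obtain ⟨k, hk⟩ := this; omega
    have e2 : ((⟨0, 1⟩ : KK p)) ^ 2 = QuadraticAlgebra.C 5 := by
      rw [pow_two]; ext <;> simp
    have e3 : ((⟨0, 1⟩ : KK p)) ^ p = QuadraticAlgebra.C ((legendreSym p 5 : ℤ) : ZMod p) * (⟨0, 1⟩ : KK p) := by
      rw [congrArg (fun n => ((⟨0, 1⟩ : KK p)) ^ n) hodd]
      rw [pow_succ, pow_mul, e2, ← QuadraticAlgebra.C_pow, legendreSym.eq_pow]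
      norm_num
    rw [e1, add_pow_char, mul_pow, e3, ← QuadraticAlgebra.C_pow, ← QuadraticAlgebra.C_pow, ZMod.pow_card, ZMod.pow_card]
    ext
    · simp [piA, phiA]
    · simp [piA, phiA]; ring
  unit := by
    intro l hl
    have h1 : IsUnit (l : ℤ_[p]) := by
      rw [PadicInt.isUnit_iff]
      have hp : p.Prime := Fact.out
      have h2 := (PadicInt.norm_int_lt_one_iff_dvd (p := p) (l : ℤ))
      have h3 : ¬ ‖((l : ℤ) : ℤ_[p])‖ < 1 := by
        rw [h2]; exact_mod_cast hl
      have h4 : ‖((l : ℤ) : ℤ_[p])‖ ≤ 1 := PadicInt.norm_le_one _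
      have h5 : ‖((l : ℤ) : ℤ_[p])‖ = 1 := le_antisymm h4 (not_lt.1 h3)
      exact_mod_cast h5
    have h2 := h1.map (algebraMap ℤ_[p] (AA p))
    simpa using h2

end Pool.Agent.Lib.MP_748296_nt.H2
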