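import Pool.Agent.Lib.MP_748296_nt.H2.Frob

/-! Lifting data `A → k = A/p`, Frobenius lift `φ`; lifts of `p`-th powers. -/

namespace Pool.Agent.Lib.MP_748296_nt.H2

open Polynomial

structure LiftData (p : ℕ) {A k : Type} [CommRing A] [CommRing k] (π : A →+* k) (φ : A →+* A) : Prop where
  surj : Function.Surjective π
  ker : ∀ a, π a = 0 → ∃ b, a = p * b
  frob : ∀ a, π (φ a) = π a ^ p
  unit : ∀ l : ℕ, ¬ p ∣ l → IsUnit (l : A)

variable {A k : Type} [CommRing A] [CommRing k] {p : ℕ} {π : A →+* k} {φ : A →+* A}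

theorem ps_ker (L : LiftData p π φ) (G : PowerSeries A) (hG : PowerSeries.map π G = 0) :
    ∃ t : PowerSeries A, G = (p : PowerSeries A) * t := by
  have h : ∀ n, ∃ b, PowerSeries.coeff n G = p * b := by
    intro n
    apply L.ker
    have := congrArg (PowerSeries.coeff n) hG
    simpa using this
  choose b hb using h
  refine ⟨PowerSeries.mk b, ?_⟩
  ext n
  have : (p : PowerSeries A) = PowerSeries.C (p : A) := by simp
  rw [this, PowerSeries.coeff_C_mul, PowerSeries.coeff_mk, hb]

theorem poly_ker (L : LiftData p π φ) (G : A[X]) (hG : G.map π = 0) :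
    ∃ t : A[X], G = (p : A[X]) * t := by
  have h : ∀ n, ∃ b, G.coeff n = p * b := by
    intro n
    apply L.ker
    have := congrArg (fun q => Polynomial.coeff q n) hG
    simpa using this
  choose b hb using h
  refine ⟨∑ n ∈ Finset.range (G.natDegree + 1), monomial n (b n), ?_⟩
  rw [Finset.mul_sum]
  conv_lhs => rw [G.as_sum_range]
  apply Finset.sum_congr rfl
  intro n _
  rw [hb n, ← C_eq_natCast, C_mul_monomial]

theorem p_ne_zero_smul [IsAddTorsionFree A] (hp : p ≠ 0) {x : A} (h : (p : A) * x = 0) : x = 0 := by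
  rw [← nsmul_eq_mul] at h
  exact (nsmul_eq_zero_iff_right hp).1 h

theorem poly_tf [IsAddTorsionFree A] (hp : p ≠ 0) {x : A[X]} (h : (p : A[X]) * x = 0) : x = 0 := by
  ext n
  have h1 := congrArg (fun q => Polynomial.coeff q n) h
  simp only [← C_eq_natCast, coeff_C_mul, coeff_zero] at h1
  rw [coeff_zero]
  exact p_ne_zero_smul hp h1

theorem poly_cancel [IsAddTorsionFree A] (hp : p ≠ 0) {x y : A[X]} (h : (p : A[X]) * x = (p : A[X]) * y) : x = y := by
  have : (p : A[X]) * (x - y) = 0 := by rw [mul_sub, h, sub_self]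
  exact sub_eq_zero.1 (poly_tf hp this)

theorem ps_cancel [IsAddTorsionFree A] (hp : p ≠ 0) {x y : PowerSeries A}
    (h : (p : PowerSeries A) * x = (p : PowerSeries A) * y) : x = y := by
  have h0 : (p : PowerSeries A) * (x - y) = 0 := by rw [mul_sub, h, sub_self]
  have h1 : x - y = 0 := by
    ext n
    have h1 := congrArg (fun q => PowerSeries.coeff n q) h0
    have h2 : (p : PowerSeries A) = PowerSeries.C (p : A) := by simp
    rw [h2] at h1
    simp only [PowerSeries.coeff_C_mul, map_zero] at h1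
    rw [map_zero]
    exact p_ne_zero_smul hp h1
  exact sub_eq_zero.1 h1

/-- Frobenius lift on polynomials -/
noncomputable def FrP (p : ℕ) (φ : A →+* A) : A[X] →+* A[X] :=
  ((Polynomial.expand A p : A[X] →ₐ[A] A[X]) : A[X] →+* A[X]).comp (Polynomial.mapRingHom φ)

theorem FrP_apply (φ : A →+* A) (g : A[X]) : FrP p φ g = Polynomial.expand A p (g.map φ) := rfl

theorem coe_FrP (hp : p ≠ 0) (φ : A →+* A) (g : A[X]) :
    ((FrP p φ g : A[X]) : PowerSeries A) = Fr p hp φ (g : PowerSeries A) := by
  ext n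
  rw [coeff_Fr, Polynomial.coeff_coe, FrP_apply, Polynomial.coeff_expand (Nat.pos_of_ne_zero hp)]
  split_ifs <;> simp

section
variable [Fact p.Prime] [CharP k p]

theorem map_FrP (L : LiftData p π φ) (g : A[X]) : (FrP p φ g).map π = (g.map π) ^ p := by
  have hp : p.Prime := Fact.out
  rw [FrP_apply, Polynomial.map_expand, Polynomial.map_map]
  rw [← Polynomial.map_frobenius_expand, Polynomial.map_expand, Polynomial.map_map]
  congr 1
  have : π.comp φ = (frobenius k p).comp π := by
    ext a; simp [L.frob, frobenius_def]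
  rw [this]

theorem poly_lift [IsAddTorsionFree A] (L : LiftData p π φ) (g : A[X]) :
    ∃ t : A[X], g ^ p = FrP p φ g + (p : A[X]) * t ∧ t.natDegree ≤ g.natDegree * p ∧
      derivative t = g ^ (p - 1) * derivative g - X ^ (p - 1) * FrP p φ (derivative g) ∧
      (g.coeff 0 = 0 → t.coeff 0 = 0) := by
  have hp : p.Prime := Fact.out
  obtain ⟨t, ht⟩ := poly_ker L (g ^ p - FrP p φ g) (by
    rw [Polynomial.map_sub, map_FrP L, Polynomial.map_pow, sub_self])
  refine ⟨t, by rw [← ht]; ring, ?_, ?_, ?_⟩
  · have h1 : t.natDegree ≤ (g ^ p - FrP p φ g).natDegree := by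
      rw [ht, natDegree_le_iff_coeff_eq_zero]
      intro n hn
      have h2 := coeff_eq_zero_of_natDegree_lt hn
      rw [← C_eq_natCast, coeff_C_mul] at h2
      exact p_ne_zero_smul hp.ne_zero h2
    refine h1.trans ((natDegree_sub_le_of_le (m := g.natDegree * p) (n := g.natDegree * p) ?_ ?_).trans (by simp))
    · refine natDegree_pow_le.trans ?_; rw [mul_comm]
    · rw [FrP_apply, natDegree_expand]
      exact Nat.mul_le_mul_right p (natDegree_map_le)
  · have h1 := congrArg derivative ht
    have h2 : derivative (FrP p φ g) = (p : A[X]) * (X ^ (p - 1) * FrP p φ (derivative g)) := by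
      rw [FrP_apply, derivative_expand, FrP_apply, ← derivative_map]
      ring
    have h3 : derivative (g ^ p) = (p : A[X]) * (g ^ (p - 1) * derivative g) := by
      rw [derivative_pow, C_eq_natCast]; ring
    have h4 : derivative ((p : A[X]) * t) = (p : A[X]) * derivative t := by
      rw [derivative_mul, derivative_natCast]; ring
    rw [derivative_sub, h2, h3, h4] at h1
    apply poly_cancel hp.ne_zero
    rw [← h1]; ring
  · intro hg
    have h1 := congrArg (fun q => Polynomial.coeff q 0) ht
    simp only [coeff_sub] at h1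
    have h2 : (g ^ p).coeff 0 = 0 := by
      rw [coeff_zero_eq_eval_zero] at hg ⊢
      rw [eval_pow, hg, zero_pow hp.ne_zero]
    have h3 : (FrP p φ g).coeff 0 = 0 := by
      rw [FrP_apply, Polynomial.coeff_expand hp.pos, if_pos (dvd_zero p), Nat.zero_div, coeff_map, hg, map_zero]
    rw [h2, h3, sub_zero, ← C_eq_natCast, coeff_C_mul] at h1
    exact p_ne_zero_smul hp.ne_zero h1.symm

theorem ps_lift (L : LiftData p π φ) (hp0 : p ≠ 0) (g : PowerSeries A) :
    ∃ t : PowerSeries A, g ^ p = Fr p hp0 φ g + (p : PowerSeries A) * t := by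
  obtain ⟨t, ht⟩ := ps_ker L (g ^ p - Fr p hp0 φ g) (by
    rw [map_sub, map_Fr p φ π L.frob hp0, map_pow, sub_self])
  exact ⟨t, by rw [← ht]; ring⟩

end

end Pool.Agent.Lib.MP_748296_nt.H2
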