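import Pool.Agent.Lib.MP_748296_nt.H2.Chain
import Pool.Agent.Lib.MP_748296_nt.H2.E2

/-! The congruences (M) for an abstract curve `V^6 - κ U^3 = f W^2`. -/

namespace Pool.Agent.Lib.MP_748296_nt.H2

open PowerSeries

open Polynomial in
theorem cop_WW' {R : Type} [CommRing R] (U V W f : R[X]) (c1 κ : R)
    (hI1 : V ^ 6 - Polynomial.C κ * U ^ 3 = f * W ^ 2)
    (hI2 : derivative U * V - 2 * U * derivative V = Polynomial.C c1 * W)
    (hW0 : W.coeff 0 = 1) (h3 : IsUnit (3 : R)) (hκ : IsUnit κ) (hc1 : IsUnit c1) (hUV : IsCoprime U V) :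
    IsCoprime W (derivative W) := by
  have h1 := congrArg derivative hI1
  simp only [Polynomial.derivative_sub, Polynomial.derivative_mul, Polynomial.derivative_pow, Polynomial.derivative_C,
    zero_mul, zero_add, Nat.cast_ofNat, map_ofNat] at h1
  norm_num at h1
  have h2 : W * (6 * derivative V * f * W - 3 * Polynomial.C κ * Polynomial.C c1 * U ^ 2
      - V * derivative f * W - 2 * V * f * derivative W) = 0 := by
    linear_combination V * h1 - 6 * derivative V * hI1 + (3 * Polynomial.C κ * U ^ 2) * hI2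
  have h4 := reg_of_coeff_zero W hW0 _ h2
  obtain ⟨t, ht⟩ := ((h3.mul hκ).mul hc1).exists_right_inv
  have ht' : 3 * Polynomial.C κ * Polynomial.C c1 * Polynomial.C t = (1 : R[X]) := by
    have := congrArg (Polynomial.C : R →+* R[X]) ht
    simp only [map_mul, map_ofNat, map_one] at this
    exact this
  obtain ⟨x, y, hxy⟩ := (hUV.pow (m := 2) (n := 6))
  refine ⟨x * (Polynomial.C t * (6 * derivative V * f - V * derivative f)) +
    y * (Polynomial.C κ * U * (Polynomial.C t * (6 * derivative V * f - V * derivative f)) + f * W),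
    x * (Polynomial.C t * (-2 * V * f)) + y * (Polynomial.C κ * U * (Polynomial.C t * (-2 * V * f))), ?_⟩
  linear_combination hxy - y * hI1 + (x + y * Polynomial.C κ * U) * (Polynomial.C t * h4 + U ^ 2 * ht')

theorem isUnit_of_coeff {R : Type} [CommRing R] (P : R⟦X⟧) (h : IsUnit (constantCoeff P)) : IsUnit P :=
  PowerSeries.isUnit_iff_constantCoeff.2 h

theorem sq_eq {R : Type} [CommRing R] (x y : R⟦X⟧) (h2 : IsUnit (2 : R)) (hx : constantCoeff x = 1)
    (hy : constantCoeff y = 1) (h : x ^ 2 = y ^ 2) : x = y := by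
  have h1 : IsUnit (x + y) := by
    apply isUnit_of_coeff
    rw [map_add, hx, hy]
    have : (1 : R) + 1 = 2 := by norm_num
    rw [this]; exact h2
  have h3 : (x + y) * (x - y) = 0 := by linear_combination h
  exact sub_eq_zero.1 ((h1.mul_right_eq_zero).1 h3)

/-- `h = f^N h^p` in characteristic `p = 2N+1` when `h^2 f = 1` -/
theorem h_charp {R : Type} [CommRing R] (h f : R) (N p : ℕ) (hp : p = 2 * N + 1) (hh : h ^ 2 * f = 1) :
    h = f ^ N * h ^ p := by
  have : f ^ N * h ^ p = h * (h ^ 2 * f) ^ N := by rw [hp, pow_succ, pow_mul, mul_pow]; ring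
  rw [this, hh, one_pow, mul_one]

section
variable {A : Type} [CommRing A]

/-- The change of parameter `ρ = X E = U/V^2`. -/
theorem exists_E (U V W f : Polynomial A) (c1 κ : A) (h2 : IsUnit (2 : A))
    (hI1 : V ^ 6 - Polynomial.C κ * U ^ 3 = f * W ^ 2)
    (hI2 : Polynomial.derivative U * V - 2 * U * Polynomial.derivative V = Polynomial.C c1 * W)
    (hU0 : U.coeff 0 = 0) (hV0 : V.coeff 0 = 1) (hW0 : W.coeff 0 = 1) (hU1 : U.coeff 1 = c1) (hc1u : IsUnit c1)
    (h h0 : A⟦X⟧) (hh : h ^ 2 * (f : A⟦X⟧) = 1) (hhc : constantCoeff h = 1)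
    (hh0 : h0 ^ 2 * (1 - C κ * X ^ 3) = 1) (hh0c : constantCoeff h0 = 1) :
    ∃ E Ei : A⟦X⟧, E * Ei = 1 ∧ (X * E) * (V : A⟦X⟧) ^ 2 = (U : A⟦X⟧) ∧
      (d⁄dX A (X * E)) * (V : A⟦X⟧) ^ 3 = C c1 * (W : A⟦X⟧) ∧
      C c1 * h = (d⁄dX A (X * E)) * h0.subst (X * E) := by
  obtain ⟨Vi, hVi⟩ := (isUnit_of_coeff (V : A⟦X⟧) (by simp [hV0])).exists_right_inv
  have hUX : U = Polynomial.X * U.divX := by
    have := Polynomial.divX_mul_X_add U
    rw [hU0, map_zero, add_zero, mul_comm] at this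
    exact this.symm
  obtain ⟨Ui, hUi⟩ := (isUnit_of_coeff (U.divX : A⟦X⟧) (by
    simp only [← coeff_zero_eq_constantCoeff, Polynomial.coeff_coe, Polynomial.coeff_divX, zero_add, hU1]
    exact hc1u)).exists_right_inv
  set E : A⟦X⟧ := (U.divX : A⟦X⟧) * Vi ^ 2 with hE
  have e1 : E * ((V : A⟦X⟧) ^ 2 * Ui) = 1 := by
    rw [hE]
    linear_combination ((U.divX : A⟦X⟧) * Ui) * ((V : A⟦X⟧) * Vi + 1) * hVi + hUi
  have e2 : (X * E) * (V : A⟦X⟧) ^ 2 = (U : A⟦X⟧) := by
    conv_rhs => rw [hUX]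
    rw [Polynomial.coe_mul, Polynomial.coe_X, hE]
    linear_combination (X * (U.divX : A⟦X⟧)) * ((V : A⟦X⟧) * Vi + 1) * hVi
  have hs : HasSubst (X * E : A⟦X⟧) := HasSubst.of_constantCoeff_zero' (by simp)
  have hVu : IsUnit (V : A⟦X⟧) := isUnit_of_coeff _ (by simp [hV0])
  have e3 : (d⁄dX A (X * E)) * (V : A⟦X⟧) ^ 3 = C c1 * (W : A⟦X⟧) := by
    have h1 := congrArg (d⁄dX A) e2
    rw [Derivation.leibniz, derivative_pow, derivative_coe, derivative_coe] at h1
    simp only [smul_eq_mul, Nat.cast_ofNat] at h1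
    have h3 := congrArg (fun q : Polynomial A => (q : A⟦X⟧)) hI2
    simp only [Polynomial.coe_sub, Polynomial.coe_mul, Polynomial.coe_C] at h3
    have h4 : ((2 : Polynomial A) : A⟦X⟧) = 2 := by
      have : (2 : Polynomial A) = Polynomial.C 2 := (map_ofNat Polynomial.C 2).symm
      rw [this, Polynomial.coe_C, map_ofNat]
    rw [h4] at h3
    have h5 : ((V : A⟦X⟧)) ^ (2 - 1) = (V : A⟦X⟧) := by norm_num
    rw [h5] at h1
    linear_combination (V : A⟦X⟧) * h1 + h3 - 2 * ((Polynomial.derivative V : Polynomial A) : A⟦X⟧) * e2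
  -- h0(ρ) W = h V^3
  have e4 : h0.subst (X * E) * (W : A⟦X⟧) = h * (V : A⟦X⟧) ^ 3 := by
    have h1 : PowerSeries.subst (X * E) (h0 ^ 2 * (1 - C κ * X ^ 3)) = PowerSeries.subst (X * E) (1 : A⟦X⟧) := by
      rw [hh0]
    have hone : (1 : A⟦X⟧).subst (X * E) = (1 : A⟦X⟧) := by
      rw [← coe_substAlgHom hs, map_one]
    have hCκ : (C κ : A⟦X⟧).subst (X * E) = (C κ : A⟦X⟧) := by
      rw [← Polynomial.coe_C, subst_coe hs]; simp
    rw [subst_mul hs, subst_pow hs, subst_sub hs, subst_mul hs, subst_pow hs, subst_X hs, hone, hCκ] at h1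
    apply sq_eq _ _ h2
    · rw [map_mul]
      have : constantCoeff (h0.subst (X * E)) = (1 : A) := by
        have h3 := congrArg constantCoeff (subst_add hs (C (1 : A)) (h0 - C 1))
        have h4 : h0 - C 1 = X * (PowerSeries.mk fun n => coeff (n + 1) h0) := by
          ext n
          cases n with
          | zero => simp [hh0c]
          | succ n =>
            rw [coeff_succ_X_mul]
            simp [coeff_C]
        rw [add_sub_cancel, h4, subst_mul hs, subst_X hs, map_add, map_mul, map_mul, constantCoeff_X, zero_mul, zero_mul,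
          add_zero] at h3
        rw [h3, map_one, hone, map_one]
      rw [this]; simp [hW0]
    · rw [map_mul, map_pow, hhc]; simp [hV0]
    · have h3 := congrArg (fun q : Polynomial A => (q : A⟦X⟧)) hI1
      simp only [Polynomial.coe_sub, Polynomial.coe_mul, Polynomial.coe_C, Polynomial.coe_pow] at h3
      have h4 : (h0.subst (X * E)) ^ 2 * ((f : A⟦X⟧) * (W : A⟦X⟧) ^ 2) = (V : A⟦X⟧) ^ 6 := by
        rw [← h3]
        have h5 : (U : A⟦X⟧) ^ 3 = (X * E) ^ 3 * (V : A⟦X⟧) ^ 6 := by rw [← e2]; ring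
        rw [h5]
        linear_combination (V : A⟦X⟧) ^ 6 * h1
      linear_combination h ^ 2 * h4 - ((h0.subst (X * E)) ^ 2 * (W : A⟦X⟧) ^ 2) * hh
  refine ⟨E, (V : A⟦X⟧) ^ 2 * Ui, e1, e2, e3, ?_⟩
  have h5 : (V : A⟦X⟧) ^ 3 * (C c1 * h - (d⁄dX A (X * E)) * h0.subst (X * E)) = 0 := by
    linear_combination (-(h0.subst (X * E))) * e3 - C c1 * e4
  exact sub_eq_zero.1 (((hVu.pow 3).mul_right_eq_zero).1 h5)

end

end Pool.Agent.Lib.MP_748296_nt.H2
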