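import Pool.Agent.Lib.MP_748296_nt.H2.MAbs

/-! Theorem (M) for an abstract curve. -/

namespace Pool.Agent.Lib.MP_748296_nt.H2

open PowerSeries

variable {A k : Type} [CommRing A] [IsAddTorsionFree A] [CommRing k] {p : ℕ} [Fact p.Prime] [CharP k p]
  {π : A →+* k} {φ : A →+* A}

/-- `∑_j h_j X^(3j+1)` -/
noncomputable def Hpoly {R : Type} [CommRing R] (h : ℕ → R) (m : ℕ) : Polynomial R :=
  ∑ j ∈ Finset.range (3 * m + 1), Polynomial.C (h j) * Polynomial.X ^ (3 * j + 1)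

theorem map_natCast_ps (n : ℕ) : PowerSeries.map π (n : A⟦X⟧) = (n : k⟦X⟧) := map_natCast _ n

theorem p_ps_zero : (p : k⟦X⟧) = 0 := by
  rw [← map_natCast (C : k →+* k⟦X⟧) p, CharP.cast_eq_zero, map_zero]

theorem two_coe {R : Type} [CommRing R] : ((2 : Polynomial R) : R⟦X⟧) = 2 := by
  have : (2 : Polynomial R) = Polynomial.C 2 := (map_ofNat Polynomial.C 2).symm
  rw [this, Polynomial.coe_C, map_ofNat]

/-- `θ̄ V^(3p) = α V^p - 2 U^p δ` -/
theorem theta_id (L : LiftData p π φ) (hp0 : p ≠ 0) (U V α δ : Polynomial A) (E θ1 : A⟦X⟧)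
    (hα : U ^ p = FrP p φ U + (p : Polynomial A) * α) (hδ : V ^ p = FrP p φ V + (p : Polynomial A) * δ)
    (hUV : (X * E) * (V : A⟦X⟧) ^ 2 = (U : A⟦X⟧))
    (hθ : E ^ p = Fr p hp0 φ E + (p : A⟦X⟧) * θ1) :
    PowerSeries.map π (X ^ p * θ1) * (PowerSeries.map π (V : A⟦X⟧)) ^ (3 * p) =
      PowerSeries.map π (α : A⟦X⟧) * (PowerSeries.map π (V : A⟦X⟧)) ^ p
        - 2 * (PowerSeries.map π (U : A⟦X⟧)) ^ p * PowerSeries.map π (δ : A⟦X⟧) := by
  set F := Fr p hp0 φ with hF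
  have hα' : (U : A⟦X⟧) ^ p = F (U : A⟦X⟧) + (p : A⟦X⟧) * (α : A⟦X⟧) := by
    have := congrArg (fun q : Polynomial A => (q : A⟦X⟧)) hα
    simp only [Polynomial.coe_pow, Polynomial.coe_add, Polynomial.coe_mul, coe_FrP hp0] at this
    rw [this]; congr 2
    rw [← Polynomial.C_eq_natCast, Polynomial.coe_C]; simp
  have hδ' : (V : A⟦X⟧) ^ p = F (V : A⟦X⟧) + (p : A⟦X⟧) * (δ : A⟦X⟧) := by
    have := congrArg (fun q : Polynomial A => (q : A⟦X⟧)) hδ
    simp only [Polynomial.coe_pow, Polynomial.coe_add, Polynomial.coe_mul, coe_FrP hp0] at this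
    rw [this]; congr 2
    rw [← Polynomial.C_eq_natCast, Polynomial.coe_C]; simp
  have h1 : F (X * E) * (F (V : A⟦X⟧)) ^ 2 = F (U : A⟦X⟧) := by rw [← map_pow, ← map_mul, hUV]
  have hFX : F (X * E) = X ^ p * F E := by rw [map_mul, hF, Fr_X]
  have h2 : (X * E) ^ p = F (X * E) + (p : A⟦X⟧) * (X ^ p * θ1) := by
    rw [mul_pow, hθ, hFX]; ring
  have h3 : (X * E) ^ p * (V : A⟦X⟧) ^ (2 * p) = (U : A⟦X⟧) ^ p := by
    rw [pow_mul (V : A⟦X⟧), ← mul_pow, hUV]
  have h4 : X ^ p * θ1 * (V : A⟦X⟧) ^ (2 * p) = (α : A⟦X⟧) - 2 * F (X * E) * F (V : A⟦X⟧) * (δ : A⟦X⟧)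
      - (p : A⟦X⟧) * (F (X * E) * (δ : A⟦X⟧) ^ 2) := by
    apply ps_cancel hp0
    have h5 : (V : A⟦X⟧) ^ (2 * p) = (F (V : A⟦X⟧) + (p : A⟦X⟧) * (δ : A⟦X⟧)) ^ 2 := by
      rw [← hδ', ← pow_mul]; congr 1; ring
    have h6 : F (X * E) * (V : A⟦X⟧) ^ (2 * p) = F (X * E) * (F (V : A⟦X⟧) + (p : A⟦X⟧) * (δ : A⟦X⟧)) ^ 2 := by
      rw [h5]
    linear_combination h3 - (V : A⟦X⟧) ^ (2 * p) * h2 + hα' - h1 - h6
  obtain ⟨y, hy⟩ : ∃ y, y = F (X * E) := ⟨_, rfl⟩
  rw [← hy] at h4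
  have h7 := congrArg (PowerSeries.map π) h4
  simp only [map_sub, map_mul, map_ofNat, map_natCast_ps, p_ps_zero, zero_mul, sub_zero] at h7
  rw [hy] at h7
  have h8 : PowerSeries.map π (F (X * E)) = (PowerSeries.map π (X * E)) ^ p := map_Fr p φ π L.frob hp0 _
  have h9 : PowerSeries.map π (F (V : A⟦X⟧)) = (PowerSeries.map π (V : A⟦X⟧)) ^ p := map_Fr p φ π L.frob hp0 _
  rw [h8, h9] at h7
  have h10 : PowerSeries.map π (X * E) * (PowerSeries.map π (V : A⟦X⟧)) ^ 2 = PowerSeries.map π (U : A⟦X⟧) := by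
    rw [← map_pow, ← map_mul, hUV]
  have e1 : (PowerSeries.map π (V : A⟦X⟧)) ^ (3 * p) =
      PowerSeries.map π (V : A⟦X⟧) ^ (2 * p) * PowerSeries.map π (V : A⟦X⟧) ^ p := by
    rw [← pow_add]; congr 1; ring
  have e2 : (PowerSeries.map π (U : A⟦X⟧)) ^ p = (PowerSeries.map π (X * E)) ^ p * (PowerSeries.map π (V : A⟦X⟧) ^ p * PowerSeries.map π (V : A⟦X⟧) ^ p) := by
    rw [← h10, mul_pow, ← pow_mul, ← pow_add]; congr 2; ring
  rw [e1, e2, map_mul]
  rw [map_pow (PowerSeries.map π) (V : A⟦X⟧)] at h7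
  rw [map_pow (PowerSeries.map π) X] at h7 ⊢
  linear_combination (PowerSeries.map π (V : A⟦X⟧)) ^ p * h7

/-- `H0(ρ) V^(3p) = Ssum U V` -/
theorem H0_rho (m : ℕ) (hpm : p = 6 * m + 1) (U V : Polynomial A) (E : A⟦X⟧) (h : ℕ → A)
    (hUV : (X * E) * (V : A⟦X⟧) ^ 2 = (U : A⟦X⟧)) :
    ((Hpoly h m : Polynomial A) : A⟦X⟧).subst (X * E) * (V : A⟦X⟧) ^ (3 * p) =
      ((Ssum U V (fun j => Polynomial.C (h j)) m : Polynomial A) : A⟦X⟧) := by
  have hs : HasSubst (X * E : A⟦X⟧) := HasSubst.of_constantCoeff_zero' (by simp)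
  rw [subst_coe hs]
  unfold Hpoly Ssum
  rw [map_sum, Finset.sum_mul]
  have : ((∑ j ∈ Finset.range (3 * m + 1), Polynomial.C (h j) * U ^ (3 * j + 1) * V ^ (6 * (3 * m - j) + 1) : Polynomial A) : A⟦X⟧)
      = ∑ j ∈ Finset.range (3 * m + 1), C (h j) * (U : A⟦X⟧) ^ (3 * j + 1) * (V : A⟦X⟧) ^ (6 * (3 * m - j) + 1) := by
    rw [← Polynomial.coeToPowerSeries.ringHom_apply, map_sum]
    apply Finset.sum_congr rfl
    intro j _
    simp
  rw [this]
  apply Finset.sum_congr rfl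
  intro j hj
  have hj' := Finset.mem_range.1 hj
  rw [map_mul, map_pow, Polynomial.aeval_X, Polynomial.aeval_C]
  have e1 : (V : A⟦X⟧) ^ (3 * p) = ((V : A⟦X⟧) ^ 2) ^ (3 * j + 1) * (V : A⟦X⟧) ^ (6 * (3 * m - j) + 1) := by
    rw [← pow_mul, ← pow_add]; congr 1; omega
  have e2 : (algebraMap A A⟦X⟧) (h j) = C (h j) := rfl
  rw [e1, ← hUV, e2, mul_pow (X * E)]
  ring

theorem M_abs (L : LiftData p π φ) (m : ℕ) (hpm : p = 6 * m + 1)
    (U V W f : Polynomial A) (c1 κ : A)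
    (hI1 : V ^ 6 - Polynomial.C κ * U ^ 3 = f * W ^ 2)
    (hI2 : Polynomial.derivative U * V - 2 * U * Polynomial.derivative V = Polynomial.C c1 * W)
    (hκ : φ κ = κ) (hc1 : φ c1 = c1) (hκu : IsUnit κ) (hc1u : IsUnit c1)
    (hU0 : U.coeff 0 = 0) (hV0 : V.coeff 0 = 1) (hW0 : W.coeff 0 = 1) (hU1 : U.coeff 1 = c1)
    (hW6 : IsUnit (W.coeff 6))
    (dW : W.natDegree ≤ 6) (dU : U.natDegree ≤ 5) (dV : V.natDegree ≤ 2) (df : f.natDegree ≤ 3)
    (hUV : IsCoprime U V)
    (h h0 : A⟦X⟧) (hh : h ^ 2 * (f : A⟦X⟧) = 1) (hhc : constantCoeff h = 1)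
    (hh0 : h0 ^ 2 * (1 - C κ * X ^ 3) = 1) (hh0c : constantCoeff h0 = 1)
    (qκ γ0 u0 ui : A) (s : ℕ → A) (huk : π u0 * π ui = 1)
    (hq : κ ^ p - κ = p * (κ * qκ))
    (hs : ∀ j ∈ Finset.range (3 * m + 1), j ≠ 2 * m → s j * (3 * (j : A) + 1) = (Nat.choose (3 * m) j : A) * (-1) ^ j)
    (hn : π (ui * (Nat.choose (3 * m) (2 * m) : A) * (-κ) ^ (2 * m)) = 1)
    (hbr : π (-qκ + 3 * (κ ^ (2 * m) * ui * ∑ j ∈ (Finset.range (3 * m + 1)).erase (2 * m), s j + γ0)) = 0)
    (M : ℕ)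
    (hS : ∀ i : ℕ, 1 ≤ i → i ≤ M → ∃ z, coeff (i * p - 1) h0 =
      (i : A) * p * (φ (coeff (i - 1) h0) * (u0 * γ0)) + u0 * φ (coeff (i - 1) h0) + p ^ 2 * z) :
    ∃ γ : A, ∀ j : ℕ, 1 ≤ j → j ≤ M → ∃ z, coeff (j * p - 1) h = u0 * (1 + j * p * γ) * φ (coeff (j - 1) h) + p ^ 2 * z := by
  have hp : p.Prime := Fact.out
  have hp0 : p ≠ 0 := hp.ne_zero
  have hp2 : p ≠ 2 := by omega
  have hm : 1 ≤ m := by
    rcases Nat.eq_zero_or_pos m with rfl | h0
    · exfalso; rw [hpm] at hp; exact absurd hp (by norm_num)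
    · exact h0
  have h2u : IsUnit (2 : A) := by
    have := L.unit 2 (fun h => by have := Nat.le_of_dvd (by norm_num) h; omega)
    simpa using this
  have h3u : IsUnit (3 : A) := by
    have := L.unit 3 (fun h => by have := Nat.le_of_dvd (by norm_num) h; omega)
    simpa using this
  obtain ⟨α, hα, dα, hα', hα0⟩ := poly_lift L U
  obtain ⟨δ, hδ, dδ, hδ', -⟩ := poly_lift L V
  obtain ⟨μ, hμ, -, -, -⟩ := poly_lift L W
  set hc : ℕ → A := fun j => if j = 2 * m then γ0 else ui * s j * κ ^ j with hhc'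
  have hhc1 : ∀ j ∈ Finset.range (3 * m + 1), j ≠ 2 * m → hc j = ui * s j * κ ^ j := by
    intro j _ hj; simp only [hhc', if_neg hj]
  have hhc2 : hc (2 * m) = γ0 := by simp [hhc']
  have hcopUV : IsCoprime (U.map π) (V.map π) := by
    obtain ⟨a, b, hab⟩ := hUV
    refine ⟨a.map π, b.map π, ?_⟩
    rw [← Polynomial.map_mul, ← Polynomial.map_mul, ← Polynomial.map_add, hab, Polynomial.map_one]
  have hcopUW : IsCoprime (U.map π) (W.map π) := by
    obtain ⟨x, y, hxy⟩ := (hUV.pow (m := 1) (n := 6))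
    have : IsCoprime U W := ⟨x + y * Polynomial.C κ * U ^ 2, y * f * W, by linear_combination hxy - y * hI1⟩
    obtain ⟨a, b, hab⟩ := this
    refine ⟨a.map π, b.map π, ?_⟩
    rw [← Polynomial.map_mul, ← Polynomial.map_mul, ← Polynomial.map_add, hab, Polynomial.map_one]
  have hcopWW : IsCoprime (W.map π) (Polynomial.derivative (W.map π)) := by
    obtain ⟨a, b, hab⟩ := cop_WW' U V W f c1 κ hI1 hI2 hW0 h3u hκu hc1u hUV
    refine ⟨a.map π, b.map π, ?_⟩
    rw [Polynomial.derivative_map, ← Polynomial.map_mul, ← Polynomial.map_mul, ← Polynomial.map_add, hab, Polynomial.map_one]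
  have hWN := E2 L m hpm U V W f α δ μ κ qκ γ0 ui hc s hI1 hκ hq hα hδ hμ hW0 hκu hcopUW hhc1 hhc2 hbr
  have hhk : ∀ j ∈ Finset.range (3 * m + 1), j ≠ 2 * m →
      π (hc j) * (3 * (j : k) + 1) = π ui * (Nat.choose (3 * m) j : k) * (-(π κ)) ^ j := by
    intro j hj hj2
    have h1 := congrArg π (hs j hj hj2)
    simp only [map_mul, map_add, map_ofNat, map_natCast, map_one, map_pow, map_neg] at h1
    rw [hhc1 j hj hj2, map_mul, map_mul, map_pow, neg_pow (π κ)]
    linear_combination (π ui * π κ ^ j) * h1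
  have hnk : π ui * (Nat.choose (3 * m) (2 * m) : k) * (-(π κ)) ^ (2 * m) = 1 := by
    rw [← hn]; simp only [map_mul, map_natCast, map_pow, map_neg]
  have hc1k : (π c1) ^ p = π c1 := by rw [← L.frob, hc1]
  have mapd : ∀ P : Polynomial A, (FrP p φ P).map π = (P.map π) ^ p := fun P => map_FrP L P
  obtain ⟨K, γk, hKd, hKc, hNB⟩ := E1 p m hpm (U.map π) (V.map π) (W.map π) (f.map π) (α.map π) (δ.map π)
    (fun j => π (hc j)) (π c1) (π κ) (π ui)
    (by rw [Polynomial.derivative_map, hα', Polynomial.derivative_map]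
        simp only [Polynomial.map_sub, Polynomial.map_mul, Polynomial.map_pow, Polynomial.map_X, mapd])
    (by rw [Polynomial.derivative_map, hδ', Polynomial.derivative_map]
        simp only [Polynomial.map_sub, Polynomial.map_mul, Polynomial.map_pow, Polynomial.map_X, mapd])
    (by have := congrArg (Polynomial.map π) hI1
        simpa only [Polynomial.map_sub, Polynomial.map_mul, Polynomial.map_pow, Polynomial.map_C] using this)
    (by have := congrArg (Polynomial.map π) hI2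
        simpa only [Polynomial.map_sub, Polynomial.map_mul, Polynomial.map_pow, Polynomial.map_C,
          ← Polynomial.derivative_map, Polynomial.map_ofNat] using this)
    hhk hnk hc1k (hc1u.map π) hWN
    (by rw [Polynomial.coeff_map, hW0, map_one]) (by rw [Polynomial.coeff_map, hU0, map_zero])
    (by rw [Polynomial.coeff_map, hα0 hU0, map_zero]) (by rw [Polynomial.coeff_map]; exact hW6.map π)
    (Polynomial.natDegree_map_le.trans dW) (Polynomial.natDegree_map_le.trans dU)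
    (Polynomial.natDegree_map_le.trans dV) (Polynomial.natDegree_map_le.trans df)
    (Polynomial.natDegree_map_le.trans (dα.trans (Nat.mul_le_mul_right p dU)))
    (Polynomial.natDegree_map_le.trans (dδ.trans (Nat.mul_le_mul_right p dV)))
    hcopWW
  obtain ⟨γ, rfl⟩ := L.surj γk
  obtain ⟨E, Ei, hE, hE1, hE2, hch⟩ := exists_E U V W f c1 κ h2u hI1 hI2 hU0 hV0 hW0 hU1 hc1u h h0 hh hhc hh0 hh0c
  obtain ⟨θ1, hθ⟩ := ps_lift L hp0 E
  set H0 : A⟦X⟧ := ((Hpoly hc m : Polynomial A) : A⟦X⟧) with hH0d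
  set B : A⟦X⟧ := X ^ p * θ1 + H0.subst (X * E) with hBd
  have hmapc : ∀ P : Polynomial A, PowerSeries.map π (P : A⟦X⟧) = ((P.map π : Polynomial k) : k⟦X⟧) := fun P =>
    (Polynomial.polynomial_map_coe).symm
  -- B mod p
  have hBk : PowerSeries.map π B = (PowerSeries.map π (d⁄dX A (X * E))) ^ p *
      (((K + Polynomial.C (π γ) * Polynomial.X ^ p : Polynomial k)) : k⟦X⟧) := by
    have hVu : IsUnit ((PowerSeries.map π (V : A⟦X⟧)) ^ (3 * p)) := by
      apply IsUnit.pow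
      exact (isUnit_of_coeff (V : A⟦X⟧) (by simp [hV0])).map (PowerSeries.map π)
    apply hVu.mul_right_cancel
    have h1 := theta_id L hp0 U V α δ E θ1 hα hδ hE1 hθ
    have h2 := congrArg (PowerSeries.map π) (H0_rho m hpm U V E hc hE1)
    rw [← hH0d, map_mul, map_pow] at h2
    have h3 : PowerSeries.map π B * (PowerSeries.map π (V : A⟦X⟧)) ^ (3 * p) =
        (((α.map π) * (V.map π) ^ p - 2 * (U.map π) ^ p * (δ.map π) +
          Ssum (U.map π) (V.map π) (fun j => Polynomial.C (π (hc j))) m : Polynomial k) : k⟦X⟧) := by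
      rw [hBd, map_add, add_mul, h1, h2]
      rw [hmapc α, hmapc V, hmapc U, hmapc δ, hmapc]
      rw [Polynomial.coe_add, Polynomial.coe_sub, Polynomial.coe_mul, Polynomial.coe_mul, Polynomial.coe_mul,
        Polynomial.coe_pow, Polynomial.coe_pow, two_coe]
      congr 2
      simp only [Ssum, Polynomial.map_sum, Polynomial.map_mul, Polynomial.map_pow, Polynomial.map_C]
    rw [h3, hNB]
    have h4 := congrArg (fun q => (PowerSeries.map π q) ^ p) hE2
    simp only [map_mul, map_pow, PowerSeries.map_C] at h4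
    rw [Polynomial.coe_mul, Polynomial.coe_mul, Polynomial.coe_C, Polynomial.coe_pow, ← hmapc W]
    have h5 : (C (π c1) : k⟦X⟧) ^ p = C (π c1) := by rw [← map_pow, hc1k]
    rw [mul_pow, mul_pow, h5, ← pow_mul] at h4
    rw [← h4]; ring
  -- h mod p
  have hhk2 : PowerSeries.map π h = ((((f.map π) ^ (3 * m) : Polynomial k)) : k⟦X⟧) * (PowerSeries.map π h) ^ p := by
    rw [Polynomial.coe_pow, ← hmapc]
    apply h_charp _ _ _ _ (by omega)
    rw [← map_pow, ← map_mul, hh, map_one]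
  have hh0k : PowerSeries.map π h0 = ((((1 - Polynomial.C (π κ) * Polynomial.X ^ 3) ^ (3 * m) : Polynomial k)) : k⟦X⟧)
      * (PowerSeries.map π h0) ^ p := by
    rw [Polynomial.coe_pow]
    apply h_charp _ _ _ _ (by omega)
    have := congrArg (PowerSeries.map π) hh0
    simp only [map_mul, map_pow, map_sub, map_one, PowerSeries.map_C, PowerSeries.map_X] at this
    simpa using this
  refine ⟨γ, ?_⟩
  apply chain_all L hp0 E Ei h h0 c1 u0 γ M hE hc1 hc1u hch
  intro i hi hiM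
  apply chain_step L hp0 E Ei θ1 h h0 H0 B c1 u0 γ0 γ hE hθ hch hBd i hi ?_ ?_ (hS i hi hiM)
  · -- hBk
    have h1 : π (coeff ((i + 1) * p - 1) (h * B * Ei ^ ((i + 1) * p))) =
        coeff ((i + 1) * p - 1) (PowerSeries.map π (h * B * Ei ^ ((i + 1) * p))) := by
      rw [coeff_map]
    rw [h1, map_mul (PowerSeries.map π), map_mul (PowerSeries.map π), hBk, map_pow (PowerSeries.map π) Ei]
    have h2 : PowerSeries.map π h * (PowerSeries.map π (d⁄dX A (X * E)) ^ p *
        ((K + Polynomial.C (π γ) * Polynomial.X ^ p : Polynomial k) : k⟦X⟧)) * PowerSeries.map π Ei ^ ((i + 1) * p)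
        = (((f.map π) ^ (3 * m) * (K + Polynomial.C (π γ) * Polynomial.X ^ p) : Polynomial k) : k⟦X⟧) *
          (PowerSeries.map π (h * d⁄dX A (X * E) * Ei ^ (i + 1))) ^ p := by
      rw [Polynomial.coe_mul, map_mul (PowerSeries.map π), map_mul (PowerSeries.map π), map_pow (PowerSeries.map π) Ei,
        mul_pow, mul_pow, ← pow_mul]
      conv_lhs => rw [hhk2]
      ring
    rw [h2, coeff_key hp2 _ K (π u0) (π ui) (π γ) huk (by rw [hKd]) hKc _ i hi]
    rw [coeff_map, map_mul π, L.frob, map_mul π u0]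
  · have h1 : π (coeff ((i + 1) * p - 1) (h0 * H0)) =
        coeff ((i + 1) * p - 1) (PowerSeries.map π (h0 * H0)) := by rw [coeff_map]
    set K0 : Polynomial k := Hpoly (fun j => π (hc j)) m - Polynomial.C (π γ0) * Polynomial.X ^ p with hK0
    have hK0d : Polynomial.derivative K0 = Polynomial.C (π ui) * (1 - Polynomial.C (π κ) * Polynomial.X ^ 3) ^ (3 * m)
        - Polynomial.X ^ (p - 1) := by
      have h5 := Ssum_deriv p m hpm (Polynomial.X : Polynomial k) 1 1 (fun j => π (hc j)) 1 (π κ) (π ui) (by simp) hhk hnk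
      have h6 : Ssum (Polynomial.X : Polynomial k) 1 (fun j => Polynomial.C (π (hc j))) m = Hpoly (fun j => π (hc j)) m := by
        unfold Ssum Hpoly; simp
      rw [h6] at h5
      rw [hK0, Polynomial.derivative_sub, h5, Polynomial.derivative_C_mul, Polynomial.derivative_pow, CharP.cast_eq_zero k p]
      have : p - 1 = 6 * m := by omega
      rw [this]; simp
    have hK0c : ∀ n, p ∣ n → K0.coeff n = 0 := by
      intro n hn
      rw [hK0, Polynomial.coeff_sub, Polynomial.coeff_C_mul, Polynomial.coeff_X_pow]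
      unfold Hpoly
      rw [Polynomial.finsetSum_coeff]
      simp only [Polynomial.coeff_C_mul, Polynomial.coeff_X_pow]
      rw [Finset.sum_eq_single (2 * m)]
      · have e1 : (n = 3 * (2 * m) + 1) ↔ (n = p) := by omega
        simp only [hhc2, e1, sub_self]
      · intro b hb hb2
        have hb' := Finset.mem_range.1 hb
        rw [if_neg, mul_zero]
        intro hnb
        obtain ⟨l, hl⟩ := hn
        rcases Nat.lt_or_ge l 1 with h1 | h1
        · have : l = 0 := by omega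
          subst this; omega
        rcases Nat.lt_or_ge l 2 with h2 | h2
        · have : l = 1 := by omega
          subst this; omega
        · have : p * 2 ≤ p * l := Nat.mul_le_mul_left p h2
          omega
      · intro h; exact absurd (Finset.mem_range.2 (by omega)) h
    have h2 : PowerSeries.map π (h0 * H0) =
        (((1 - Polynomial.C (π κ) * Polynomial.X ^ 3) ^ (3 * m) * (K0 + Polynomial.C (π γ0) * Polynomial.X ^ p) : Polynomial k) : k⟦X⟧) *
          (PowerSeries.map π h0) ^ p := by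
      have e1 : PowerSeries.map π H0 = ((K0 + Polynomial.C (π γ0) * Polynomial.X ^ p : Polynomial k) : k⟦X⟧) := by
        rw [hH0d, hmapc]; congr 1
        rw [hK0, sub_add_cancel]
        simp only [Hpoly, Polynomial.map_sum, Polynomial.map_mul, Polynomial.map_pow, Polynomial.map_C, Polynomial.map_X]
      rw [map_mul, e1, Polynomial.coe_mul]
      conv_lhs => rw [hh0k]
      ring
    rw [h1, h2, coeff_key hp2 _ K0 (π u0) (π ui) (π γ0) huk (by rw [hK0d]) hK0c _ i hi]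
    rw [coeff_map, map_mul π, L.frob, map_mul π u0]

end Pool.Agent.Lib.MP_748296_nt.H2
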