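import Mathlib

/-! The sums `S1`, `S2` over `ℚ` and their `p`-adic versions. -/

namespace Pool.Agent.Lib.MP_748296_nt.H2

open Finset

/-- `binom(a,k) = a (a-1) ... (a-k+1) / k!` -/
def gb (a : ℚ) (k : ℕ) : ℚ := (∏ i ∈ range k, (a - i)) / (k.factorial : ℚ)

/-- `S_1(p)` -/
def S1 (p : ℕ) : ℚ := ∑ k ∈ range p, gb (-1 / 3) k * gb (-1 / 6) k * (1 / (-80) ^ k)

/-- `S_2(p)` -/
def S2 (p : ℕ) : ℚ := ∑ k ∈ range p, gb (-2 / 3) k * gb (-5 / 6) k * (1 / (-80) ^ k)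

variable (p : ℕ) [Fact p.Prime]

theorem rat_int (y : ℚ) (t : ℤ_[p]) (h : (y : ℚ_[p]) = t) : ∃ c d : ℤ, ¬ (p : ℤ) ∣ d ∧ y * d = c := by
  refine ⟨y.num, y.den, ?_, by exact_mod_cast Rat.mul_den_eq_num y⟩
  intro hd
  have h1 : (y.num : ℤ_[p]) = t * ((y.den : ℤ) : ℤ_[p]) := by
    apply Subtype.ext
    push_cast
    rw [← h]
    have := Rat.mul_den_eq_num y
    have h2 := congrArg (fun q : ℚ => (q : ℚ_[p])) this
    push_cast at h2
    exact h2.symm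
  have h2 : (p : ℤ_[p]) ^ 1 ∣ ((y.den : ℤ) : ℤ_[p]) := by
    rw [PadicInt.pow_p_dvd_int_iff, pow_one]; exact hd
  have h3 : (p : ℤ_[p]) ^ 1 ∣ (y.num : ℤ_[p]) := by rw [h1]; exact Dvd.dvd.mul_left h2 _
  rw [PadicInt.pow_p_dvd_int_iff, pow_one] at h3
  have h4 : p ∣ y.num.natAbs := Int.natCast_dvd.1 h3
  have h5 : p ∣ y.den := by exact_mod_cast hd
  have h6 := Nat.dvd_gcd h4 h5
  rw [y.reduced] at h6
  have hp : p.Prime := Fact.out
  exact hp.one_lt.ne' (Nat.dvd_one.1 h6)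

theorem coe_prod' (s : Finset ℕ) (f : ℕ → ℤ_[p]) : ((∏ i ∈ s, f i : ℤ_[p]) : ℚ_[p]) = ∏ i ∈ s, (f i : ℚ_[p]) :=
  map_prod (PadicInt.Coe.ringHom (p := p)) f s

theorem unit_nat (l : ℕ) (hl : ¬ p ∣ l) : IsUnit (l : ℤ_[p]) := by
  rw [PadicInt.isUnit_iff]
  have h2 := (PadicInt.norm_int_lt_one_iff_dvd (p := p) (l : ℤ))
  have h3 : ¬ ‖((l : ℤ) : ℤ_[p])‖ < 1 := by
    rw [h2]; exact_mod_cast hl
  have h4 : ‖((l : ℤ) : ℤ_[p])‖ ≤ 1 := PadicInt.norm_le_one _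
  have h5 : ‖((l : ℤ) : ℤ_[p])‖ = 1 := le_antisymm h4 (not_lt.1 h3)
  exact_mod_cast h5

theorem exists_terms (hp5 : 5 < p) : ∃ (a1 a2 : ℕ → ℤ_[p]) (w : ℤ_[p]), 80 * w = -1 ∧
    (∀ k < p, a1 k * (18 ^ k * (k.factorial : ℤ_[p]) ^ 2) = ∏ i ∈ range k, ((3 * (i : ℤ_[p]) + 1) * (6 * (i : ℤ_[p]) + 1))) ∧
    (∀ k < p, a2 k * (18 ^ k * (k.factorial : ℤ_[p]) ^ 2) = ∏ i ∈ range k, ((3 * (i : ℤ_[p]) + 2) * (6 * (i : ℤ_[p]) + 5))) ∧
    ((∑ k ∈ range p, a1 k * w ^ k : ℤ_[p]) : ℚ_[p]) = (S1 p : ℚ_[p]) ∧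
    ((∑ k ∈ range p, a2 k * w ^ k : ℤ_[p]) : ℚ_[p]) = (S2 p : ℚ_[p]) := by
  have hp : p.Prime := Fact.out
  have hu : ∀ k, ∃ t : ℤ_[p], k < p → (18 ^ k * (k.factorial : ℤ_[p]) ^ 2) * t = 1 := by
    intro k
    by_cases hk : k < p
    · have h1 : ¬ p ∣ 18 ^ k * k.factorial ^ 2 := by
        intro h
        rcases (Nat.Prime.dvd_mul hp).1 h with h | h
        · have h2 := hp.dvd_of_dvd_pow h
          have h3 : p ∣ 2 * 3 ^ 2 := by simpa using h2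
          rcases (Nat.Prime.dvd_mul hp).1 h3 with h | h
          · have := Nat.le_of_dvd (by norm_num) h; omega
          · have := Nat.le_of_dvd (by norm_num) (hp.dvd_of_dvd_pow h); omega
        · have h2 := hp.dvd_of_dvd_pow h
          have := hp.dvd_factorial.1 h2
          omega
      obtain ⟨t, ht⟩ := (unit_nat p _ h1).exists_right_inv
      exact ⟨t, fun _ => by push_cast at ht; exact ht⟩
    · exact ⟨0, fun h => absurd h hk⟩
  choose t ht using hu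
  obtain ⟨w0, hw0⟩ := (unit_nat p 80 (by
    intro h
    have h3 : p ∣ 2 ^ 4 * 5 := by simpa using h
    rcases (Nat.Prime.dvd_mul hp).1 h3 with h | h
    · have := Nat.le_of_dvd (by norm_num) (hp.dvd_of_dvd_pow h); omega
    · have := Nat.le_of_dvd (by norm_num) h; omega)).exists_right_inv
  push_cast at hw0
  have ha : ∀ (F : ℕ → ℤ_[p]), ∀ k < p, (F k * t k) * (18 ^ k * (k.factorial : ℤ_[p]) ^ 2) = F k := by
    intro F k hk
    linear_combination (F k) * ht k hk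
  have hsum : ∀ (F : ℕ → ℤ_[p]) (G : ℕ → ℚ), (∀ k < p, ((F k : ℤ_[p]) : ℚ_[p]) = ((G k * (18 ^ k * (k.factorial : ℚ) ^ 2) : ℚ) : ℚ_[p])) →
      ((∑ k ∈ range p, (F k * t k) * (-w0) ^ k : ℤ_[p]) : ℚ_[p]) = ((∑ k ∈ range p, G k * (1 / (-80) ^ k) : ℚ) : ℚ_[p]) := by
    intro F G hFG
    rw [PadicInt.coe_sum]
    push_cast
    apply Finset.sum_congr rfl
    intro k hk
    have hk' := Finset.mem_range.1 hk
    have h1 := hFG k hk'
    have h2 := congrArg (fun z : ℤ_[p] => (z : ℚ_[p])) (ht k hk')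
    have h3 := congrArg (fun z : ℤ_[p] => (z : ℚ_[p])) hw0
    push_cast at h1 h2 h3
    have h18 : ((18 : ℤ_[p]) : ℚ_[p]) = 18 := rfl
    rw [h18] at h2
    have h5 : (80 : ℚ_[p]) * (w0 : ℚ_[p]) = 1 := h3
    have h6 : (1 : ℚ_[p]) / (-80) ^ k = (-(w0 : ℚ_[p])) ^ k := by
      have h7 : (-(w0 : ℚ_[p])) ^ k * (-80) ^ k = 1 := by
        rw [← mul_pow]
        have : -(w0 : ℚ_[p]) * -80 = 1 := by linear_combination h5
        rw [this, one_pow]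
      have h8 : ((-80 : ℚ_[p])) ^ k ≠ 0 := pow_ne_zero _ (by norm_num)
      field_simp
      linear_combination -h7
    rw [h6, h1]
    linear_combination ((G k : ℚ_[p]) * (-(w0 : ℚ_[p])) ^ k) * h2
  refine ⟨fun k => (∏ i ∈ range k, ((3 * (i : ℤ_[p]) + 1) * (6 * (i : ℤ_[p]) + 1))) * t k,
    fun k => (∏ i ∈ range k, ((3 * (i : ℤ_[p]) + 2) * (6 * (i : ℤ_[p]) + 5))) * t k, -w0,
    by linear_combination -hw0, ha _, ha _, ?_, ?_⟩
  · apply hsum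
    intro k hk
    have e : gb (-1 / 3) k * gb (-1 / 6) k * (18 ^ k * (k.factorial : ℚ) ^ 2) =
        ∏ i ∈ range k, ((3 * (i : ℚ) + 1) * (6 * (i : ℚ) + 1)) := by
      have hf : (k.factorial : ℚ) ≠ 0 := by exact_mod_cast k.factorial_ne_zero
      unfold gb
      have e1 : ∏ i ∈ range k, ((3 * (i : ℚ) + 1) * (6 * (i : ℚ) + 1)) =
          (∏ i ∈ range k, (-1 / 3 - (i : ℚ))) * (∏ i ∈ range k, (-1 / 6 - (i : ℚ))) * 18 ^ k := by
        have : (18 : ℚ) ^ k = ∏ i ∈ range k, (18 : ℚ) := by simp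
        rw [this, ← Finset.prod_mul_distrib, ← Finset.prod_mul_distrib]
        apply Finset.prod_congr rfl
        intro i _; ring
      rw [e1]; field_simp
    rw [e, coe_prod' p]; push_cast; rfl
  · apply hsum
    intro k hk
    have e : gb (-2 / 3) k * gb (-5 / 6) k * (18 ^ k * (k.factorial : ℚ) ^ 2) =
        ∏ i ∈ range k, ((3 * (i : ℚ) + 2) * (6 * (i : ℚ) + 5)) := by
      have hf : (k.factorial : ℚ) ≠ 0 := by exact_mod_cast k.factorial_ne_zero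
      unfold gb
      have e1 : ∏ i ∈ range k, ((3 * (i : ℚ) + 2) * (6 * (i : ℚ) + 5)) =
          (∏ i ∈ range k, (-2 / 3 - (i : ℚ))) * (∏ i ∈ range k, (-5 / 6 - (i : ℚ))) * 18 ^ k := by
        have : (18 : ℚ) ^ k = ∏ i ∈ range k, (18 : ℚ) := by simp
        rw [this, ← Finset.prod_mul_distrib, ← Finset.prod_mul_distrib]
        apply Finset.prod_congr rfl
        intro i _; ring
      rw [e1]; field_simp
    rw [e, coe_prod' p]; push_cast; rfl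

end Pool.Agent.Lib.MP_748296_nt.H2
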