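import Pool.Agent.Lib.MP_748296_nt.H2.Scal
import Pool.Agent.Lib.MP_748296_nt.H2.Inst
import Pool.Agent.Lib.MP_748296_nt.H2.Rat

/-! The case `p ≡ 1 (mod 3)`. -/

namespace Pool.Agent.Lib.MP_748296_nt.H2

open Finset

theorem map_bcoef {R S : Type} [CommRing R] [CommRing S] (f : R →+* S) (lam : R) (m : ℕ) :
    f (bcoef R lam m) = bcoef S (f lam) m := by
  unfold bcoef
  rw [map_sum]
  apply Finset.sum_congr rfl
  intro k _
  have h3 : f 3 = 3 := map_ofNat f 3
  split_ifs <;> simp [h3]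

theorem bcoef_one {R : Type} [CommRing R] (lam : R) : bcoef R lam 1 = 1 := by simp [bcoef]
theorem bcoef_two {R : Type} [CommRing R] (lam : R) : bcoef R lam 2 = 3 := by
  simp [bcoef, Finset.sum_range_succ]
theorem bcoef_four {R : Type} [CommRing R] (lam : R) : bcoef R lam 4 = 27 + 2 * lam := by
  simp [bcoef, Finset.sum_range_succ]; norm_num

/-- final algebra modulo `p^2` -/
theorem final_alg {B : Type} [CommRing B] (P U Γ T M lam lp lamφ S2 ε : B) (hP : P ^ 2 = 0)
    (h2u : IsUnit (2 : B)) (h3u : IsUnit (3 : B)) (hz : IsUnit (2 * lam - 1))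
    (e1 : T + M = U * (1 + P * Γ)) (e2 : 3 * (T + 2 * M) = U * (1 + 2 * P * Γ) * 3)
    (e4 : 27 * (T + 4 * M) + 2 * lp * (T + M) = U * (1 + 4 * P * Γ) * (27 + 2 * lamφ))
    (hS2 : (2 * lam - 1) * S2 = (2 * lp - 1) * T - 6 * lp * M) (hφ : 2 * lamφ - 1 = ε * (2 * lam - 1)) :
    T = U ∧ S2 = ε * U := by
  have h3 : T + 2 * M = U * (1 + 2 * P * Γ) := by
    apply h3u.mul_left_cancel; rw [e2]; ring
  have hM : M = U * P * Γ := by linear_combination h3 - e1
  have hT : T = U := by linear_combination 2 * e1 - h3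
  refine ⟨hT, ?_⟩
  have h5 : lp * U * (1 + P * Γ) = U * (1 + 4 * P * Γ) * lamφ := by
    apply h2u.mul_left_cancel
    rw [hM, hT] at e4
    linear_combination e4
  have h6 : lp * U * (1 - 3 * P * Γ) = U * lamφ := by
    linear_combination (1 - 4 * P * Γ) * h5 + (4 * lp * U * Γ ^ 2 - 16 * U * Γ ^ 2 * lamφ) * hP
  apply hz.mul_left_cancel
  rw [hS2, hM, hT]
  linear_combination 2 * h6 + U * hφ

variable (p : ℕ) [Fact p.Prime]

theorem unit_AA (hp5 : 5 < p) (l : ℕ) (hl : ¬ p ∣ l) : IsUnit (l : AA p) := (liftA p hp5).unit l hl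

theorem eps_sq (hp5 : 5 < p) : (legendreSym p 5) ^ 2 = 1 := by
  apply legendreSym.sq_one
  intro h
  have h1 : ((5 : ℕ) : ZMod p) = 0 := by exact_mod_cast h
  rw [ZMod.natCast_eq_zero_iff] at h1
  have := Nat.le_of_dvd (by norm_num) h1
  omega

theorem one_B (hA3 : A3Statement) (hA4 : A4Statement) (hA5 : A5Statement) (hC1 : C1Statement) (hC2 : C2Statement)
    (hH : HStatement) (hp5 : 5 < p) (m : ℕ) (hpm : p = 6 * m + 1) (a1 a2 : ℕ → ℤ_[p]) (w : ℤ_[p]) (hw : 80 * w = -1)
    (h1 : ∀ k < p, a1 k * (18 ^ k * (k.factorial : ℤ_[p]) ^ 2) = ∏ i ∈ range k, ((3 * (i : ℤ_[p]) + 1) * (6 * (i : ℤ_[p]) + 1)))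
    (h2 : ∀ k < p, a2 k * (18 ^ k * (k.factorial : ℤ_[p]) ^ 2) = ∏ i ∈ range k, ((3 * (i : ℤ_[p]) + 2) * (6 * (i : ℤ_[p]) + 5))) :
    ∃ u0 : AA p, (∃ z, u0 * (3 * 5 ^ (2 * m)) = (Nat.choose (2 * (2 * m)) (2 * m) : AA p) * (2 + 5 ^ (p - 1)) + p ^ 2 * z) ∧
      Ideal.Quotient.mk (Ideal.span {(p : AA p) ^ 2}) (algebraMap ℤ_[p] (AA p) (∑ k ∈ range p, a1 k * w ^ k)) =
        Ideal.Quotient.mk (Ideal.span {(p : AA p) ^ 2}) u0 ∧
      Ideal.Quotient.mk (Ideal.span {(p : AA p) ^ 2}) (algebraMap ℤ_[p] (AA p) (∑ k ∈ range p, a2 k * w ^ k)) =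
        Ideal.Quotient.mk (Ideal.span {(p : AA p) ^ 2}) ((legendreSym p 5 : AA p) * u0) := by
  have hp : p.Prime := Fact.out
  have L := liftA p hp5
  set φ := phiA p (legendreSym p 5) (eps_sq p hp5) with hφd
  have hun : ∀ l : ℕ, 0 < l → l < p → IsUnit (l : AA p) := fun l h0 h1 =>
    L.unit l (fun h => by have := Nat.le_of_dvd h0 h; omega)
  have h2u : IsUnit (2 : AA p) := by simpa using hun 2 (by omega) (by omega)
  have h3u : IsUnit (3 : AA p) := by simpa using hun 3 (by omega) (by omega)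
  have h5u : IsUnit (5 : AA p) := by simpa using hun 5 (by omega) (by omega)
  obtain ⟨i2, hi2⟩ := h2u.exists_right_inv
  obtain ⟨i5, hi5⟩ := h5u.exists_right_inv
  set r : AA p := ⟨0, 1⟩ with hr
  have hr2 : r ^ 2 = 5 := by rw [pow_two]; ext <;> simp [hr, QuadraticAlgebra.re_ofNat, QuadraticAlgebra.im_ofNat]
  have hφr : φ r = (legendreSym p 5 : AA p) * r := by
    ext <;> simp [hφd, hr, phiA]
  obtain ⟨γ, u0, hu0, hM⟩ := M_conc hA3 hA4 hA5 hC1 hC2 L hp5 m hpm r i2 i5 hr2 hi2 hi5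
  set lam : AA p := i2 ^ 3 * i5 * (20 + 9 * r) with hlam
  have hlam40 : 40 * lam = 20 + 9 * r := by
    have e8 : (8 : AA p) * i2 ^ 3 = 1 := by linear_combination (4 * i2 ^ 2 + 2 * i2 + 1) * hi2
    rw [hlam]
    linear_combination ((20 + 9 * r) * 5 * i5) * e8 + (20 + 9 * r) * hi5
  clear_value lam
  have hz20 : 20 * (2 * lam - 1) = 9 * r := by linear_combination hlam40
  have hφz : 2 * φ lam - 1 = (legendreSym p 5 : AA p) * (2 * lam - 1) := by
    apply nsmul_cancel (A := AA p) 20 (by norm_num)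
    have e := congrArg φ hz20
    simp only [map_mul, map_sub, map_ofNat, map_one, hφr] at e
    push_cast
    linear_combination e - (legendreSym p 5 : AA p) * hz20
  have hru : IsUnit r := by
    have : r * (r * i5) = 1 := by linear_combination i5 * hr2 + hi5
    exact IsUnit.of_mul_eq_one _ this
  have hzu : IsUnit (2 * lam - 1) := by
    have h9 : IsUnit (9 * r) := by
      have : (9 : AA p) = 3 * 3 := by norm_num
      rw [this]; exact (h3u.mul h3u).mul hru
    rw [← hz20] at h9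
    exact isUnit_of_mul_isUnit_right h9
  have hw' : algebraMap ℤ_[p] (AA p) w = 4 * lam * (1 - lam) := by
    apply nsmul_cancel (A := AA p) 400 (by norm_num)
    have e := congrArg (algebraMap ℤ_[p] (AA p)) hw
    rw [map_mul, map_ofNat, map_neg, map_one] at e
    push_cast
    linear_combination 5 * e + (20 * (2 * lam - 1) + 9 * r) * hz20 + 81 * hr2
  set q := Ideal.Quotient.mk (Ideal.span {(p : AA p) ^ 2}) with hq
  set al := algebraMap ℤ_[p] (AA p) with hal
  have hB := ringP2_quot (A := AA p) L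
  obtain ⟨T, M, t1, t2, t4, s1, s2⟩ := hH p (2 * m) hp hp5 (by omega) (AA p ⧸ Ideal.span {(p : AA p) ^ 2}) hB (q lam)
    (fun k => q (al (a1 k))) (fun k => q (al (a2 k)))
    (by
      intro k hk
      have e := congrArg (fun x => q (al x)) (h1 k hk)
      simp only [map_mul, map_pow, map_ofNat, map_natCast, map_prod, map_add, map_one] at e
      exact e)
    (by
      intro k hk
      have e := congrArg (fun x => q (al x)) (h2 k hk)
      simp only [map_mul, map_pow, map_ofNat, map_natCast, map_prod, map_add, map_one] at e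
      exact e)
  have hMq : ∀ j : ℕ, 1 ≤ j → j ≤ 4 → bcoef (AA p ⧸ Ideal.span {(p : AA p) ^ 2}) (q lam) (j * p) =
      q u0 * (1 + (j : AA p ⧸ Ideal.span {(p : AA p) ^ 2}) * (p : AA p ⧸ Ideal.span {(p : AA p) ^ 2}) * q γ) *
        bcoef (AA p ⧸ Ideal.span {(p : AA p) ^ 2}) (q (φ lam)) j := by
    intro j hj hj4
    obtain ⟨z, hz⟩ := hM j hj hj4
    have e := congrArg q hz
    rw [map_bcoef, map_add, map_mul q (u0 * _), map_bcoef φ, map_bcoef q] at e
    rw [e]
    have e2 : q ((p : AA p) ^ 2 * z) = 0 := by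
      rw [map_mul, map_pow, map_natCast, hB.sq, zero_mul]
    rw [e2, add_zero]
    simp only [map_add, map_mul, map_one, map_natCast]
  have m1 := hMq 1 (by norm_num) (by norm_num)
  have m2 := hMq 2 (by norm_num) (by norm_num)
  have m4 := hMq 4 (by norm_num) (by norm_num)
  rw [bcoef_one, one_mul, t1] at m1
  rw [bcoef_two, t2] at m2
  rw [bcoef_four, t4] at m4
  have hfin := final_alg (p : AA p ⧸ Ideal.span {(p : AA p) ^ 2}) (q u0) (q γ) T M (q lam) (q lam ^ p) (q (φ lam))
    (∑ k ∈ range p, q (al (a2 k)) * (4 * q lam * (1 - q lam)) ^ k) (q (legendreSym p 5 : AA p)) hB.sq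
    (by have := h2u.map q; rwa [map_ofNat] at this) (by have := h3u.map q; rwa [map_ofNat] at this)
    (by have := hzu.map q; simpa only [map_sub, map_mul, map_ofNat, map_one] using this)
    (by linear_combination m1) (by push_cast at m2; linear_combination m2) (by push_cast at m4; linear_combination m4)
    s2
    (by have := congrArg q hφz
        simpa only [map_sub, map_mul, map_ofNat, map_one] using this)
  refine ⟨u0, hu0, ?_, ?_⟩
  · rw [← hfin.1, ← s1]
    rw [map_sum, map_sum]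
    apply Finset.sum_congr rfl
    intro k _
    rw [map_mul, map_pow, map_mul, map_pow, hw']
    simp only [map_mul, map_sub, map_ofNat, map_one]
  · rw [map_mul, ← hfin.2]
    rw [map_sum, map_sum]
    apply Finset.sum_congr rfl
    intro k _
    rw [map_mul, map_pow, map_mul, map_pow, hw']
    simp only [map_mul, map_sub, map_ofNat, map_one]

end Pool.Agent.Lib.MP_748296_nt.H2
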