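import Pool.Agent.Lib.MP_748296_nt.H2.MMain
import Pool.Agent.Lib.MP_748296_nt.H2.Curve
import Pool.Agent.Lib.MP_748296_nt.Interfaces

/-! Scalars; theorem (M) for the explicit curve. -/

namespace Pool.Agent.Lib.MP_748296_nt.H2

open PowerSeries

variable {A k : Type} [CommRing A] [IsAddTorsionFree A] [CommRing k] {p : ℕ} [Fact p.Prime] [CharP k p]
  {π : A →+* k} {φ : A →+* A}

theorem ringP2_quot (L : LiftData p π φ) : RingP2 p (A ⧸ Ideal.span {(p : A) ^ 2}) where
  sq := by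
    have : ((p : A ⧸ Ideal.span {(p : A) ^ 2})) ^ 2 = Ideal.Quotient.mk (Ideal.span {(p : A) ^ 2}) ((p : A) ^ 2) := by
      rw [map_pow, map_natCast]
    rw [this, Ideal.Quotient.eq_zero_iff_mem]
    exact Ideal.mem_span_singleton_self _
  unit l hl := by
    have := (L.unit l hl).map (Ideal.Quotient.mk (Ideal.span {(p : A) ^ 2}))
    simpa using this

theorem quot_eq (x y : A) (h : Ideal.Quotient.mk (Ideal.span {(p : A) ^ 2}) x = Ideal.Quotient.mk (Ideal.span {(p : A) ^ 2}) y) :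
    ∃ z, x = y + p ^ 2 * z := by
  rw [Ideal.Quotient.eq, Ideal.mem_span_singleton] at h
  obtain ⟨z, hz⟩ := h
  exact ⟨z, by rw [← hz]; ring⟩

/-- Fermat for a unit fixed by `φ`. -/
theorem fermat_fixed (L : LiftData p π φ) (g : A) (hg : IsUnit g) (hφ : φ g = g) :
    ∃ q, g ^ (p - 1) = 1 + p * q := by
  have hp : p.Prime := Fact.out
  have h1 : π (g ^ (p - 1) - 1) = 0 := by
    have h2 : π g ^ p = π g := by rw [← L.frob, hφ]
    have h3 : π g * (π g ^ (p - 1) - 1) = 0 := by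
      have : π g * π g ^ (p - 1) = π g ^ p := by
        rw [← pow_succ']; congr 1; have := hp.pos; omega
      rw [mul_sub, this, h2]; ring
    rw [map_sub, map_pow, map_one]
    exact ((hg.map π).mul_right_eq_zero).1 h3
  obtain ⟨q, hq⟩ := L.ker _ h1
  exact ⟨q, by rw [← hq]; ring⟩

theorem natDegree_f {R : Type} [CommRing R] (lam : R) :
    ((1 - 3 * Polynomial.X) ^ 2 - 4 * Polynomial.C lam * Polynomial.X ^ 3 : Polynomial R).natDegree ≤ 3 := by
  have : ((1 - 3 * Polynomial.X) ^ 2 - 4 * Polynomial.C lam * Polynomial.X ^ 3 : Polynomial R) =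
      Polynomial.C 1 - Polynomial.C 6 * Polynomial.X + Polynomial.C 9 * Polynomial.X ^ 2
        - Polynomial.C (4 * lam) * Polynomial.X ^ 3 := by
    simp only [map_mul, map_ofNat, map_one]; ring
  rw [this]
  compute_degree

theorem M_conc (hA3 : A3Statement) (hA4 : A4Statement) (hA5 : A5Statement) (hC1 : C1Statement) (hC2 : C2Statement)
    (L : LiftData p π φ) (hp5 : 5 < p) (m : ℕ) (hpm : p = 6 * m + 1)
    (r i2 i5 : A) (hr : r ^ 2 = 5) (h2 : 2 * i2 = 1) (h5 : 5 * i5 = 1) :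
    ∃ γ u0 : A, (∃ z, u0 * (3 * 5 ^ (2 * m)) = (Nat.choose (2 * (2 * m)) (2 * m) : A) * (2 + 5 ^ (p - 1)) + p ^ 2 * z) ∧
      ∀ j : ℕ, 1 ≤ j → j ≤ 4 → ∃ z, bcoef A (i2 ^ 3 * i5 * (20 + 9 * r)) (j * p) =
        u0 * (1 + j * p * γ) * φ (bcoef A (i2 ^ 3 * i5 * (20 + 9 * r)) j) + p ^ 2 * z := by
  have hp : p.Prime := Fact.out
  have hm : 1 ≤ m := by omega
  have h3u : IsUnit (3 : A) := by
    have := L.unit 3 (fun h => by have := Nat.le_of_dvd (by norm_num) h; omega)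
    simpa using this
  obtain ⟨i3, hi3⟩ := h3u.exists_right_inv
  have hφ5 : φ i5 = i5 := by
    have h1 := congrArg φ h5
    rw [map_mul, map_ofNat, map_one] at h1
    linear_combination (-φ i5) * h5 + i5 * h1
  have hφ2 : φ i2 = i2 := by
    have h1 := congrArg φ h2
    rw [map_mul, map_ofNat, map_one] at h1
    linear_combination (-φ i2) * h2 + i2 * h1
  have hi5u : IsUnit i5 := IsUnit.of_mul_eq_one_right _ h5
  have hi2u : IsUnit i2 := IsUnit.of_mul_eq_one_right _ h2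
  have h2u : IsUnit (2 : A) := IsUnit.of_mul_eq_one _ h2
  have h5u : IsUnit (5 : A) := IsUnit.of_mul_eq_one _ h5
  have h4u : IsUnit (4 : A) := by
    have : (4 : A) = 2 * 2 := by norm_num
    rw [this]; exact h2u.mul h2u
  -- Fermat quotients
  obtain ⟨b, hb⟩ := fermat_fixed L i5 hi5u hφ5
  obtain ⟨q4, hq4⟩ := fermat_fixed L (4 : A) h4u (map_ofNat φ 4)
  obtain ⟨q5, hq5⟩ := fermat_fixed L (5 : A) h5u (map_ofNat φ 5)
  obtain ⟨qκ, hqκ⟩ := fermat_fixed L (4 * i5) (h4u.mul hi5u) (by rw [map_mul, map_ofNat, hφ5])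
  set γ0 := i3 * b with hγ0
  have hγ : i5 ^ (p - 1) = 1 + 3 * p * γ0 := by rw [hb, hγ0]; linear_combination (-(p : A) * b) * hi3
  have hrel : qκ = q4 + 3 * γ0 + p * (3 * q4 * γ0) := by
    rw [mul_pow, hq4, hγ] at hqκ
    have h6 : (p : A) * (q4 + 3 * γ0 + p * (3 * q4 * γ0) - qκ) = 0 := by linear_combination hqκ
    have := p_ne_zero_smul hp.ne_zero h6
    linear_combination -this
  -- binomials
  set c := (Nat.choose (2 * (2 * m)) (2 * m) : A) with hc
  have hcu : IsUnit c := by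
    apply L.unit
    intro h
    have h1 : Nat.choose (2 * (2 * m)) (2 * m) ∣ (2 * (2 * m)).factorial := by
      rw [← Nat.choose_mul_factorial_mul_factorial (show 2 * m ≤ 2 * (2 * m) by omega), mul_assoc]
      exact dvd_mul_right _ _
    have h2 := (hp.dvd_factorial).1 (h.trans h1)
    omega
  set u0 := c * i5 ^ (2 * m) * (1 - p * γ0) with hu0
  obtain ⟨ui, hui⟩ := (hcu.mul (hi5u.pow (2 * m))).exists_right_inv
  have huk : π u0 * π ui = 1 := by
    have h1 := congrArg π hui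
    rw [map_one] at h1
    rw [← map_mul, ← h1]
    have : u0 * ui = c * i5 ^ (2 * m) * ui - p * (c * i5 ^ (2 * m) * γ0 * ui) := by rw [hu0]; ring
    rw [this, map_sub, map_mul π (p : A), map_natCast, CharP.cast_eq_zero]; ring
  -- the sequence s
  have hsex : ∀ j, ∃ t : A, (j ∈ Finset.range (3 * m + 1) ∧ j ≠ 2 * m) → t * (3 * (j : A) + 1) = (Nat.choose (3 * m) j : A) * (-1) ^ j := by
    intro j
    by_cases hj : j ∈ Finset.range (3 * m + 1) ∧ j ≠ 2 * m
    · have hj1 := Finset.mem_range.1 hj.1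
      have hnd : ¬ p ∣ 3 * j + 1 := by
        rintro ⟨l, hl⟩
        rcases Nat.lt_or_ge l 1 with h1 | h1
        · have : l = 0 := by omega
          subst this; omega
        rcases Nat.lt_or_ge l 2 with h2 | h2
        · have : l = 1 := by omega
          subst this; omega
        · have : p * 2 ≤ p * l := Nat.mul_le_mul_left p h2
          omega
      obtain ⟨t, ht⟩ := (L.unit _ hnd).exists_right_inv
      push_cast at ht
      exact ⟨(Nat.choose (3 * m) j : A) * (-1) ^ j * t, fun _ => by linear_combination ((Nat.choose (3 * m) j : A) * (-1) ^ j) * ht⟩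
    · exact ⟨0, fun h => absurd h hj⟩
  choose s hs using hsex
  have hkA5 : ((Nat.choose (2 * (2 * m)) (2 * m) : ℕ) : k) = (Nat.choose (3 * m) (2 * m) : k) * 4 ^ (2 * m) := by
    have h1 := hA5 p (2 * m) (3 * m) hp (by omega) (by omega) (by omega)
    have h2 := congrArg (ZMod.castHom (dvd_refl p) k) h1
    rw [map_natCast, map_mul, map_natCast, map_pow, map_ofNat] at h2
    exact h2
  have hn : π (ui * (Nat.choose (3 * m) (2 * m) : A) * (-(4 * i5)) ^ (2 * m)) = 1 := by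
    have h1 := congrArg π hui
    rw [map_one] at h1
    rw [← h1]
    have hneg : (-(4 * i5)) ^ (2 * m) = 4 ^ (2 * m) * i5 ^ (2 * m) := by
      rw [Even.neg_pow (even_two_mul m), mul_pow]
    rw [hneg]
    simp only [map_mul, map_natCast, map_pow, map_ofNat, hc]
    rw [hkA5]; ring
  have hbr : π (-qκ + 3 * ((4 * i5) ^ (2 * m) * ui * ∑ j ∈ (Finset.range (3 * m + 1)).erase (2 * m), s j + γ0)) = 0 := by
    set S := ∑ j ∈ (Finset.range (3 * m + 1)).erase (2 * m), s j with hS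
    obtain ⟨z, hz⟩ : ∃ z, 3 * (p : A) * S = (Nat.choose (3 * m) (2 * m) : A) * (4 ^ (p - 1) - 1) + p ^ 2 * z := by
      apply quot_eq
      set q := Ideal.Quotient.mk (Ideal.span {(p : A) ^ 2}) with hq
      have h1 := hA4 p (2 * m) (3 * m) hp (by omega) (by omega) (by omega) (A ⧸ Ideal.span {(p : A) ^ 2})
        (ringP2_quot L) (fun j => q (s j)) (by
          intro j hj
          have h2 := congrArg q (hs j ⟨Finset.mem_of_mem_erase hj, Finset.ne_of_mem_erase hj⟩)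
          simp only [map_mul, map_add, map_ofNat, map_natCast, map_one, map_pow, map_neg] at h2
          exact h2)
      simp only [map_mul, map_ofNat, map_natCast, map_sub, map_one, map_pow, hS, map_sum]
      exact h1
    have h7 : (p : A) * (3 * S - (Nat.choose (3 * m) (2 * m) : A) * q4 - p * z) = 0 := by
      rw [hq4] at hz; linear_combination hz
    have h8 := p_ne_zero_smul hp.ne_zero h7
    have h9 := congrArg π h8
    have h10 := congrArg π hrel
    have hev : (4 * i5) ^ (2 * m) = (-(4 * i5)) ^ (2 * m) := by rw [Even.neg_pow (even_two_mul m)]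
    rw [← hev] at hn
    simp only [map_mul, map_sub, map_add, map_natCast, CharP.cast_eq_zero, zero_mul, sub_zero, add_zero, map_ofNat,
      map_pow, map_zero, map_neg] at h9 h10 hn ⊢
    rw [h10]
    linear_combination ((4 * π i5) ^ (2 * m) * π ui) * h9 + π q4 * hn
  -- power series
  obtain ⟨h, hh, hhc, hhb⟩ := hC1 A (i2 ^ 3 * i5 * (20 + 9 * r))
  obtain ⟨h0, hh0, hh0c, hh0b, hh0n⟩ := hC2 A i5
  obtain ⟨U, V, W, hI1, hI2, hU0, hV0, hW0, hU1, hW6, dW, dU, dV, hUV⟩ := curve r i2 i5 hr h2 h5 h3u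
  have hq : (4 * i5) ^ p - 4 * i5 = p * (4 * i5 * qκ) := by
    have : (4 * i5) ^ p = (4 * i5) ^ (p - 1) * (4 * i5) := by
      rw [← pow_succ]; congr 1; have := hp.pos; omega
    rw [this, hqκ]; ring
  have hSS : ∀ i : ℕ, 1 ≤ i → i ≤ 4 → ∃ z, coeff (i * p - 1) h0 =
      (i : A) * p * (φ (coeff (i - 1) h0) * (u0 * γ0)) + u0 * φ (coeff (i - 1) h0) + p ^ 2 * z := by
    intro i hi1 hi4
    have hcases : i = 1 ∨ i = 2 ∨ i = 3 ∨ i = 4 := by omega
    rcases hcases with rfl | rfl | rfl | rfl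
    · have e1 : 1 * p - 1 = 3 * (2 * m) := by omega
      have e2 : coeff (1 - 1) h0 = 1 := by
        have := hh0b 0
        simpa using this
      rw [e1, hh0b, e2, map_one, ← hc]
      refine ⟨c * i5 ^ (2 * m) * γ0 ^ 2, ?_⟩
      rw [hu0]; push_cast; ring
    · have e1 : ¬ 3 ∣ 2 * p - 1 := by omega
      have e2 : coeff (2 - 1) h0 = 0 := hh0n _ (by norm_num)
      rw [hh0n _ e1, e2, map_zero]
      exact ⟨0, by ring⟩
    · have e1 : ¬ 3 ∣ 3 * p - 1 := by omega
      have e2 : coeff (3 - 1) h0 = 0 := hh0n _ (by norm_num)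
      rw [hh0n _ e1, e2, map_zero]
      exact ⟨0, by ring⟩
    · have e1 : 4 * p - 1 = 3 * (p + 2 * m) := by omega
      have e2 : coeff (4 - 1) h0 = 2 * i5 := by
        have := hh0b 1
        simpa using this
      have e3 : φ (2 * i5) = 2 * i5 := by rw [map_mul, map_ofNat, hφ5]
      rw [e1, hh0b, e2, e3]
      obtain ⟨z, hz⟩ : ∃ z, ((Nat.choose (2 * (p + 2 * m)) (p + 2 * m) : ℕ) : A) = 2 * c + p ^ 2 * z := by
        apply quot_eq
        have h1 := hA3 p (2 * m) hp (by omega) (by omega) (A ⧸ Ideal.span {(p : A) ^ 2}) (ringP2_quot L)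
        simp only [map_mul, map_ofNat, map_natCast, hc]
        exact h1
      have e4 : i5 ^ (p + 2 * m) = i5 * i5 ^ (2 * m) * (1 + 3 * p * γ0) := by
        rw [← hγ]
        have : i5 * i5 ^ (2 * m) * i5 ^ (p - 1) = i5 ^ (1 + 2 * m + (p - 1)) := by rw [pow_add, pow_add, pow_one]
        rw [this]; congr 1; have := hp.pos; omega
      rw [hz, e4, hu0]
      refine ⟨z * (i5 * i5 ^ (2 * m) * (1 + 3 * p * γ0)) + 8 * c * i5 * i5 ^ (2 * m) * γ0 ^ 2, ?_⟩
      push_cast
      ring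
  have hf3 := natDegree_f (i2 ^ 3 * i5 * (20 + 9 * r))
  have hfh : h ^ 2 * ((((1 - 3 * Polynomial.X) ^ 2 - 4 * Polynomial.C (i2 ^ 3 * i5 * (20 + 9 * r)) * Polynomial.X ^ 3
      : Polynomial A)) : A⟦X⟧) = 1 := by
    have : ((((1 - 3 * Polynomial.X) ^ 2 - 4 * Polynomial.C (i2 ^ 3 * i5 * (20 + 9 * r)) * Polynomial.X ^ 3 : Polynomial A)) : A⟦X⟧)
        = ((1 - 3 * X) ^ 2 - 4 * C (i2 ^ 3 * i5 * (20 + 9 * r)) * X ^ 3) := by
      rw [← Polynomial.coeToPowerSeries.ringHom_apply]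
      simp only [map_sub, map_mul, map_pow, map_one, map_ofNat]
      simp
    rw [this]; exact hh
  have hh0' : h0 ^ 2 * (1 - C (4 * i5) * X ^ 3) = 1 := by
    rw [map_mul, map_ofNat]; exact hh0
  obtain ⟨γ, hγM⟩ := M_abs L m hpm U V W ((1 - 3 * Polynomial.X) ^ 2 - 4 * Polynomial.C (i2 ^ 3 * i5 * (20 + 9 * r)) * Polynomial.X ^ 3)
    (5 * i2) (4 * i5) hI1 hI2 (by rw [map_mul, map_ofNat, hφ5]) (by rw [map_mul, map_ofNat, hφ2])
    (h4u.mul hi5u) (h5u.mul hi2u) hU0 hV0 hW0 hU1 hW6 dW dU dV hf3 hUV h h0 hfh hhc hh0' hh0c qκ γ0 u0 ui s huk hq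
    (fun j hj hj2 => hs j ⟨hj, hj2⟩) hn hbr 4 hSS
  refine ⟨γ, u0, ?_, ?_⟩
  · refine ⟨-(c * i5 ^ (p - 1) * q5 ^ 2), ?_⟩
    have h55 : i5 ^ (2 * m) * 5 ^ (2 * m) = 1 := by rw [← mul_pow, mul_comm i5, h5, one_pow]
    have h56 : i5 ^ (p - 1) * (1 + p * q5) = 1 := by rw [← hq5, ← mul_pow, mul_comm i5, h5, one_pow]
    have h57 : u0 * (3 * 5 ^ (2 * m)) = c * (4 - i5 ^ (p - 1)) := by
      rw [hu0, hγ]
      linear_combination (3 * c * (1 - p * γ0)) * h55
    rw [h57, hq5]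
    linear_combination (c * (p * q5 - 1)) * h56
  · intro j hj hj4
    obtain ⟨z, hz⟩ := hγM j hj hj4
    have hjp : 1 ≤ j * p := Nat.mul_pos (by omega) hp.pos
    exact ⟨z, by rw [← hhb _ hjp, ← hhb _ hj, hz]⟩

end Pool.Agent.Lib.MP_748296_nt.H2
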