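import Pool.Agent.Lib.MP_748296_nt.H2.One

/-! The case `p ≡ 2 (mod 3)`. -/

namespace Pool.Agent.Lib.MP_748296_nt.H2

open PowerSeries

section
variable {A : Type} [CommRing A]

theorem subst_h0 (κ : A) (h0 E : A⟦X⟧) (hh0 : h0 ^ 2 * (1 - C κ * X ^ 3) = 1) :
    (h0.subst (X * E)) ^ 2 * (1 - C κ * (X * E) ^ 3) = 1 := by
  have hs : HasSubst (X * E : A⟦X⟧) := HasSubst.of_constantCoeff_zero' (by simp)
  have h1 : PowerSeries.subst (X * E) (h0 ^ 2 * (1 - C κ * X ^ 3)) = PowerSeries.subst (X * E) (1 : A⟦X⟧) := by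
    rw [hh0]
  have hone : (1 : A⟦X⟧).subst (X * E) = (1 : A⟦X⟧) := by
    rw [← coe_substAlgHom hs, map_one]
  have hCκ : (C κ : A⟦X⟧).subst (X * E) = (C κ : A⟦X⟧) := by
    rw [← Polynomial.coe_C, subst_coe hs]; simp
  rw [subst_mul hs, subst_pow hs, subst_sub hs, subst_mul hs, subst_pow hs, subst_X hs, hone, hCκ] at h1
  exact h1

theorem deriv_map' {k : Type} [CommRing k] (π : A →+* k) (g : A⟦X⟧) :
    PowerSeries.map π (d⁄dX A g) = d⁄dX k (PowerSeries.map π g) := by
  ext n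
  rw [coeff_map, coeff_derivative, coeff_derivative, coeff_map]
  simp
end

variable {A k : Type} [CommRing A] [IsAddTorsionFree A] [CommRing k] {p : ℕ} [Fact p.Prime] [CharP k p]
  {π : A →+* k} {φ : A →+* A}

theorem two_b (hC1 : C1Statement) (hC2 : C2Statement) (L : LiftData p π φ) (hp5 : 5 < p) (hmod : p % 3 = 2)
    (r i2 i5 : A) (hr : r ^ 2 = 5) (h2 : 2 * i2 = 1) (h5 : 5 * i5 = 1) :
    bcoef k (π (i2 ^ 3 * i5 * (20 + 9 * r))) p = 0 := by
  have hp : p.Prime := Fact.out
  obtain ⟨N, hN⟩ : ∃ N, p = 2 * N + 1 := (hp.eq_two_or_odd'.resolve_left (by omega))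
  have h3u : IsUnit (3 : A) := by
    have := L.unit 3 (fun h => by have := Nat.le_of_dvd (by norm_num) h; omega)
    simpa using this
  have h2u : IsUnit (2 : A) := IsUnit.of_mul_eq_one _ h2
  have h5u : IsUnit (5 : A) := IsUnit.of_mul_eq_one _ h5
  have hi2u : IsUnit i2 := IsUnit.of_mul_eq_one_right _ h2
  have hφ2 : φ i2 = i2 := by
    have h1 := congrArg φ h2
    rw [map_mul, map_ofNat, map_one] at h1
    linear_combination (-φ i2) * h2 + i2 * h1
  obtain ⟨h, hh, hhc, hhb⟩ := hC1 A (i2 ^ 3 * i5 * (20 + 9 * r))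
  obtain ⟨h0, hh0, hh0c, -, -⟩ := hC2 A i5
  obtain ⟨U, V, W, hI1, hI2, hU0, hV0, hW0, hU1, -, -, -, -, -⟩ := curve r i2 i5 hr h2 h5 h3u
  set lam := i2 ^ 3 * i5 * (20 + 9 * r) with hlam
  set f : Polynomial A := (1 - 3 * Polynomial.X) ^ 2 - 4 * Polynomial.C lam * Polynomial.X ^ 3 with hf
  have hfc : (f : A⟦X⟧) = ((1 - 3 * X) ^ 2 - 4 * C lam * X ^ 3) := by
    rw [hf, ← Polynomial.coeToPowerSeries.ringHom_apply]
    simp only [map_sub, map_mul, map_pow, map_one, map_ofNat]
    simp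
  have hfh : h ^ 2 * (f : A⟦X⟧) = 1 := by rw [hfc]; exact hh
  have hh0' : h0 ^ 2 * (1 - C (4 * i5) * X ^ 3) = 1 := by
    rw [map_mul, map_ofNat]; exact hh0
  have hc1u : IsUnit (5 * i2) := h5u.mul hi2u
  obtain ⟨E, Ei, hE, hE1, hE2, hch⟩ := exists_E U V W f (5 * i2) (4 * i5) h2u hI1 hI2 hU0 hV0 hW0 hU1 hc1u h h0 hfh hhc hh0' hh0c
  have hs1 := subst_h0 (4 * i5) h0 E hh0'
  set R : k⟦X⟧ := PowerSeries.map π (X * E) with hR
  set g0 : k⟦X⟧ := PowerSeries.map π (h0.subst (X * E)) with hg0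
  set D : k⟦X⟧ := PowerSeries.map π (d⁄dX A (X * E)) with hD
  set F1 : k⟦X⟧ := 1 - C (π (4 * i5)) * R ^ 3 with hF1
  set hb : k⟦X⟧ := PowerSeries.map π h with hhb'
  set fb : k⟦X⟧ := PowerSeries.map π (f : A⟦X⟧) with hfb
  have k1 : C (π (5 * i2)) * hb = D * g0 := by
    have := congrArg (PowerSeries.map π) hch
    rw [map_mul (PowerSeries.map π), map_mul (PowerSeries.map π), PowerSeries.map_C] at this
    exact this
  have k2 : g0 ^ 2 * F1 = 1 := by
    have := congrArg (PowerSeries.map π) hs1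
    rw [map_mul (PowerSeries.map π), map_pow (PowerSeries.map π), map_sub (PowerSeries.map π), map_mul (PowerSeries.map π) (C _),
      map_pow (PowerSeries.map π) (X * E), PowerSeries.map_C, map_one] at this
    exact this
  have k3 : hb ^ 2 * fb = 1 := by
    have := congrArg (PowerSeries.map π) hfh
    rw [map_mul (PowerSeries.map π), map_pow (PowerSeries.map π), map_one] at this
    exact this
  have k4 := h_charp g0 F1 N p hN k2
  have k5 := h_charp hb fb N p hN k3
  have k6 : (C (π (5 * i2)) : k⟦X⟧) ^ p = C (π (5 * i2)) := by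
    rw [← map_pow, ← L.frob, map_mul, map_ofNat, hφ2]
  have k7 : C (π (5 * i2)) * hb ^ p = D ^ p * g0 ^ p := by
    have := congrArg (fun x => x ^ p) k1
    simp only [mul_pow, k6] at this
    exact this
  have hg0u : IsUnit (g0 ^ p) := by
    apply IsUnit.pow
    exact IsUnit.of_mul_eq_one (g0 * F1) (by linear_combination k2)
  have k8 : D * F1 ^ N = fb ^ N * D ^ p := by
    apply hg0u.mul_right_cancel
    calc D * F1 ^ N * g0 ^ p = D * (F1 ^ N * g0 ^ p) := by ring
      _ = D * g0 := by rw [← k4]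
      _ = C (π (5 * i2)) * hb := k1.symm
      _ = C (π (5 * i2)) * (fb ^ N * hb ^ p) := by rw [← k5]
      _ = fb ^ N * (C (π (5 * i2)) * hb ^ p) := by ring
      _ = fb ^ N * D ^ p * g0 ^ p := by rw [k7]; ring
  -- antiderivative
  have hex : ∀ j, ∃ t : k, j < N + 1 → ((3 * j + 1 : ℕ) : k) * t = (Nat.choose N j : k) * (-(π (4 * i5))) ^ j := by
    intro j
    by_cases hj : j < N + 1
    · have hnd : ¬ p ∣ 3 * j + 1 := by
        rintro ⟨l, hl⟩
        rcases Nat.lt_or_ge l 1 with h1 | h1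
        · have : l = 0 := by omega
          subst this; omega
        rcases Nat.lt_or_ge l 2 with h2 | h2
        · have : l = 1 := by omega
          subst this; omega
        · have : p * 2 ≤ p * l := Nat.mul_le_mul_left p h2
          omega
      obtain ⟨t, ht⟩ := (unit_of_not_dvd (k := k) p hnd).exists_right_inv
      exact ⟨t * ((Nat.choose N j : k) * (-(π (4 * i5))) ^ j), fun _ => by rw [← mul_assoc, ht, one_mul]⟩
    · exact ⟨0, fun h => absurd h hj⟩
  choose t ht using hex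
  have hDR : d⁄dX k R = D := by rw [hD, hR, deriv_map']
  have k9 : d⁄dX k (∑ j ∈ Finset.range (N + 1), C (t j) * R ^ (3 * j + 1)) = D * F1 ^ N := by
    rw [map_sum]
    have e5 : F1 ^ N = ∑ j ∈ Finset.range (N + 1), C ((Nat.choose N j : k) * (-(π (4 * i5))) ^ j) * R ^ (3 * j) := by
      have : F1 = -(C (π (4 * i5)) * R ^ 3) + 1 := by rw [hF1]; ring
      rw [this, add_pow]
      apply Finset.sum_congr rfl
      intro j _
      have e6 : (C ((Nat.choose N j : k) * (-(π (4 * i5))) ^ j) : k⟦X⟧) = (Nat.choose N j : k⟦X⟧) * (-(C (π (4 * i5)))) ^ j := by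
        rw [map_mul (C : k →+* k⟦X⟧), map_pow (C : k →+* k⟦X⟧), map_neg (C : k →+* k⟦X⟧), map_natCast]
      rw [e6, one_pow, mul_one, neg_pow (C (π (4 * i5)) * R ^ 3), neg_pow (C (π (4 * i5))),
        mul_pow, ← pow_mul]
      ring
    rw [e5, Finset.mul_sum]
    apply Finset.sum_congr rfl
    intro j hj
    have hj' := Finset.mem_range.1 hj
    rw [← ht j hj', map_mul (C : k →+* k⟦X⟧), map_natCast, Derivation.leibniz, derivative_pow, derivative_C, hDR]
    simp only [smul_eq_mul, mul_zero, add_zero, Nat.add_sub_cancel]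
    ring
  have k10 : coeff (p - 1) (fb ^ N * D ^ p) = 0 := by
    rw [← k8, ← k9, coeff_derivative]
    have : ((p - 1 : ℕ) : k) + 1 = 0 := by
      have h1 : (((p - 1) + 1 : ℕ) : k) = 0 := by
        rw [Nat.sub_add_cancel hp.pos, CharP.cast_eq_zero]
      exact_mod_cast h1
    rw [this, mul_zero]
  have hcoef : ∀ G : k⟦X⟧, coeff (p - 1) (fb ^ N * G ^ p) = (coeff 0 G) ^ p * coeff (p - 1) (fb ^ N) := by
    intro G
    have h1 := coeff_mul_expand p hp.pos (fb ^ N) (G ^ p) (fun n hn => by rw [coeff_pow_char p, if_neg hn]) 1 (by norm_num)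
    rw [one_mul] at h1
    rw [h1, Finset.sum_range_one, mul_zero, coeff_pow_char p, if_pos (dvd_zero p), Nat.zero_div]
    simp
  rw [hcoef] at k10
  have hD0 : IsUnit (coeff 0 D) := by
    have h1 := congrArg (fun x => constantCoeff (PowerSeries.map π x)) hE2
    simp only [map_mul (PowerSeries.map π), map_pow (PowerSeries.map π), PowerSeries.map_C] at h1
    rw [← hD, map_mul (constantCoeff (R := k)), map_mul (constantCoeff (R := k)), map_pow (constantCoeff (R := k)), constantCoeff_C] at h1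
    have h2 : constantCoeff (PowerSeries.map π (V : A⟦X⟧)) = 1 := by
      rw [← coeff_zero_eq_constantCoeff_apply, coeff_map, Polynomial.coeff_coe, hV0, map_one]
    have h3 : constantCoeff (PowerSeries.map π (W : A⟦X⟧)) = 1 := by
      rw [← coeff_zero_eq_constantCoeff_apply, coeff_map, Polynomial.coeff_coe, hW0, map_one]
    rw [h2, h3, mul_one, one_pow, mul_one] at h1
    rw [coeff_zero_eq_constantCoeff_apply, h1]; exact hc1u.map π
  have k11 : coeff (p - 1) (fb ^ N) = 0 := ((hD0.pow p).mul_right_eq_zero).1 k10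
  rw [← map_bcoef, ← hhb p hp.pos]
  have : π (coeff (p - 1) h) = coeff (p - 1) hb := by rw [hhb', coeff_map]
  rw [this, k5, hcoef, k11, mul_zero]

end Pool.Agent.Lib.MP_748296_nt.H2
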